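import Pool.Agent.V11262.OP.Elim

/-!
# Mass gap with two strong orthogonal planes: the abstract two-copy expansion
-/

set_option autoImplicit false

noncomputable section

namespace Pool.Agent.V11262.OP

open MeasureTheory Measure

/-- bounded real functions -/
def Bd {X : Type} (f : X → ℝ) : Prop := ∃ C : ℝ, ∀ x, |f x| ≤ C

lemma Bd.mul {X : Type} {f g : X → ℝ} (hf : Bd f) (hg : Bd g) : Bd fun x => f x * g x := by
  obtain ⟨C, hC⟩ := hf
  obtain ⟨D, hD⟩ := hg
  refine ⟨C * D, fun x => ?_⟩
  rw [abs_mul]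
  exact mul_le_mul (hC x) (hD x) (abs_nonneg _) ((abs_nonneg _).trans (hC x))

lemma Bd.sub {X : Type} {f g : X → ℝ} (hf : Bd f) (hg : Bd g) : Bd fun x => f x - g x := by
  obtain ⟨C, hC⟩ := hf
  obtain ⟨D, hD⟩ := hg
  refine ⟨C + D, fun x => ?_⟩
  exact (abs_sub _ _).trans (add_le_add (hC x) (hD x))

lemma Bd.add {X : Type} {f g : X → ℝ} (hf : Bd f) (hg : Bd g) : Bd fun x => f x + g x := by
  obtain ⟨C, hC⟩ := hf
  obtain ⟨D, hD⟩ := hg
  refine ⟨C + D, fun x => ?_⟩
  exact (abs_add_le _ _).trans (add_le_add (hC x) (hD x))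

lemma Bd.const {X : Type} (c : ℝ) : Bd fun _ : X => c := ⟨|c|, fun _ => le_refl _⟩

lemma Bd.comp {X Y : Type} {f : Y → ℝ} (hf : Bd f) (g : X → Y) : Bd fun x => f (g x) := by
  obtain ⟨C, hC⟩ := hf
  exact ⟨C, fun x => hC _⟩

lemma Bd.prod {X ι : Type} (s : Finset ι) {f : ι → X → ℝ} (hf : ∀ i ∈ s, Bd (f i)) :
    Bd fun x => ∏ i ∈ s, f i x := by
  classical
  induction s using Finset.induction_on with
  | empty => simpa using Bd.const 1
  | insert a s ha ih =>
    simp only [Finset.prod_insert ha]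
    exact (hf a (Finset.mem_insert_self _ _)).mul
      (ih fun i hi => hf i (Finset.mem_insert_of_mem hi))

lemma Bd.integrable {X : Type} [MeasurableSpace X] {P : Measure X} [IsProbabilityMeasure P]
    {f : X → ℝ} (hf : Bd f) (hm : Measurable f) : Integrable f P := by
  obtain ⟨C, hC⟩ := hf
  exact Integrable.of_bound hm.aestronglyMeasurable C
    (Filter.Eventually.of_forall fun x => by simpa using hC x)

/-- `f` depends only on the variables in `A` -/
def Dep {L G : Type} (A : Set L) (f : (L → G) → ℝ) : Prop :=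
  ∀ U U' : L → G, (∀ e ∈ A, U e = U' e) → f U = f U'

section Core

set_option linter.unusedSectionVars false

variable {L S : Type} [DecidableEq L] (sed : S → Finset L)

/-- every edge of `K` not in `T` belongs to two elements of `K` -/
def BD (T : Finset L) (K : Finset S) : Prop :=
  ∀ s ∈ K, ∀ e ∈ sed s, e ∉ T → ∃ s' ∈ K, s' ≠ s ∧ e ∈ sed s'

open Classical in
/-- the largest subset of `SS` without free edges -/
def core (SS : Finset S) (T : Finset L) : Finset S :=
  SS.filter fun s => ∃ K ⊆ SS, s ∈ K ∧ BD sed T K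

lemma mem_core {SS : Finset S} {T : Finset L} {s : S} :
    s ∈ core sed SS T ↔ s ∈ SS ∧ ∃ K ⊆ SS, s ∈ K ∧ BD sed T K := by
  simp only [core, Finset.mem_filter]

lemma core_sub (SS : Finset S) (T : Finset L) : core sed SS T ⊆ SS :=
  fun _ hs => ((mem_core sed).1 hs).1

lemma sub_core {SS : Finset S} {T : Finset L} {K : Finset S} (hK : K ⊆ SS) (h : BD sed T K) :
    K ⊆ core sed SS T :=
  fun _ hs => (mem_core sed).2 ⟨hK hs, K, hK, hs, h⟩

lemma BD_core (SS : Finset S) (T : Finset L) : BD sed T (core sed SS T) := by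
  intro s hs e he heT
  obtain ⟨hsS, K, hK, hsK, hBD⟩ := (mem_core sed).1 hs
  obtain ⟨s', hs', hne, he'⟩ := hBD s hsK e he heT
  exact ⟨s', sub_core sed hK hBD hs', hne, he'⟩

lemma exists_free {SS : Finset S} {T : Finset L} {X : Finset S} (hX : X ⊆ SS)
    (h1 : core sed SS T ⊆ X) (h2 : X ≠ core sed SS T) :
    ∃ s ∈ X, s ∉ core sed SS T ∧ ∃ e ∈ sed s, e ∉ T ∧ ∀ s' ∈ X, s' ≠ s → e ∉ sed s' := by
  by_contra hcon
  push Not at hcon
  apply h2
  refine Finset.Subset.antisymm (sub_core sed hX ?_) h1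
  intro s hs e he heT
  by_cases hc : s ∈ core sed SS T
  · obtain ⟨s', hs', hne, he'⟩ := BD_core sed SS T s hc e he heT
    exact ⟨s', h1 hs', hne, he'⟩
  · exact hcon s hs hc e he heT

end Core

section Expansion

set_option linter.unusedSectionVars false

variable {L G S W : Type} [DecidableEq L] [DecidableEq S] [DecidableEq W] [MeasurableSpace G]
  (μ : Measure G) [IsProbabilityMeasure μ]
  (sed : S → Finset L) (wed : W → Finset L)
  (r : Bool → S → (L → G) → ℝ) (w : Bool → W → (L → G) → ℝ)

/-- the weight of a strong plaquette in the two copies -/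
def RR (s : S) (ω : Bool × L → G) : ℝ := r false s (cp false ω) * r true s (cp true ω)

/-- the weight of a weak plaquette in the two copies, minus one -/
def VV (p : W) (ω : Bool × L → G) : ℝ := w false p (cp false ω) * w true p (cp true ω) - 1

/-- touched edges -/
def TT (E1 E2 : Finset L) (O : Finset W) : Finset L := E1 ∪ E2 ∪ O.biUnion wed

/-- the sets `E1` and `E2` are separated -/
def Sep (SS : Finset S) (DS : Set S) (DW : Set W) (E1 E2 : Finset L) (O : Finset W) : Prop :=
  ∃ Q : Set L, (∀ e ∈ E1, e ∈ Q) ∧ (∀ e ∈ E2, e ∉ Q) ∧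
    (∀ p ∈ O, ((∀ e ∈ wed p, e ∈ Q) ∧ p ∉ DW) ∨ ∀ e ∈ wed p, e ∉ Q) ∧
    ∀ s ∈ core sed SS (TT wed E1 E2 O), ((∀ e ∈ sed s, e ∈ Q) ∧ s ∉ DS) ∨ ∀ e ∈ sed s, e ∉ Q

variable {sed wed r w}

omit [DecidableEq L] [DecidableEq S] [MeasurableSpace G] in
lemma RR_upd (hdep : ∀ b s, Dep (sed s : Set L) (r b s)) {s : S} {e : L} (he : e ∉ sed s)
    (b : Bool) (ω : Bool × L → G) (x : G) [DecidableEq (Bool × L)] :
    RR r s (Function.update ω (b, e) x) = RR r s ω := by
  unfold RR
  have h1 : ∀ b', r b' s (cp b' (Function.update ω (b, e) x)) = r b' s (cp b' ω) := by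
    intro b'
    refine hdep b' s _ _ fun e' he' => ?_
    have hne : (b', e') ≠ (b, e) := by
      rintro ⟨⟩
      exact he he'
    simp [hne]
  rw [h1, h1]

theorem elim_core (hrm : ∀ b s, Measurable (r b s)) (hrb : ∀ b s, Bd (r b s))
    (hdep : ∀ b s, Dep (sed s : Set L) (r b s)) (SS : Finset S)
    (c : Bool → S → ℝ)
    (hc : ∀ b, ∀ s ∈ SS, ∀ e ∈ sed s, ∀ U : L → G,
      ∫ x, r b s (Function.update U e x) ∂μ = c b s)
    (T : Finset L) (f : (Bool × L → G) → ℝ) (hfm : Measurable f) (hfb : Bd f)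
    (hfT : ∀ b, ∀ e ∉ T, ∀ ω : Bool × L → G, ∀ x, f (Function.update ω (b, e) x) = f ω) :
    ∫ ω, f ω * ∏ s ∈ SS, RR r s ω ∂(infinitePi fun _ : Bool × L => μ) =
      (∏ s ∈ SS \ core sed SS T, (c false s * c true s)) *
        ∫ ω, f ω * ∏ s ∈ core sed SS T, RR r s ω ∂(infinitePi fun _ : Bool × L => μ) := by
  classical
  have key : ∀ n : ℕ, ∀ X : Finset S, X ⊆ SS → core sed SS T ⊆ X → X.card = n →
      ∫ ω, f ω * ∏ s ∈ X, RR r s ω ∂(infinitePi fun _ : Bool × L => μ) =
      (∏ s ∈ X \ core sed SS T, (c false s * c true s)) *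
        ∫ ω, f ω * ∏ s ∈ core sed SS T, RR r s ω ∂(infinitePi fun _ : Bool × L => μ) := by
    intro n
    induction n with
    | zero =>
      intro X hX h1 hn
      have : X = ∅ := Finset.card_eq_zero.1 hn
      subst this
      have : core sed SS T = ∅ := Finset.subset_empty.1 h1
      rw [this]
      simp
    | succ n ih =>
      intro X hX h1 hn
      by_cases h2 : X = core sed SS T
      · rw [← h2]
        simp
      · obtain ⟨s, hs, hsc, e, he, heT, hfree⟩ := exists_free sed hX h1 h2
        have hC := ih (X.erase s) ((Finset.erase_subset _ _).trans hX)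
          (fun t ht => Finset.mem_erase.2 ⟨fun h => hsc (h ▸ ht), h1 ht⟩)
          (by rw [Finset.card_erase_of_mem hs, hn]; rfl)
        have hprod : ∏ t ∈ X \ core sed SS T, (c false t * c true t) =
            c false s * (c true s * ∏ t ∈ X.erase s \ core sed SS T,
              (c false t * c true t)) := by
          have h3 : X \ core sed SS T = insert s (X.erase s \ core sed SS T) := by
            ext t
            simp only [Finset.mem_sdiff, Finset.mem_insert, Finset.mem_erase]
            constructor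
            · rintro ⟨h4, h5⟩
              by_cases hts : t = s
              · exact Or.inl hts
              · exact Or.inr ⟨⟨hts, h4⟩, h5⟩
            · rintro (rfl | ⟨⟨_, h4⟩, h5⟩)
              · exact ⟨hs, hsc⟩
              · exact ⟨h4, h5⟩
          rw [h3, Finset.prod_insert (by simp)]
          ring
        rw [hprod]
        have hRm : ∀ t, Measurable (RR r t) := fun t =>
          ((hrm false t).comp (measurable_cp false)).mul ((hrm true t).comp (measurable_cp true))
        have hRb : ∀ t, Bd (RR r t) := fun t =>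
          ((hrb false t).comp (cp false)).mul ((hrb true t).comp (cp true))
        -- the remaining product
        set g : (Bool × L → G) → ℝ := fun ω => f ω * ∏ t ∈ X.erase s, RR r t ω with hg
        have hgm : Measurable g :=
          hfm.mul (Finset.measurable_prod _ fun t _ => hRm t)
        have hgb : Bd g := hfb.mul (Bd.prod _ fun t _ => hRb t)
        have hgu : ∀ b, ∀ ω : Bool × L → G, ∀ x, g (Function.update ω (b, e) x) = g ω := by
          intro b ω x
          simp only [hg, hfT b e heT]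
          congr 1
          refine Finset.prod_congr rfl fun t ht => ?_
          rw [Finset.mem_erase] at ht
          exact RR_upd hdep (hfree t ht.2 ht.1) b ω x
        have e1 : ∀ ω, f ω * ∏ t ∈ X, RR r t ω =
            (g ω * r true s (cp true ω)) * r false s (cp false ω) := by
          intro ω
          rw [← Finset.mul_prod_erase X (fun t => RR r t ω) hs]
          simp only [hg, RR]
          ring
        have ht1 : Measurable fun ω : Bool × L → G => r true s (cp true ω) :=
          (hrm true s).comp (measurable_cp true)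
        have ht2 : Measurable fun ω : Bool × L → G => r false s (cp false ω) :=
          (hrm false s).comp (measurable_cp false)
        obtain ⟨C1, hC1⟩ := hgb
        obtain ⟨C2, hC2⟩ : Bd fun ω : Bool × L → G => r true s (cp true ω) :=
          (hrb true s).comp _
        obtain ⟨C3, hC3⟩ : Bd fun ω : Bool × L → G => r false s (cp false ω) :=
          (hrb false s).comp _
        obtain ⟨C4, hC4⟩ : Bd fun ω : Bool × L → G => g ω * r true s (cp true ω) :=
          Bd.mul ⟨C1, hC1⟩ ⟨C2, hC2⟩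
        have hcp : ∀ (b : Bool) (ω : Bool × L → G) (x : G),
            cp b (Function.update ω (b, e) x) = Function.update (cp b ω) e x := by
          intro b ω x
          funext e'
          by_cases h : e' = e
          · subst h; simp
          · have : (b, e') ≠ (b, e) := by
              rintro ⟨⟩; exact h rfl
            simp [this, Function.update_of_ne h]
        have hcp' : ∀ (ω : Bool × L → G) (x : G),
            cp true (Function.update ω (false, e) x) = cp true ω := by
          intro ω x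
          funext e'
          simp
        have s1 := elim1 μ ((false, e) : Bool × L) (fun ω => g ω * r true s (cp true ω))
          (fun ω => r false s (cp false ω)) (hgm.mul ht1) ht2 hC4 hC3
          (by
            intro ω x
            simp only [hgu, hcp'])
          (c false s)
          (by
            intro ω
            simp only [hcp]
            exact hc false s (hX hs) e he (cp false ω))
        have s2 := elim1 μ ((true, e) : Bool × L) g
          (fun ω => r true s (cp true ω)) hgm ht1 hC1 hC2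
          (fun ω x => hgu true ω x) (c true s)
          (by
            intro ω
            simp only [hcp]
            exact hc true s (hX hs) e he (cp true ω))
        simp only [e1]
        rw [s1, s2, hC]
        ring
  exact key SS.card SS (Finset.Subset.refl _) (core_sub _ _ _) rfl

theorem vanish (hrm : ∀ b s, Measurable (r b s)) (hrb : ∀ b s, Bd (r b s))
    (hdep : ∀ b s, Dep (sed s : Set L) (r b s)) (hwm : ∀ b p, Measurable (w b p))
    (hwb : ∀ b p, Bd (w b p)) (hwdep : ∀ b p, Dep (wed p : Set L) (w b p)) (SS : Finset S)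
    (c : Bool → S → ℝ)
    (hc : ∀ b, ∀ s ∈ SS, ∀ e ∈ sed s, ∀ U : L → G,
      ∫ x, r b s (Function.update U e x) ∂μ = c b s)
    {DS : Set S} {DW : Set W} (hDS : ∀ s, s ∉ DS → r false s = r true s)
    (hDW : ∀ p, p ∉ DW → w false p = w true p) {E1 E2 : Finset L}
    (F : (L → G) → ℝ) (hFm : Measurable F) (hFb : Bd F) (hFd : Dep (E1 : Set L) F)
    (K : (Bool × L → G) → ℝ) (hKm : Measurable K) (hKb : Bd K)
    (hKd : ∀ ω ω' : Bool × L → G, (∀ b, ∀ e ∈ E2, ω (b, e) = ω' (b, e)) → K ω = K ω')
    {O : Finset W} (hsep : Sep sed wed SS DS DW E1 E2 O) :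
    ∫ ω, ((F (cp false ω) - F (cp true ω)) * K ω * ∏ p ∈ O, VV w p ω) * ∏ s ∈ SS, RR r s ω
      ∂(infinitePi fun _ : Bool × L => μ) = 0 := by
  set f : (Bool × L → G) → ℝ :=
    fun ω => (F (cp false ω) - F (cp true ω)) * K ω * ∏ p ∈ O, VV w p ω with hf
  have hVm : ∀ p, Measurable (VV w p) := fun p =>
    (((hwm false p).comp (measurable_cp false)).mul
      ((hwm true p).comp (measurable_cp true))).sub_const 1
  have hVb : ∀ p, Bd (VV w p) := fun p =>
    (((hwb false p).comp (cp false)).mul ((hwb true p).comp (cp true))).sub (Bd.const 1)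
  have hFm' : Measurable fun ω : Bool × L → G => F (cp false ω) - F (cp true ω) :=
    (hFm.comp (measurable_cp false)).sub (hFm.comp (measurable_cp true))
  have hfm : Measurable f := (hFm'.mul hKm).mul (Finset.measurable_prod _ fun p _ => hVm p)
  have hfb : Bd f := (((hFb.comp _).sub (hFb.comp _)).mul hKb).mul (Bd.prod _ fun p _ => hVb p)
  have hcpe : ∀ (b b' : Bool) (e : L) (ω : Bool × L → G) (x : G) (A : Set L), e ∉ A →
      ∀ e' ∈ A, cp b' (Function.update ω (b, e) x) e' = cp b' ω e' := by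
    intro b b' e ω x A he e' he'
    have hne : (b', e') ≠ (b, e) := by
      rintro ⟨⟩
      exact he he'
    simp [hne]
  have hfT : ∀ b, ∀ e ∉ TT wed E1 E2 O, ∀ ω : Bool × L → G, ∀ x,
      f (Function.update ω (b, e) x) = f ω := by
    intro b e he ω x
    simp only [TT, Finset.mem_union, Finset.mem_biUnion, not_or, not_exists, not_and] at he
    obtain ⟨⟨h1, h2⟩, h3⟩ := he
    have a1 : ∀ b', F (cp b' (Function.update ω (b, e) x)) = F (cp b' ω) := fun b' =>
      hFd _ _ (hcpe b b' e ω x (E1 : Set L) (by simpa using h1))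
    have a2 : K (Function.update ω (b, e) x) = K ω := by
      refine hKd _ _ fun b' e' he' => ?_
      exact hcpe b b' e ω x (E2 : Set L) (by simpa using h2) e' (by simpa using he')
    have a3 : ∀ p ∈ O, VV w p (Function.update ω (b, e) x) = VV w p ω := by
      intro p hp
      unfold VV
      have : ∀ b', w b' p (cp b' (Function.update ω (b, e) x)) = w b' p (cp b' ω) := fun b' =>
        hwdep b' p _ _ (hcpe b b' e ω x (wed p : Set L) (by simpa using h3 p hp))
      rw [this, this]
    simp only [hf]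
    rw [a1, a1, a2, Finset.prod_congr rfl a3]
  rw [elim_core μ hrm hrb hdep SS c hc (TT wed E1 E2 O) f hfm hfb hfT]
  obtain ⟨Q, hQ1, hQ2, hQ3, hQ4⟩ := hsep
  have hRm : ∀ t, Measurable (RR r t) := fun t =>
    ((hrm false t).comp (measurable_cp false)).mul ((hrm true t).comp (measurable_cp true))
  set g : (Bool × L → G) → ℝ :=
    fun ω => f ω * ∏ s ∈ core sed SS (TT wed E1 E2 O), RR r s ω with hg
  have hgm : Measurable g := hfm.mul (Finset.measurable_prod _ fun t _ => hRm t)
  have hsw1 : ∀ (b : Bool) (A : Finset L) (h : (L → G) → ℝ), Dep (A : Set L) h →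
      (∀ e ∈ A, e ∈ Q) → ∀ ω, h (cp b (swp Q ω)) = h (cp (!b) ω) := by
    intro b A h hh hA ω
    refine hh _ _ fun e he => ?_
    rw [cp_apply, cp_apply, swp_mem Q ω (hA e (by simpa using he))]
  have hsw2 : ∀ (b : Bool) (A : Finset L) (h : (L → G) → ℝ), Dep (A : Set L) h →
      (∀ e ∈ A, e ∉ Q) → ∀ ω, h (cp b (swp Q ω)) = h (cp b ω) := by
    intro b A h hh hA ω
    refine hh _ _ fun e he => ?_
    rw [cp_apply, cp_apply, swp_notMem Q ω (hA e (by simpa using he))]
  have hanti : ∀ ω, g (swp Q ω) = - g ω := by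
    intro ω
    have b1 : F (cp false (swp Q ω)) = F (cp true ω) := hsw1 false E1 F hFd hQ1 ω
    have b2 : F (cp true (swp Q ω)) = F (cp false ω) := hsw1 true E1 F hFd hQ1 ω
    have b3 : K (swp Q ω) = K ω := hKd _ _ fun b e he => swp_notMem Q ω (hQ2 e he) b
    have b4 : ∀ p ∈ O, VV w p (swp Q ω) = VV w p ω := by
      intro p hp
      unfold VV
      rcases hQ3 p hp with ⟨h1, h2⟩ | h1
      · rw [hsw1 false (wed p) (w false p) (hwdep false p) h1,
          hsw1 true (wed p) (w true p) (hwdep true p) h1, hDW p h2]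
        simp only [Bool.not_false, Bool.not_true]
        ring
      · rw [hsw2 false (wed p) (w false p) (hwdep false p) h1,
          hsw2 true (wed p) (w true p) (hwdep true p) h1]
    have b5 : ∀ s ∈ core sed SS (TT wed E1 E2 O), RR r s (swp Q ω) = RR r s ω := by
      intro s hs
      unfold RR
      rcases hQ4 s hs with ⟨h1, h2⟩ | h1
      · rw [hsw1 false (sed s) (r false s) (hdep false s) h1,
          hsw1 true (sed s) (r true s) (hdep true s) h1, hDS s h2]
        simp only [Bool.not_false, Bool.not_true]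
        ring
      · rw [hsw2 false (sed s) (r false s) (hdep false s) h1,
          hsw2 true (sed s) (r true s) (hdep true s) h1]
    simp only [hg, hf]
    rw [b1, b2, b3, Finset.prod_congr rfl b4, Finset.prod_congr rfl b5]
    ring
  have h0 := integral_swp μ Q g hgm
  simp only [hanti] at h0
  rw [integral_neg] at h0
  have h1 : ∫ ω, g ω ∂(infinitePi fun _ : Bool × L => μ) = 0 := by linarith
  rw [h1, mul_zero]

omit [DecidableEq L] [DecidableEq S] [MeasurableSpace G] in
lemma sum_super (WW : Finset W) (v : W → ℝ) {η : ℝ} (hη : 0 ≤ η) (hv0 : ∀ p, 0 ≤ v p)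
    (hv : ∀ p, v p ≤ η) (O₀ : Finset W) :
    ∑ O ∈ WW.powerset, (if O₀ ⊆ O then ∏ p ∈ O, v p else 0) ≤
      η ^ O₀.card * ∏ p ∈ WW, (1 + v p) := by
  have hpos : ∀ A : Finset W, 0 ≤ ∏ p ∈ A, (1 + v p) := fun A =>
    Finset.prod_nonneg fun p _ => by linarith [hv0 p]
  by_cases h : O₀ ⊆ WW
  · rw [← Finset.sum_filter]
    have h1 : ∑ O ∈ WW.powerset.filter (fun O => O₀ ⊆ O), ∏ p ∈ O, v p =
        ∑ O ∈ (WW \ O₀).powerset, (∏ p ∈ O, v p) * ∏ p ∈ O₀, v p := by
      refine Finset.sum_nbij' (fun O => O \ O₀) (fun O => O ∪ O₀) ?_ ?_ ?_ ?_ ?_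
      · intro O hO
        rw [Finset.mem_filter, Finset.mem_powerset] at hO
        rw [Finset.mem_powerset]
        exact Finset.sdiff_subset_sdiff hO.1 (Finset.Subset.refl _)
      · intro O hO
        rw [Finset.mem_powerset] at hO
        rw [Finset.mem_filter, Finset.mem_powerset]
        exact ⟨Finset.union_subset (hO.trans Finset.sdiff_subset) h, Finset.subset_union_right⟩
      · intro O hO
        rw [Finset.mem_filter, Finset.mem_powerset] at hO
        exact Finset.sdiff_union_of_subset hO.2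
      · intro O hO
        rw [Finset.mem_powerset] at hO
        show (O ∪ O₀) \ O₀ = O
        rw [Finset.union_sdiff_right]
        exact Finset.sdiff_eq_self_of_disjoint
          (Finset.disjoint_of_subset_left hO Finset.sdiff_disjoint)
      · intro O hO
        rw [Finset.mem_filter, Finset.mem_powerset] at hO
        exact (Finset.prod_sdiff hO.2).symm
    rw [h1, ← Finset.sum_mul, ← Finset.prod_one_add]
    have h2 : ∏ p ∈ O₀, v p ≤ η ^ O₀.card := by
      calc ∏ p ∈ O₀, v p ≤ ∏ _p ∈ O₀, η :=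
            Finset.prod_le_prod (fun p _ => hv0 p) fun p _ => hv p
        _ = η ^ O₀.card := Finset.prod_const _
    have h3 : 1 ≤ ∏ p ∈ O₀, (1 + v p) := by
      calc (1 : ℝ) = ∏ _p ∈ O₀, (1 : ℝ) := by simp
        _ ≤ _ := Finset.prod_le_prod (fun _ _ => zero_le_one) fun p _ => by linarith [hv0 p]
    rw [← Finset.prod_sdiff h (f := fun p => 1 + v p)]
    calc (∏ p ∈ WW \ O₀, (1 + v p)) * ∏ p ∈ O₀, v p
        ≤ (∏ p ∈ WW \ O₀, (1 + v p)) * (η ^ O₀.card * ∏ p ∈ O₀, (1 + v p)) := by
          refine mul_le_mul_of_nonneg_left ?_ (hpos _)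
          calc ∏ p ∈ O₀, v p ≤ η ^ O₀.card := h2
            _ = η ^ O₀.card * 1 := (mul_one _).symm
            _ ≤ _ := mul_le_mul_of_nonneg_left h3 (by positivity)
      _ = _ := by ring
  · have h1 : ∑ O ∈ WW.powerset, (if O₀ ⊆ O then ∏ p ∈ O, v p else 0) = 0 := by
      refine Finset.sum_eq_zero fun O hO => ?_
      rw [Finset.mem_powerset] at hO
      rw [if_neg fun h' => h (h'.trans hO)]
    rw [h1]
    exact mul_nonneg (by positivity) (hpos _)

omit [DecidableEq L] [DecidableEq S] [MeasurableSpace G] in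
lemma sum_bad (WW : Finset W) (v : W → ℝ) {η : ℝ} (hη : 0 ≤ η) (hv0 : ∀ p, 0 ≤ v p)
    (hv : ∀ p, v p ≤ η) (P : Finset W → Prop) [DecidablePred P] (FF : Finset (Finset W))
    (hFF : ∀ O ⊆ WW, P O → ∃ O₀ ∈ FF, O₀ ⊆ O) :
    ∑ O ∈ WW.powerset, (if P O then ∏ p ∈ O, v p else 0) ≤
      (∑ O₀ ∈ FF, η ^ O₀.card) * ∏ p ∈ WW, (1 + v p) := by
  have hpos : ∀ A : Finset W, 0 ≤ ∏ p ∈ A, v p := fun A => Finset.prod_nonneg fun p _ => hv0 p
  calc ∑ O ∈ WW.powerset, (if P O then ∏ p ∈ O, v p else 0)
      ≤ ∑ O ∈ WW.powerset, ∑ O₀ ∈ FF, (if O₀ ⊆ O then ∏ p ∈ O, v p else 0) := by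
        refine Finset.sum_le_sum fun O hO => ?_
        rw [Finset.mem_powerset] at hO
        split_ifs with hP
        · obtain ⟨O₀, h1, h2⟩ := hFF O hO hP
          calc ∏ p ∈ O, v p = (if O₀ ⊆ O then ∏ p ∈ O, v p else 0) := by rw [if_pos h2]
            _ ≤ _ := Finset.single_le_sum (f := fun O₀ => if O₀ ⊆ O then ∏ p ∈ O, v p else 0)
                (fun O₁ _ => by
                  split_ifs
                  · exact hpos _
                  · exact le_refl _) h1
        · refine Finset.sum_nonneg fun O₁ _ => ?_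
          split_ifs
          · exact hpos _
          · exact le_refl _
    _ = ∑ O₀ ∈ FF, ∑ O ∈ WW.powerset, (if O₀ ⊆ O then ∏ p ∈ O, v p else 0) :=
        Finset.sum_comm
    _ ≤ ∑ O₀ ∈ FF, η ^ O₀.card * ∏ p ∈ WW, (1 + v p) :=
        Finset.sum_le_sum fun O₀ _ => sum_super WW v hη hv0 hv O₀
    _ = _ := by rw [Finset.sum_mul]

theorem main_abs (hrm : ∀ b s, Measurable (r b s)) (hrb : ∀ b s, Bd (r b s))
    (hdep : ∀ b s, Dep (sed s : Set L) (r b s)) (hwm : ∀ b p, Measurable (w b p))
    (hwb : ∀ b p, Bd (w b p)) (hwdep : ∀ b p, Dep (wed p : Set L) (w b p)) (SS : Finset S)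
    (c : Bool → S → ℝ)
    (hc : ∀ b, ∀ s ∈ SS, ∀ e ∈ sed s, ∀ U : L → G,
      ∫ x, r b s (Function.update U e x) ∂μ = c b s)
    (hr0 : ∀ b s U, 0 ≤ r b s U) {η : ℝ} (hη : 0 ≤ η)
    (hV : ∀ p ω, 0 ≤ VV w p ω ∧ VV w p ω ≤ η)
    {DS : Set S} {DW : Set W} (hDS : ∀ s, s ∉ DS → r false s = r true s)
    (hDW : ∀ p, p ∉ DW → w false p = w true p) {E1 E2 : Finset L}
    (F : (L → G) → ℝ) (hFm : Measurable F) (hFd : Dep (E1 : Set L) F)
    {KF : ℝ} (hF : ∀ U, |F U| ≤ KF)
    (K : (Bool × L → G) → ℝ) (hKm : Measurable K) {KK : ℝ} (hK : ∀ ω, |K ω| ≤ KK)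
    (hKd : ∀ ω ω' : Bool × L → G, (∀ b, ∀ e ∈ E2, ω (b, e) = ω' (b, e)) → K ω = K ω')
    (WW : Finset W) (FF : Finset (Finset W))
    (hFF : ∀ O ⊆ WW, ¬ Sep sed wed SS DS DW E1 E2 O → ∃ O₀ ∈ FF, O₀ ⊆ O) :
    |∫ ω, ((F (cp false ω) - F (cp true ω)) * K ω * ∏ p ∈ WW, (1 + VV w p ω)) *
      ∏ s ∈ SS, RR r s ω ∂(infinitePi fun _ : Bool × L => μ)| ≤
    2 * KF * KK * (∑ O₀ ∈ FF, η ^ O₀.card) *
      ∫ ω, (∏ p ∈ WW, (1 + VV w p ω)) * ∏ s ∈ SS, RR r s ω
        ∂(infinitePi fun _ : Bool × L => μ) := by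
  classical
  have hVm : ∀ p, Measurable (VV w p) := fun p =>
    (((hwm false p).comp (measurable_cp false)).mul
      ((hwm true p).comp (measurable_cp true))).sub_const 1
  have hVb : ∀ p, Bd (VV w p) := fun p =>
    (((hwb false p).comp (cp false)).mul ((hwb true p).comp (cp true))).sub (Bd.const 1)
  have hRm : ∀ t, Measurable (RR r t) := fun t =>
    ((hrm false t).comp (measurable_cp false)).mul ((hrm true t).comp (measurable_cp true))
  have hRb : ∀ t, Bd (RR r t) := fun t =>
    ((hrb false t).comp (cp false)).mul ((hrb true t).comp (cp true))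
  have hR0 : ∀ t ω, 0 ≤ RR r t ω := fun t ω => mul_nonneg (hr0 _ _ _) (hr0 _ _ _)
  have hFm' : Measurable fun ω : Bool × L → G => F (cp false ω) - F (cp true ω) :=
    (hFm.comp (measurable_cp false)).sub (hFm.comp (measurable_cp true))
  have hFb : Bd F := ⟨KF, hF⟩
  have hKb : Bd K := ⟨KK, hK⟩
  set P := (infinitePi fun _ : Bool × L => μ : Measure (Bool × L → G)) with hP
  -- the integrands
  set f : Finset W → (Bool × L → G) → ℝ := fun O ω =>
    ((F (cp false ω) - F (cp true ω)) * K ω * ∏ p ∈ O, VV w p ω) * ∏ s ∈ SS, RR r s ω with hf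
  have hfm : ∀ O, Measurable (f O) := fun O =>
    ((hFm'.mul hKm).mul (Finset.measurable_prod _ fun p _ => hVm p)).mul
      (Finset.measurable_prod _ fun p _ => hRm p)
  have hfb : ∀ O, Bd (f O) := fun O =>
    ((((hFb.comp _).sub (hFb.comp _)).mul hKb).mul (Bd.prod _ fun p _ => hVb p)).mul
      (Bd.prod _ fun p _ => hRb p)
  have hfi : ∀ O, Integrable (f O) P := fun O => (hfb O).integrable (hfm O)
  set g : Finset W → (Bool × L → G) → ℝ := fun O ω =>
    (∏ p ∈ O, VV w p ω) * ∏ s ∈ SS, RR r s ω with hg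
  have hgi : ∀ O, Integrable (g O) P := fun O =>
    ((Bd.prod _ fun p _ => hVb p).mul (Bd.prod _ fun p _ => hRb p)).integrable
      ((Finset.measurable_prod _ fun p _ => hVm p).mul (Finset.measurable_prod _ fun p _ => hRm p))
  have hexp : ∀ ω, ((F (cp false ω) - F (cp true ω)) * K ω * ∏ p ∈ WW, (1 + VV w p ω)) *
      ∏ s ∈ SS, RR r s ω = ∑ O ∈ WW.powerset, f O ω := by
    intro ω
    simp only [hf]
    rw [Finset.prod_one_add, Finset.mul_sum, Finset.sum_mul]
  have hKF : 0 ≤ KF := (abs_nonneg _).trans (hF (Classical.choice ⟨fun _ => Classical.choice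
    (MeasureTheory.nonempty_of_isProbabilityMeasure μ)⟩))
  have hKK : 0 ≤ KK := (abs_nonneg _).trans (hK (Classical.choice ⟨fun _ => Classical.choice
    (MeasureTheory.nonempty_of_isProbabilityMeasure μ)⟩))
  have hfg : ∀ O ω, |f O ω| ≤ 2 * KF * KK * g O ω := by
    intro O ω
    simp only [hf, hg]
    rw [abs_mul, abs_mul, abs_mul,
      abs_of_nonneg (Finset.prod_nonneg fun p _ => (hV p ω).1),
      abs_of_nonneg (Finset.prod_nonneg fun s _ => hR0 s ω)]
    have h1 : |F (cp false ω) - F (cp true ω)| ≤ 2 * KF := by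
      have := (abs_sub (F (cp false ω)) (F (cp true ω))).trans (add_le_add (hF _) (hF _))
      linarith
    have h2 : |F (cp false ω) - F (cp true ω)| * |K ω| ≤ 2 * KF * KK :=
      mul_le_mul h1 (hK ω) (abs_nonneg _) (by linarith)
    have h3 : 0 ≤ (∏ p ∈ O, VV w p ω) * ∏ s ∈ SS, RR r s ω :=
      mul_nonneg (Finset.prod_nonneg fun p _ => (hV p ω).1)
        (Finset.prod_nonneg fun s _ => hR0 s ω)
    calc _ = (|F (cp false ω) - F (cp true ω)| * |K ω|) *
        ((∏ p ∈ O, VV w p ω) * ∏ s ∈ SS, RR r s ω) := by ring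
      _ ≤ _ := mul_le_mul_of_nonneg_right h2 h3
  have hite : ∀ O, Integrable
      (fun ω => if ¬ Sep sed wed SS DS DW E1 E2 O then g O ω else 0) P := by
    intro O
    by_cases hs : Sep sed wed SS DS DW E1 E2 O
    · simp only [hs, not_true_eq_false, if_false]
      exact integrable_zero _ _ _
    · simp only [hs, not_false_eq_true, if_true]
      exact hgi O
  simp only [hexp]
  rw [integral_finsetSum _ fun O _ => hfi O]
  calc |∑ O ∈ WW.powerset, ∫ ω, f O ω ∂P|
      ≤ ∑ O ∈ WW.powerset, |∫ ω, f O ω ∂P| := Finset.abs_sum_le_sum_abs _ _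
    _ ≤ ∑ O ∈ WW.powerset, (if ¬ Sep sed wed SS DS DW E1 E2 O then
          2 * KF * KK * ∫ ω, g O ω ∂P else 0) := by
        refine Finset.sum_le_sum fun O _ => ?_
        by_cases hs : Sep sed wed SS DS DW E1 E2 O
        swap
        · rw [if_pos hs, ← integral_const_mul]
          refine (abs_integral_le_integral_abs).trans ?_
          exact integral_mono (hfi O).abs ((hgi O).const_mul _) fun ω => hfg O ω
        · rw [if_neg (not_not.2 hs)]
          have h0 := vanish μ hrm hrb hdep hwm hwb hwdep SS c hc hDS hDW F hFm hFb hFd K hKm hKb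
            hKd hs
          have h0' : ∫ ω, f O ω ∂P = 0 := h0
          rw [h0', abs_zero]
    _ = 2 * KF * KK * ∫ ω, ∑ O ∈ WW.powerset,
          (if ¬ Sep sed wed SS DS DW E1 E2 O then g O ω else 0) ∂P := by
        rw [integral_finsetSum _ fun O _ => hite O]
        rw [Finset.mul_sum]
        refine Finset.sum_congr rfl fun O _ => ?_
        split_ifs <;> simp
    _ ≤ 2 * KF * KK * ∫ ω, (∑ O₀ ∈ FF, η ^ O₀.card) *
          ((∏ p ∈ WW, (1 + VV w p ω)) * ∏ s ∈ SS, RR r s ω) ∂P := by
        refine mul_le_mul_of_nonneg_left ?_ (by positivity)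
        refine integral_mono ?_ ?_ fun ω => ?_
        · exact integrable_finsetSum _ fun O _ => hite O
        · refine Integrable.const_mul ?_ _
          exact ((Bd.prod _ fun p _ => (Bd.const 1).add (hVb p)).mul
            (Bd.prod _ fun p _ => hRb p)).integrable
            ((Finset.measurable_prod _ fun p _ => measurable_const.add (hVm p)).mul
              (Finset.measurable_prod _ fun p _ => hRm p))
        · have h1 := sum_bad WW (fun p => VV w p ω) hη (fun p => (hV p ω).1)
            (fun p => (hV p ω).2) (fun O => ¬ Sep sed wed SS DS DW E1 E2 O) FF hFF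
          have h2 : ∑ O ∈ WW.powerset, (if ¬ Sep sed wed SS DS DW E1 E2 O then g O ω else 0) =
              (∑ O ∈ WW.powerset, (if ¬ Sep sed wed SS DS DW E1 E2 O then
                ∏ p ∈ O, VV w p ω else 0)) * ∏ s ∈ SS, RR r s ω := by
            rw [Finset.sum_mul]
            refine Finset.sum_congr rfl fun O _ => ?_
            simp only [hg]
            split_ifs <;> simp
          simp only []
          rw [h2, ← mul_assoc]
          exact mul_le_mul_of_nonneg_right h1 (Finset.prod_nonneg fun s _ => hR0 s ω)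
    _ = _ := by
        rw [integral_const_mul]
        ring

end Expansion

end Pool.Agent.V11262.OP
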