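import Pool.Agent.V11262.OP.Geo

/-!
# Mass gap with two strong orthogonal planes: chains of clusters
-/

set_option autoImplicit false
set_option linter.unusedSectionVars false

noncomputable section

namespace Pool.Agent.V11262.OP

/-- nearest neighbours -/
def adj (a b : Site) : Prop := ∃ κ, b = a + uv κ ∨ a = b + uv κ

lemma adj_symm {a b : Site} (h : adj a b) : adj b a := by
  obtain ⟨κ, h | h⟩ := h
  · exact ⟨κ, Or.inr h⟩
  · exact ⟨κ, Or.inl h⟩

/-- one step inside `Q` -/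
def ins (Q : Finset Site) (u v : Site) : Prop := adj u v ∧ u ∈ Q ∧ v ∈ Q

/-- connected sets of sites -/
def Con (Q : Finset Site) : Prop := ∀ a ∈ Q, ∀ b ∈ Q, Relation.ReflTransGen (ins Q) a b

lemma ins_mono {Q Q' : Finset Site} (h : Q ⊆ Q') {a b : Site}
    (hab : Relation.ReflTransGen (ins Q) a b) : Relation.ReflTransGen (ins Q') a b := by
  induction hab with
  | refl => exact .refl
  | tail _ hxy ih => exact ih.tail ⟨hxy.1, h hxy.2.1, h hxy.2.2⟩

lemma Con_single (a : Site) : Con {a} := by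
  intro x hx y hy
  rw [Finset.mem_singleton] at hx hy
  subst hx; subst hy
  exact .refl

lemma Con_union {Q Q' : Finset Site} (h : Con Q) (h' : Con Q') {x : Site} (hx : x ∈ Q)
    (hx' : x ∈ Q') : Con (Q ∪ Q') := by
  have key : ∀ a ∈ Q ∪ Q', Relation.ReflTransGen (ins (Q ∪ Q')) a x ∧
      Relation.ReflTransGen (ins (Q ∪ Q')) x a := by
    intro a ha
    rcases Finset.mem_union.1 ha with h1 | h1
    · exact ⟨ins_mono Finset.subset_union_left (h a h1 x hx),
        ins_mono Finset.subset_union_left (h x hx a h1)⟩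
    · exact ⟨ins_mono Finset.subset_union_right (h' a h1 x hx'),
        ins_mono Finset.subset_union_right (h' x hx' a h1)⟩
  intro a ha b hb
  exact (key a ha).1.trans (key b hb).2

lemma Con_pair {a b : Site} (h : adj a b) : Con {a, b} := by
  have h1 : Relation.ReflTransGen (ins {a, b}) a b := .single ⟨h, by simp, by simp⟩
  have h2 : Relation.ReflTransGen (ins {a, b}) b a := .single ⟨adj_symm h, by simp, by simp⟩
  intro x hx y hy
  rw [Finset.mem_insert, Finset.mem_singleton] at hx hy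
  rcases hx with rfl | rfl <;> rcases hy with rfl | rfl
  · exact .refl
  · exact h1
  · exact h2
  · exact .refl

lemma Con_insert {Q : Finset Site} (h : Con Q) {a b : Site} (ha : a ∈ Q) (hab : adj a b) :
    Con (insert b Q) := by
  have h1 : insert b Q = Q ∪ {a, b} := by
    ext x
    simp only [Finset.mem_insert, Finset.mem_union, Finset.mem_singleton]
    constructor
    · rintro (h | h)
      · exact Or.inr (Or.inr h)
      · exact Or.inl h
    · rintro (h | h | h)
      · exact Or.inr h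
      · exact Or.inr (h ▸ ha)
      · exact Or.inl h
  rw [h1]
  exact Con_union h (Con_pair hab) ha (by simp)

/-- the sites of a set of links -/
def verts (c : Finset Link) : Finset Site := c.biUnion ends

lemma mem_verts {c : Finset Link} {v : Site} : v ∈ verts c ↔ ∃ e ∈ c, v ∈ ends e := by
  simp [verts]

lemma base_mem {c : Finset Link} {e : Link} (he : e ∈ c) : e.1 ∈ verts c :=
  mem_verts.2 ⟨e, he, mem_ends.2 (Or.inl rfl)⟩

lemma card_verts (c : Finset Link) : (verts c).card ≤ 2 * c.card := by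
  unfold verts
  rw [mul_comm]
  exact Finset.card_biUnion_le_card_mul _ _ 2 fun e _ => Finset.card_le_two

lemma Con_verts {T c : Finset Link} (hc : IsClu T c) : Con (verts c) := by
  have hends : ∀ e ∈ c, ∀ a ∈ ends e, ∀ b ∈ ends e,
      Relation.ReflTransGen (ins (verts c)) a b := by
    intro e he a ha b hb
    have h1 : Con (ends e) := by
      unfold ends
      exact Con_pair ⟨e.2, Or.inl rfl⟩
    refine ins_mono ?_ (h1 a ha b hb)
    intro v hv
    exact mem_verts.2 ⟨e, he, hv⟩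
  intro a ha b hb
  obtain ⟨e, he, hae⟩ := mem_verts.1 ha
  obtain ⟨f, hf, hbf⟩ := mem_verts.1 hb
  have hef : Relation.ReflTransGen (stp T) e f := by
    have := hf
    rw [hc.eq he, mem_clu] at this
    exact this.2
  clear hb ha
  induction hef generalizing b with
  | refl => exact hends e he a hae b hbf
  | @tail g f' hg hstep ih =>
    obtain ⟨hgT, _, v, hv1, hv2⟩ := hstep
    have hgc : g ∈ c := by
      rw [hc.eq he, mem_clu]
      exact ⟨hgT, hg⟩
    exact (ih v hgc hv1).trans (hends f' hf v hv2 b hbf)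

/-- a straight line -/
def strip (x : Site) (κ : Fin 4) (n : ℕ) : Finset Site :=
  (Finset.range (n + 1)).image fun t : ℕ => x + (t : ℤ) • uv κ

lemma mem_strip {x : Site} {κ : Fin 4} {n t : ℕ} (h : t ≤ n) :
    x + (t : ℤ) • uv κ ∈ strip x κ n :=
  Finset.mem_image.2 ⟨t, Finset.mem_range.2 (by omega), rfl⟩

lemma Con_strip (x : Site) (κ : Fin 4) (n : ℕ) : Con (strip x κ n) := by
  induction n with
  | zero =>
    have : strip x κ 0 = {x + ((0 : ℕ) : ℤ) • uv κ} := by
      unfold strip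
      rw [zero_add, Finset.range_one, Finset.image_singleton]
    rw [this]
    exact Con_single _
  | succ n ih =>
    have h1 : strip x κ (n + 1) = insert (x + ((n + 1 : ℕ) : ℤ) • uv κ) (strip x κ n) := by
      unfold strip
      rw [Finset.range_add_one, Finset.image_insert]
    rw [h1]
    refine Con_insert ih (mem_strip le_rfl) ⟨κ, Or.inl ?_⟩
    push_cast
    rw [add_smul, one_smul, add_assoc]

lemma card_strip (x : Site) (κ : Fin 4) (n : ℕ) : (strip x κ n).card ≤ n + 1 := by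
  unfold strip
  exact Finset.card_image_le.trans (by simp)

/-- the link `g` belongs to the cluster `c` or to a plaquette filled by it -/
def inH (R : ℤ) (c : Finset Link) (g : Link) : Prop := g ∈ c ∨ ∃ s, Fil R c s ∧ g ∈ sed s

lemma reach_s {R : ℤ} {T c : Finset Link} (hc : IsClu T c) {s : SP} (hs : Fil R c s) :
    ∃ Q : Finset Site, Con Q ∧ s.1 ∈ Q ∧ (∀ g ∈ sed s, g.1 ∈ Q) ∧ (∃ v ∈ Q, v ∈ verts c) ∧
      Q.card ≤ 3 * c.card := by
  obtain ⟨x, b⟩ := s
  obtain ⟨t, ht, hmem⟩ := fil_reach hs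
  have hx : x ∈ strip x (mu b) (t + 1) := by
    have := mem_strip (x := x) (κ := mu b) (n := t + 1) (t := 0) (by omega)
    simpa using this
  have hx1 : x + uv (mu b) ∈ strip x (mu b) (t + 1) := by
    have := mem_strip (x := x) (κ := mu b) (n := t + 1) (t := 1) (by omega)
    simpa using this
  refine ⟨insert (x + uv (nu b)) (strip x (mu b) (t + 1)), ?_, ?_, ?_, ?_, ?_⟩
  · exact Con_insert (Con_strip _ _ _) hx ⟨nu b, Or.inl rfl⟩
  · exact Finset.mem_insert_of_mem hx
  · intro g hg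
    simp only [sed, mem_ped] at hg
    rcases hg with rfl | rfl | rfl | rfl
    · exact Finset.mem_insert_of_mem hx
    · exact Finset.mem_insert_of_mem hx1
    · exact Finset.mem_insert_self _ _
    · exact Finset.mem_insert_of_mem hx
  · exact ⟨_, Finset.mem_insert_of_mem (mem_strip (t := t + 1) le_rfl), base_mem hmem⟩
  · have h1 := card_strip x (mu b) (t + 1)
    have h2 := Finset.card_insert_le (x + uv (nu b)) (strip x (mu b) (t + 1))
    have h3 := hc.pos
    omega

lemma reach {R : ℤ} {T c : Finset Link} (hc : IsClu T c) {g : Link} (hg : inH R c g) :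
    ∃ Q : Finset Site, Con Q ∧ g.1 ∈ Q ∧ (∃ v ∈ Q, v ∈ verts c) ∧ Q.card ≤ 3 * c.card := by
  rcases hg with hg | ⟨s, hs, hg⟩
  · refine ⟨{g.1}, Con_single _, by simp, ⟨g.1, by simp, base_mem hg⟩, ?_⟩
    have := hc.pos
    rw [Finset.card_singleton]
    omega
  · obtain ⟨Q, h1, _, h2, h3, h4⟩ := reach_s hc hs
    exact ⟨Q, h1, h2 g hg, h3, h4⟩

/-- the graph of clusters -/
def CG (R : ℤ) (T : Finset Link) : SimpleGraph (Finset Link) where
  Adj c c' := c ≠ c' ∧ IsClu T c ∧ IsClu T c' ∧ ∃ g, inH R c g ∧ inH R c' g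
  symm := ⟨fun _ _ ⟨h1, h2, h3, g, h4, h5⟩ => ⟨h1.symm, h3, h2, g, h5, h4⟩⟩
  loopless := ⟨fun _ h => h.1 rfl⟩

theorem walk_con {R : ℤ} {T : Finset Link} {c₀ c₁ : Finset Link} (p : (CG R T).Walk c₀ c₁)
    (h0 : IsClu T c₀) : ∃ Q : Finset Site, Con Q ∧ (∀ c ∈ p.support, verts c ⊆ Q) ∧
      Q.card + 3 * c₀.card ≤ (p.support.map fun c => 8 * c.card).sum := by
  induction p with
  | @nil u =>
    refine ⟨verts u, Con_verts h0, ?_, ?_⟩
    · intro c hc
      rw [SimpleGraph.Walk.support_nil, List.mem_singleton] at hc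
      rw [hc]
    · have := card_verts u
      simp only [SimpleGraph.Walk.support_nil, List.map_cons, List.map_nil, List.sum_cons,
        List.sum_nil]
      omega
  | @cons u v w h p ih =>
    obtain ⟨hne, hu, hv, g, hg1, hg2⟩ := id h
    obtain ⟨Q, hQ1, hQ2, hQ3⟩ := ih hv
    obtain ⟨A, hA1, hA2, ⟨a, ha1, ha2⟩, hA3⟩ := reach hu hg1
    obtain ⟨B, hB1, hB2, ⟨b, hb1, hb2⟩, hB3⟩ := reach hv hg2
    have hbQ : b ∈ Q := hQ2 v (SimpleGraph.Walk.start_mem_support p) hb2
    have h1 : Con (A ∪ B) := Con_union hA1 hB1 hA2 hB2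
    have h2 : Con (verts u ∪ (A ∪ B)) :=
      Con_union (Con_verts hu) h1 ha2 (Finset.mem_union_left _ ha1)
    have h3 : Con (verts u ∪ (A ∪ B) ∪ Q) :=
      Con_union h2 hQ1 (Finset.mem_union_right _ (Finset.mem_union_right _ hb1)) hbQ
    refine ⟨verts u ∪ (A ∪ B) ∪ Q, h3, ?_, ?_⟩
    · intro c hc
      rw [SimpleGraph.Walk.support_cons, List.mem_cons] at hc
      rcases hc with rfl | hc
      · exact Finset.subset_union_left.trans Finset.subset_union_left
      · exact (hQ2 c hc).trans Finset.subset_union_right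
    · have k1 := Finset.card_union_le (verts u ∪ (A ∪ B)) Q
      have k2 := Finset.card_union_le (verts u) (A ∪ B)
      have k3 := Finset.card_union_le A B
      have k4 := card_verts u
      rw [SimpleGraph.Walk.support_cons, List.map_cons, List.sum_cons]
      omega

lemma walk_clu {R : ℤ} {T : Finset Link} {c₀ c₁ : Finset Link} (p : (CG R T).Walk c₀ c₁)
    (h0 : IsClu T c₀) : ∀ c ∈ p.support, IsClu T c := by
  induction p with
  | @nil u =>
    intro c hc
    rw [SimpleGraph.Walk.support_nil, List.mem_singleton] at hc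
    rw [hc]
    exact h0
  | @cons u v w h p ih =>
    intro c hc
    rw [SimpleGraph.Walk.support_cons, List.mem_cons] at hc
    rcases hc with rfl | hc
    · exact h0
    · exact ih h.2.2.1 c hc

lemma plaq_sub {T c : Finset Link} (hc : IsClu T c) {x : Site} {i j : Fin 4}
    (hT : ped x i j ⊆ T) {g : Link} (hg : g ∈ ped x i j) (hgc : g ∈ c) : ped x i j ⊆ c := by
  have m1 : (x, i) ∈ ped x i j := mem_ped.2 (Or.inl rfl)
  have m2 : (x + uv i, j) ∈ ped x i j := mem_ped.2 (Or.inr (Or.inl rfl))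
  have m3 : (x + uv j, i) ∈ ped x i j := mem_ped.2 (Or.inr (Or.inr (Or.inl rfl)))
  have m4 : (x, j) ∈ ped x i j := mem_ped.2 (Or.inr (Or.inr (Or.inr rfl)))
  have t12 : tch (x, i) (x + uv i, j) :=
    ⟨x + uv i, mem_ends.2 (Or.inr rfl), mem_ends.2 (Or.inl rfl)⟩
  have t21 : tch (x + uv i, j) (x, i) :=
    ⟨x + uv i, mem_ends.2 (Or.inl rfl), mem_ends.2 (Or.inr rfl)⟩
  have t14 : tch (x, i) (x, j) := ⟨x, mem_ends.2 (Or.inl rfl), mem_ends.2 (Or.inl rfl)⟩
  have t41 : tch (x, j) (x, i) := ⟨x, mem_ends.2 (Or.inl rfl), mem_ends.2 (Or.inl rfl)⟩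
  have t34 : tch (x + uv j, i) (x, j) :=
    ⟨x + uv j, mem_ends.2 (Or.inl rfl), mem_ends.2 (Or.inr rfl)⟩
  have t43 : tch (x, j) (x + uv j, i) :=
    ⟨x + uv j, mem_ends.2 (Or.inr rfl), mem_ends.2 (Or.inl rfl)⟩
  have h1 : (x, i) ∈ c := by
    rcases mem_ped.1 hg with rfl | rfl | rfl | rfl
    · exact hgc
    · exact hc.tch hgc (hT m1) t21
    · exact hc.tch (hc.tch hgc (hT m4) t34) (hT m1) t41
    · exact hc.tch hgc (hT m1) t41
  have h4 : (x, j) ∈ c := hc.tch h1 (hT m4) t14
  intro f hf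
  rcases mem_ped.1 hf with rfl | rfl | rfl | rfl
  · exact h1
  · exact hc.tch h1 (hT m2) t12
  · exact hc.tch h4 (hT m3) t43
  · exact h4

lemma wed_sub_TT {E1 E2 : Finset Link} {O : Finset WP} {p : WP} (hp : p ∈ O) :
    wed p ⊆ TT wed E1 E2 O := fun g hg =>
  Finset.mem_union_right _ (Finset.mem_biUnion.2 ⟨p, hp, hg⟩)

/-- a cluster which can be reached from `E1` -/
def Rch (R : ℤ) (E1 E2 : Finset Link) (O : Finset WP) (c : Finset Link) : Prop :=
  IsClu (TT wed E1 E2 O) c ∧ ∃ e ∈ E1, (CG R (TT wed E1 E2 O)).Reachable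
    (clu (TT wed E1 E2 O) e) c

lemma Rch.step {R : ℤ} {E1 E2 : Finset Link} {O : Finset WP} {c c' : Finset Link}
    (h : Rch R E1 E2 O c) (hc' : IsClu (TT wed E1 E2 O) c') {g : Link} (hg : inH R c g)
    (hg' : inH R c' g) : Rch R E1 E2 O c' := by
  obtain ⟨hc, e, he, hr⟩ := h
  refine ⟨hc', e, he, ?_⟩
  by_cases hcc : c = c'
  · rw [← hcc]; exact hr
  · exact hr.trans (SimpleGraph.Adj.reachable (⟨hcc, hc, hc', g, hg, hg'⟩ : (CG R _).Adj c c'))

theorem build {R : ℤ} {E1 E2 : Finset Link} {O : Finset WP} {c : Finset Link}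
    (h : Rch R E1 E2 O c) : ∃ e ∈ E1, ∃ Q : Finset Site, Con Q ∧ e.1 ∈ Q ∧ verts c ⊆ Q ∧
      Q.card + 3 * c.card ≤
        11 * (4 * (O.filter fun p => p.1 ∈ Q).card + (E1.card + E2.card)) := by
  classical
  obtain ⟨hc, e, he, hr⟩ := h
  set T := TT wed E1 E2 O with hT
  have heT : e ∈ T := Finset.mem_union_left _ (Finset.mem_union_left _ he)
  have h0 : IsClu T (clu T e) := ⟨e, heT, rfl⟩
  obtain ⟨p, hp⟩ := hr.exists_isPath
  obtain ⟨Q, hQ1, hQ2, hQ3⟩ := walk_con p h0
  have hnd : p.support.Nodup := hp.support_nodup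
  have hclu := walk_clu p h0
  refine ⟨e, he, Q, hQ1, ?_, ?_, ?_⟩
  · exact hQ2 _ (SimpleGraph.Walk.start_mem_support p) (base_mem (self_clu heT))
  · exact hQ2 _ (SimpleGraph.Walk.end_mem_support p)
  · have h1 : (p.support.map fun c => 8 * c.card).sum =
        8 * (p.support.toFinset.biUnion id).card := by
      rw [Finset.card_biUnion, Finset.mul_sum, ← List.sum_toFinset _ hnd]
      · rfl
      · intro a ha b hb hab
        exact (hclu a (by simpa using ha)).disj (hclu b (by simpa using hb)) hab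
    have h2 : c.card ≤ (p.support.toFinset.biUnion id).card := by
      refine Finset.card_le_card ?_
      intro g hg
      exact Finset.mem_biUnion.2 ⟨c, by simp, hg⟩
    have h3 : p.support.toFinset.biUnion id ⊆
        E1 ∪ E2 ∪ (O.filter fun p => p.1 ∈ Q).biUnion wed := by
      intro g hg
      rw [Finset.mem_biUnion] at hg
      obtain ⟨c', hc', hgc'⟩ := hg
      rw [List.mem_toFinset] at hc'
      have hcc := hclu c' hc'
      have hgT : g ∈ T := hcc.sub hgc'
      rw [hT, TT, Finset.mem_union] at hgT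
      rcases hgT with hgT | hgT
      · exact Finset.mem_union_left _ hgT
      · rw [Finset.mem_biUnion] at hgT
        obtain ⟨q, hq, hgq⟩ := hgT
        refine Finset.mem_union_right _ (Finset.mem_biUnion.2 ⟨q, ?_, hgq⟩)
        rw [Finset.mem_filter]
        refine ⟨hq, hQ2 c' hc' ?_⟩
        have h4 := plaq_sub hcc (wed_sub_TT hq) hgq hgc'
        have h5 : (q.1, wi q.2.1) ∈ c' := h4 (mem_ped.2 (Or.inl rfl))
        exact base_mem h5
    have h4 := Finset.card_le_card h3
    have h5 : ((O.filter fun p => p.1 ∈ Q).biUnion wed).card ≤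
        (O.filter fun p => p.1 ∈ Q).card * 4 :=
      Finset.card_biUnion_le_card_mul _ _ 4 fun q _ => by
        unfold wed ped
        exact Finset.card_le_four
    have h6 := Finset.card_union_le (E1 ∪ E2) ((O.filter fun p => p.1 ∈ Q).biUnion wed)
    have h7 := Finset.card_union_le E1 E2
    rw [h1] at hQ3
    omega

theorem geo {R : ℤ} {DS : Set SP} {DW : Set WP} {E1 E2 : Finset Link} {O : Finset WP}
    (hns : ¬ Sep sed wed (SB R) DS DW E1 E2 O) :
    ∃ e ∈ E1, ∃ Q : Finset Site, Con Q ∧ e.1 ∈ Q ∧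
      Q.card ≤ 11 * (4 * (O.filter fun p => p.1 ∈ Q).card + (E1.card + E2.card)) ∧
      ((∃ f ∈ E2, f.1 ∈ Q) ∨ (∃ p ∈ DW, p.1 ∈ Q) ∨ ∃ s ∈ DS, s.1 ∈ Q) := by
  classical
  by_contra hcon
  apply hns
  set T := TT wed E1 E2 O with hT
  have hE1 : ∀ e ∈ E1, e ∈ T := fun e he => Finset.mem_union_left _ (Finset.mem_union_left _ he)
  have hE2 : ∀ e ∈ E2, e ∈ T := fun e he => Finset.mem_union_left _ (Finset.mem_union_right _ he)
  refine ⟨{g | ∃ c, Rch R E1 E2 O c ∧ inH R c g}, ?_, ?_, ?_, ?_⟩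
  · intro e he
    refine ⟨clu T e, ⟨⟨e, hE1 e he, rfl⟩, e, he, SimpleGraph.Reachable.refl _⟩, ?_⟩
    exact Or.inl (self_clu (hE1 e he))
  · rintro f hf ⟨c, hc, hcf⟩
    have hfT := hE2 f hf
    have h1 : IsClu T (clu T f) := ⟨f, hfT, rfl⟩
    have h2 := hc.step h1 hcf (Or.inl (self_clu hfT))
    obtain ⟨e, he, Q, hQ1, hQ2, hQ3, hQ4⟩ := build h2
    exact hcon ⟨e, he, Q, hQ1, hQ2, by omega,
      Or.inl ⟨f, hf, hQ3 (base_mem (self_clu hfT))⟩⟩
  · intro p hp
    by_cases hex : ∃ g ∈ wed p, ∃ c, Rch R E1 E2 O c ∧ inH R c g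
    · left
      obtain ⟨g, hg, c, hc, hcg⟩ := hex
      have hgT : g ∈ T := wed_sub_TT hp hg
      have h1 : IsClu T (clu T g) := ⟨g, hgT, rfl⟩
      have h2 := hc.step h1 hcg (Or.inl (self_clu hgT))
      have h3 := plaq_sub h1 (wed_sub_TT hp) hg (self_clu hgT)
      refine ⟨fun f hf => ⟨_, h2, Or.inl (h3 hf)⟩, ?_⟩
      intro hpD
      obtain ⟨e, he, Q, hQ1, hQ2, hQ3, hQ4⟩ := build h2
      have h5 : (p.1, wi p.2.1) ∈ clu T g := h3 (mem_ped.2 (Or.inl rfl))
      exact hcon ⟨e, he, Q, hQ1, hQ2, by omega, Or.inr (Or.inl ⟨p, hpD, hQ3 (base_mem h5)⟩)⟩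
    · right
      intro g hg hgS
      exact hex ⟨g, hg, hgS⟩
  · intro s hs
    by_cases hex : ∃ g ∈ sed s, ∃ c, Rch R E1 E2 O c ∧ inH R c g
    · left
      obtain ⟨g, hg, c, hc, hcg⟩ := hex
      obtain ⟨c', hc', hfil⟩ := exists_fil hs
      have h2 := hc.step hc' hcg (Or.inr ⟨s, hfil, hg⟩)
      refine ⟨fun f hf => ⟨c', h2, Or.inr ⟨s, hfil, hf⟩⟩, ?_⟩
      intro hsD
      obtain ⟨e, he, Q, hQ1, hQ2, hQ3, hQ4⟩ := build h2
      obtain ⟨A, hA1, hA2, _, ⟨v, hv1, hv2⟩, hA3⟩ := reach_s hc' hfil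
      have h4 : Con (Q ∪ A) := Con_union hQ1 hA1 (hQ3 hv2) hv1
      have h5 := Finset.card_union_le Q A
      have h6 : (O.filter fun p => p.1 ∈ Q).card ≤ (O.filter fun p => p.1 ∈ Q ∪ A).card := by
        refine Finset.card_le_card ?_
        intro p hp
        rw [Finset.mem_filter] at hp ⊢
        exact ⟨hp.1, Finset.mem_union_left _ hp.2⟩
      exact hcon ⟨e, he, Q ∪ A, h4, Finset.mem_union_left _ hQ2, by omega,
        Or.inr (Or.inr ⟨s, hsD, Finset.mem_union_right _ hA2⟩)⟩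
    · right
      intro g hg hgS
      exact hex ⟨g, hg, hgS⟩

end Pool.Agent.V11262.OP
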