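import Pool.Agent.V11262.OP.Chain

/-!
# Mass gap with two strong orthogonal planes: counting
-/

set_option autoImplicit false
set_option linter.unusedSectionVars false

noncomputable section

namespace Pool.Agent.V11262.OP

/-- the neighbours of a site -/
def nb (a : Site) : Finset Site :=
  (Finset.univ : Finset (Fin 4)).biUnion fun κ => {a + uv κ, a - uv κ}

lemma mem_nb {a b : Site} : b ∈ nb a ↔ adj a b := by
  unfold nb adj
  simp only [Finset.mem_biUnion, Finset.mem_univ, true_and, Finset.mem_insert,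
    Finset.mem_singleton]
  refine exists_congr fun κ => or_congr Iff.rfl ?_
  constructor
  · rintro rfl
    rw [sub_add_cancel]
  · rintro rfl
    rw [add_sub_cancel_right]

lemma card_nb (a : Site) : (nb a).card ≤ 8 := by
  unfold nb
  refine (Finset.card_biUnion_le_card_mul _ _ 2 fun κ _ => Finset.card_le_two).trans ?_
  simp

/-- the walks with `k` steps from `o`, without the first vertex -/
def walks : ℕ → Site → Finset (List Site)
  | 0, _ => {[]}
  | k + 1, o => (nb o).biUnion fun Q => (walks k Q).image fun l => Q :: l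

lemma card_walks (k : ℕ) (o : Site) : (walks k o).card ≤ 8 ^ k := by
  induction k generalizing o with
  | zero => simp [walks]
  | succ k ih =>
    rw [walks]
    refine le_trans (Finset.card_biUnion_le_card_mul _ _ (8 ^ k) ?_) ?_
    · intro Q _
      exact le_trans Finset.card_image_le (ih Q)
    · rw [pow_succ, mul_comm (8 ^ k)]
      exact Nat.mul_le_mul_right _ (card_nb o)

lemma mem_walks (l : List Site) (o : Site) (h : List.IsChain adj (o :: l)) :
    l ∈ walks l.length o := by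
  induction l generalizing o with
  | nil => simp [walks]
  | cons Q l ih =>
    rw [List.length_cons, walks]
    rw [List.isChain_cons_cons] at h
    simp only [Finset.mem_biUnion, Finset.mem_image]
    exact ⟨Q, mem_nb.2 h.1, l, ih Q h.2, rfl⟩

lemma exists_step {Γ S : Finset Site} {o Q : Site} (ho : o ∈ S) (hQ : Q ∉ S)
    (h : Relation.ReflTransGen (ins Γ) o Q) : ∃ P R, P ∈ S ∧ R ∉ S ∧ R ∈ Γ ∧ adj P R := by
  induction h with
  | refl => exact absurd ho hQ
  | tail _ hst ih =>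
    rename_i b c _
    by_cases hb : b ∈ S
    · exact ⟨b, c, hb, hQ, hst.2.2, hst.1⟩
    · exact ih hb

lemma insert_chain (s t : List Site) (P R : Site) (h : List.IsChain adj (s ++ P :: t))
    (hR : adj P R) : List.IsChain adj (s ++ P :: R :: P :: t) := by
  rw [List.isChain_append] at h ⊢
  refine ⟨h.1, ?_, ?_⟩
  · rw [List.isChain_cons_cons, List.isChain_cons_cons]
    exact ⟨hR, adj_symm hR, h.2.1⟩
  · intro x hx y hy
    exact h.2.2 x hx y (by simpa using hy)

lemma exists_walk {o : Site} {Γ : Finset Site} (ho : o ∈ Γ) (h : Con Γ) (k : ℕ)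
    (hk : k + 1 ≤ Γ.card) :
    ∃ l : List Site, List.IsChain adj (o :: l) ∧ (o :: l).toFinset ⊆ Γ ∧
      (o :: l).toFinset.card = k + 1 ∧ l.length = 2 * k := by
  induction k with
  | zero =>
    refine ⟨[], by simp, ?_, by simp, by simp⟩
    simpa using ho
  | succ k ih =>
    obtain ⟨l, h1, h2, h3, h4⟩ := ih (by omega)
    have hlt : (o :: l).toFinset.card < Γ.card := by omega
    obtain ⟨Q, hQ, hQn⟩ := Finset.exists_mem_notMem_of_card_lt_card hlt
    obtain ⟨P, R, hP, hR, hRΓ, hadj⟩ :=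
      exists_step (S := (o :: l).toFinset) (by simp) hQn (h o ho Q hQ)
    rw [List.mem_toFinset] at hP
    obtain ⟨s, t, hst⟩ := List.append_of_mem hP
    have h5 := insert_chain s t P R (hst ▸ h1) hadj
    obtain ⟨l', hl'⟩ : ∃ l', s ++ P :: R :: P :: t = o :: l' := by
      cases s with
      | nil =>
        have : o = P := by simpa using (List.cons_eq_cons.1 hst).1
        exact ⟨R :: P :: t, by rw [this]; rfl⟩
      | cons a s =>
        have : o = a := by simpa using (List.cons_eq_cons.1 hst).1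
        exact ⟨s ++ P :: R :: P :: t, by rw [this]; rfl⟩
    have hset : (o :: l').toFinset = insert R (o :: l).toFinset := by
      rw [← hl', hst]
      ext x
      simp only [List.mem_toFinset, List.mem_append, List.mem_cons, Finset.mem_insert]
      tauto
    refine ⟨l', hl' ▸ h5, ?_, ?_, ?_⟩
    · rw [hset]
      exact Finset.insert_subset hRΓ h2
    · rw [hset, Finset.card_insert_of_notMem hR, h3]
    · have e1 : (s ++ P :: R :: P :: t).length = (o :: l').length := by rw [hl']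
      have e2 : (o :: l).length = (s ++ P :: t).length := by rw [hst]
      simp only [List.length_append, List.length_cons] at e1 e2
      omega

/-- a finite set which contains all connected sets with `n + 1` elements through `o` -/
def ani (o : Site) (n : ℕ) : Finset (Finset Site) :=
  (walks (2 * n) o).image fun l => (o :: l).toFinset

lemma card_ani (o : Site) (n : ℕ) : (ani o n).card ≤ 8 ^ (2 * n) :=
  Finset.card_image_le.trans (card_walks _ _)

lemma mem_ani {o : Site} {n : ℕ} {Q : Finset Site} (ho : o ∈ Q) (h : Con Q)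
    (hn : Q.card = n + 1) : Q ∈ ani o n := by
  obtain ⟨l, h1, h2, h3, h4⟩ := exists_walk ho h n (by omega)
  unfold ani
  rw [Finset.mem_image]
  refine ⟨l, ?_, Finset.eq_of_subset_of_card_le h2 (by omega)⟩
  rw [← h4]
  exact mem_walks l o h1

/-- the distance `∑ |x_κ - y_κ|` -/
def dst (x y : Site) : ℕ := ∑ κ, (x κ - y κ).natAbs

lemma dst_self (x : Site) : dst x x = 0 := by simp [dst]

lemma dst_add_uv (x y : Site) (κ : Fin 4) : dst x (y + uv κ) ≤ dst x y + 1 := by
  unfold dst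
  have h1 : ∀ κ', (x κ' - (y + uv κ) κ').natAbs ≤ (x κ' - y κ').natAbs + (uv κ κ').natAbs := by
    intro κ'
    rw [Pi.add_apply]
    omega
  refine (Finset.sum_le_sum fun κ' _ => h1 κ').trans ?_
  rw [Finset.sum_add_distrib]
  refine Nat.add_le_add_left ?_ _
  rw [Finset.sum_eq_single κ]
  · simp [uv]
  · intro b _ hb
    simp [uv, Pi.single_eq_of_ne hb]
  · intro h
    exact absurd (Finset.mem_univ _) h

lemma dst_sub_uv (x y : Site) (κ : Fin 4) : dst x y ≤ dst x (y + uv κ) + 1 := by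
  unfold dst
  have h1 : ∀ κ', (x κ' - y κ').natAbs ≤ (x κ' - (y + uv κ) κ').natAbs + (uv κ κ').natAbs := by
    intro κ'
    rw [Pi.add_apply]
    omega
  refine (Finset.sum_le_sum fun κ' _ => h1 κ').trans ?_
  rw [Finset.sum_add_distrib]
  refine Nat.add_le_add_left ?_ _
  rw [Finset.sum_eq_single κ]
  · simp [uv]
  · intro b _ hb
    simp [uv, Pi.single_eq_of_ne hb]
  · intro h
    exact absurd (Finset.mem_univ _) h

lemma dst_adj {x a b : Site} (h : adj a b) : dst x b ≤ dst x a + 1 := by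
  obtain ⟨κ, rfl | rfl⟩ := h
  · exact dst_add_uv x a κ
  · exact dst_sub_uv x b κ

lemma card_of_dst {Q : Finset Site} (h : Con Q) {x y : Site} (hx : x ∈ Q) (hy : y ∈ Q) :
    dst x y + 1 ≤ Q.card := by
  have key : ∀ n ≤ dst x y, ∃ z ∈ Q, dst x z = n := by
    have h1 := h x hx y hy
    clear hy
    induction h1 with
    | refl =>
      intro n hn
      rw [dst_self] at hn
      exact ⟨x, hx, by rw [dst_self]; omega⟩
    | @tail b c _ hbc ih =>
      intro n hn
      by_cases hb : n ≤ dst x b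
      · exact ih n hb
      · have := dst_adj (x := x) hbc.1
        exact ⟨c, hbc.2.2, by omega⟩
  have key' : ∀ n : ℕ, ∃ z, n ≤ dst x y → z ∈ Q ∧ dst x z = n := by
    intro n
    by_cases hn : n ≤ dst x y
    · obtain ⟨z, hz⟩ := key n hn
      exact ⟨z, fun _ => hz⟩
    · exact ⟨x, fun h => absurd h hn⟩
  choose z hz using key'
  have := Finset.card_le_card_of_injOn (s := Finset.range (dst x y + 1)) (t := Q) z
    (by
      intro n hn
      exact (hz n (by simpa [Nat.lt_succ_iff] using hn)).1)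
    (by
      intro a ha b hb hab
      have h1 := (hz a (by simpa [Nat.lt_succ_iff] using ha)).2
      have h2 := (hz b (by simpa [Nat.lt_succ_iff] using hb)).2
      rw [← h1, ← h2, hab])
  simpa using this

lemma sum_cover {α β : Type} (A : Finset α) (B : Finset β) (f : α → ℝ) (hf : ∀ a, 0 ≤ f a)
    (P : α → β → Prop) [∀ a b, Decidable (P a b)] (h : ∀ a ∈ A, ∃ b ∈ B, P a b) :
    ∑ a ∈ A, f a ≤ ∑ b ∈ B, ∑ a ∈ A.filter (fun a => P a b), f a := by
  have h1 : ∀ b ∈ B, ∑ a ∈ A.filter (fun a => P a b), f a =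
      ∑ a ∈ A, if P a b then f a else 0 := fun b _ => Finset.sum_filter _ _
  rw [Finset.sum_congr rfl h1, Finset.sum_comm]
  refine Finset.sum_le_sum fun a ha => ?_
  obtain ⟨b, hb, hab⟩ := h a ha
  calc f a = (if P a b then f a else 0) := by rw [if_pos hab]
    _ ≤ _ := Finset.single_le_sum (f := fun b => if P a b then f a else 0) (fun b' _ => by
        split_ifs
        · exact hf a
        · exact le_refl _) hb

/-- the weak plaquettes with base point in `Q` -/
def wps (Q : Finset Site) : Finset WP := Q ×ˢ Finset.univ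

lemma card_wps (Q : Finset Site) : (wps Q).card = 4 * Q.card := by
  unfold wps
  rw [Finset.card_product, mul_comm]
  rfl

open Classical in
/-- the family of sets of weak plaquettes -/
def fam (WW : Finset WP) (E1 : Finset Link) (k D : ℕ) : Finset (Finset WP) :=
  WW.powerset.filter fun O₀ => ∃ e ∈ E1, ∃ Q : Finset Site, Con Q ∧ e.1 ∈ Q ∧
    D + 1 ≤ Q.card ∧ (∀ p ∈ O₀, p.1 ∈ Q) ∧ Q.card ≤ 11 * (4 * O₀.card + k)

theorem fam_sum (WW : Finset WP) (E1 : Finset Link) (k D : ℕ) {q : ℝ} (hq : 0 < q)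
    (hq1 : q ≤ 1) :
    ∑ O₀ ∈ fam WW E1 k D, ((q / 2048) ^ 44) ^ O₀.card ≤
      E1.card * ((q / 2048) ^ (11 * k))⁻¹ * q ^ D := by
  classical
  set r : ℝ := q / 2048 with hr
  have hr0 : 0 < r := by positivity
  have hr1 : r ≤ 1 := by rw [hr]; linarith
  set N : ℕ := 11 * (4 * WW.card + k) with hN
  -- the terms of one animal
  have hone : ∀ (n : ℕ) (Q : Finset Site) (A : Finset (Finset WP)),
      (∀ O₀ ∈ A, (∀ p ∈ O₀, p.1 ∈ Q) ∧ n + 1 ≤ 11 * (4 * O₀.card + k)) → Q.card ≤ n + 1 →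
      ∑ O₀ ∈ A, (r ^ 44) ^ O₀.card ≤ 16 ^ (n + 1) * (r ^ (n + 1) * (r ^ (11 * k))⁻¹) := by
    intro n Q A hA hQ
    have h1 : A.card ≤ 2 ^ (4 * (n + 1)) := by
      have h2 : A ⊆ (wps Q).powerset := by
        intro O₀ hO
        rw [Finset.mem_powerset]
        intro p hp
        exact Finset.mem_product.2 ⟨(hA O₀ hO).1 p hp, Finset.mem_univ _⟩
      have h3 := Finset.card_le_card h2
      rw [Finset.card_powerset, card_wps] at h3
      exact h3.trans (Nat.pow_le_pow_right (by norm_num) (by omega))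
    have h2 : ∀ O₀ ∈ A, (r ^ 44) ^ O₀.card ≤ r ^ (n + 1) * (r ^ (11 * k))⁻¹ := by
      intro O₀ hO
      rw [← div_eq_mul_inv, le_div_iff₀ (by positivity), ← pow_mul, ← pow_add]
      exact pow_le_pow_of_le_one hr0.le hr1 (by have := (hA O₀ hO).2; omega)
    calc ∑ O₀ ∈ A, (r ^ 44) ^ O₀.card ≤ ∑ _O₀ ∈ A, r ^ (n + 1) * (r ^ (11 * k))⁻¹ :=
          Finset.sum_le_sum h2
      _ = A.card * (r ^ (n + 1) * (r ^ (11 * k))⁻¹) := by rw [Finset.sum_const, nsmul_eq_mul]
      _ ≤ _ := by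
        refine mul_le_mul_of_nonneg_right ?_ (by positivity)
        have h3 : (2 : ℝ) ^ (4 * (n + 1)) = 16 ^ (n + 1) := by
          rw [pow_mul]; norm_num
        rw [← h3]
        exact_mod_cast h1
  have hnn : ∀ O₀ : Finset WP, 0 ≤ (r ^ 44) ^ O₀.card := fun O₀ => by positivity
  have hcov1 := sum_cover (fam WW E1 k D) E1 (fun O₀ => (r ^ 44) ^ O₀.card) hnn
    (fun O₀ e => ∃ Q : Finset Site, Con Q ∧ e.1 ∈ Q ∧
      D + 1 ≤ Q.card ∧ (∀ p ∈ O₀, p.1 ∈ Q) ∧ Q.card ≤ 11 * (4 * O₀.card + k))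
    (fun O₀ hO => by
      unfold fam at hO
      exact (Finset.mem_filter.1 hO).2)
  refine hcov1.trans ?_
  have hE : ∀ e ∈ E1, ∑ O₀ ∈ (fam WW E1 k D).filter (fun O₀ => ∃ Q : Finset Site, Con Q ∧
      e.1 ∈ Q ∧ D + 1 ≤ Q.card ∧ (∀ p ∈ O₀, p.1 ∈ Q) ∧ Q.card ≤ 11 * (4 * O₀.card + k)),
      (r ^ 44) ^ O₀.card ≤ (r ^ (11 * k))⁻¹ * q ^ D := by
    intro e he
    set A := (fam WW E1 k D).filter (fun O₀ => ∃ Q : Finset Site, Con Q ∧
      e.1 ∈ Q ∧ D + 1 ≤ Q.card ∧ (∀ p ∈ O₀, p.1 ∈ Q) ∧ Q.card ≤ 11 * (4 * O₀.card + k)) with hA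
    have hcov2 := sum_cover A (Finset.Ico D N) (fun O₀ => (r ^ 44) ^ O₀.card) hnn
      (fun O₀ n => ∃ Q ∈ ani e.1 n, (∀ p ∈ O₀, p.1 ∈ Q) ∧ n + 1 ≤ 11 * (4 * O₀.card + k) ∧
        Q.card ≤ n + 1)
      (fun O₀ hO => by
        rw [hA, Finset.mem_filter] at hO
        obtain ⟨hO1, Q, hQ1, hQ2, hQ3, hQ4, hQ5⟩ := hO
        unfold fam at hO1
        rw [Finset.mem_filter, Finset.mem_powerset] at hO1
        have h1 := Finset.card_le_card hO1.1
        refine ⟨Q.card - 1, Finset.mem_Ico.2 ⟨by omega, by omega⟩, Q, ?_, hQ4, by omega,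
          by omega⟩
        exact mem_ani hQ2 hQ1 (by omega))
    refine hcov2.trans ?_
    have hn : ∀ n ∈ Finset.Ico D N, ∑ O₀ ∈ A.filter (fun O₀ => ∃ Q ∈ ani e.1 n,
        (∀ p ∈ O₀, p.1 ∈ Q) ∧ n + 1 ≤ 11 * (4 * O₀.card + k) ∧ Q.card ≤ n + 1),
        (r ^ 44) ^ O₀.card ≤ (r ^ (11 * k))⁻¹ * q ^ D * (1 / 2) ^ (n + 1) := by
      intro n hn
      rw [Finset.mem_Ico] at hn
      have hcov3 := sum_cover (A.filter (fun O₀ => ∃ Q ∈ ani e.1 n,
        (∀ p ∈ O₀, p.1 ∈ Q) ∧ n + 1 ≤ 11 * (4 * O₀.card + k) ∧ Q.card ≤ n + 1)) (ani e.1 n)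
        (fun O₀ => (r ^ 44) ^ O₀.card) hnn
        (fun O₀ Q => (∀ p ∈ O₀, p.1 ∈ Q) ∧ n + 1 ≤ 11 * (4 * O₀.card + k) ∧ Q.card ≤ n + 1)
        (fun O₀ hO => (Finset.mem_filter.1 hO).2)
      refine hcov3.trans ?_
      calc _ ≤ ∑ _Q ∈ ani e.1 n, 16 ^ (n + 1) * (r ^ (n + 1) * (r ^ (11 * k))⁻¹) := by
            refine Finset.sum_le_sum fun Q hQ => ?_
            by_cases hQc : Q.card ≤ n + 1
            · refine hone n Q _ ?_ hQc
              intro O₀ hO
              rw [Finset.mem_filter] at hO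
              exact ⟨hO.2.1, hO.2.2.1⟩
            · rw [Finset.filter_false_of_mem fun O₀ _ h => hQc h.2.2, Finset.sum_empty]
              positivity
        _ = (ani e.1 n).card * (16 ^ (n + 1) * (r ^ (n + 1) * (r ^ (11 * k))⁻¹)) := by
            rw [Finset.sum_const, nsmul_eq_mul]
        _ ≤ 64 ^ (n + 1) * (16 ^ (n + 1) * (r ^ (n + 1) * (r ^ (11 * k))⁻¹)) := by
            refine mul_le_mul_of_nonneg_right ?_ (by positivity)
            have h1 : ((ani e.1 n).card : ℝ) ≤ 8 ^ (2 * n) := by exact_mod_cast card_ani _ _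
            have h2 : (8 : ℝ) ^ (2 * n) = 64 ^ n := by rw [pow_mul]; norm_num
            have h3 : (64 : ℝ) ^ n ≤ 64 ^ (n + 1) := pow_le_pow_right₀ (by norm_num) (by omega)
            linarith
        _ = (r ^ (11 * k))⁻¹ * (1024 * r) ^ (n + 1) := by
            rw [mul_pow, show (1024 : ℝ) = 64 * 16 by norm_num, mul_pow]
            ring
        _ = (r ^ (11 * k))⁻¹ * (q ^ (n + 1) * (1 / 2) ^ (n + 1)) := by
            rw [← mul_pow]
            congr 2
            rw [hr]
            ring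
        _ ≤ (r ^ (11 * k))⁻¹ * (q ^ D * (1 / 2) ^ (n + 1)) := by
            refine mul_le_mul_of_nonneg_left ?_ (by positivity)
            refine mul_le_mul_of_nonneg_right ?_ (by positivity)
            exact pow_le_pow_of_le_one hq.le hq1 (by omega)
        _ = _ := by ring
    refine (Finset.sum_le_sum hn).trans ?_
    rw [← Finset.mul_sum]
    have hgeo : ∑ n ∈ Finset.Ico D N, ((1 : ℝ) / 2) ^ (n + 1) ≤ 1 := by
      calc ∑ n ∈ Finset.Ico D N, ((1 : ℝ) / 2) ^ (n + 1)
          ≤ ∑ n ∈ Finset.range N, ((1 : ℝ) / 2) ^ (n + 1) := by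
            refine Finset.sum_le_sum_of_subset_of_nonneg ?_ fun _ _ _ => by positivity
            intro n hn
            rw [Finset.mem_Ico] at hn
            exact Finset.mem_range.2 hn.2
        _ = 1 - (1 / 2) ^ N := by
            have : ∀ M : ℕ, ∑ n ∈ Finset.range M, ((1 : ℝ) / 2) ^ (n + 1) = 1 - (1 / 2) ^ M := by
              intro M
              induction M with
              | zero => simp
              | succ M ih =>
                rw [Finset.sum_range_succ, ih, pow_succ]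
                ring
            exact this N
        _ ≤ 1 := by
            have : (0 : ℝ) ≤ (1 / 2) ^ N := by positivity
            linarith
    calc _ ≤ (r ^ (11 * k))⁻¹ * q ^ D * 1 := mul_le_mul_of_nonneg_left hgeo (by positivity)
      _ = _ := mul_one _
  calc _ ≤ ∑ _e ∈ E1, (r ^ (11 * k))⁻¹ * q ^ D := Finset.sum_le_sum hE
    _ = _ := by
      rw [Finset.sum_const, nsmul_eq_mul]
      ring

theorem fam_mem {R : ℤ} {DS : Set SP} {DW : Set WP} {E1 E2 : Finset Link} {D : ℕ}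
    (hE : ∀ e ∈ E1, ∀ f ∈ E2, D ≤ dst e.1 f.1) (hDW : ∀ e ∈ E1, ∀ p ∈ DW, D ≤ dst e.1 p.1)
    (hDS : ∀ e ∈ E1, ∀ s ∈ DS, D ≤ dst e.1 s.1) {WW O : Finset WP} (hO : O ⊆ WW)
    (hns : ¬ Sep sed wed (SB R) DS DW E1 E2 O) :
    ∃ O₀ ∈ fam WW E1 (E1.card + E2.card) D, O₀ ⊆ O := by
  classical
  obtain ⟨e, he, Q, hQ1, hQ2, hQ3, hQ4⟩ := geo hns
  have hD : D + 1 ≤ Q.card := by
    rcases hQ4 with ⟨f, hf, hfQ⟩ | ⟨p, hp, hpQ⟩ | ⟨s, hs, hsQ⟩
    · exact le_trans (Nat.succ_le_succ (hE e he f hf)) (card_of_dst hQ1 hQ2 hfQ)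
    · exact le_trans (Nat.succ_le_succ (hDW e he p hp)) (card_of_dst hQ1 hQ2 hpQ)
    · exact le_trans (Nat.succ_le_succ (hDS e he s hs)) (card_of_dst hQ1 hQ2 hsQ)
  refine ⟨O.filter fun p => p.1 ∈ Q, ?_, Finset.filter_subset _ _⟩
  unfold fam
  rw [Finset.mem_filter, Finset.mem_powerset]
  refine ⟨(Finset.filter_subset _ _).trans hO, e, he, Q, hQ1, hQ2, hD, ?_, hQ3⟩
  intro p hp
  exact (Finset.mem_filter.1 hp).2

end Pool.Agent.V11262.OP
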