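import Mathlib

/-!
# Mass gap with two strong orthogonal planes: resampling, swapping, elimination
-/

set_option autoImplicit false

noncomputable section

namespace Pool.Agent.V11262.OP

open MeasureTheory Measure

section Resample

variable {I G : Type} [DecidableEq I] [MeasurableSpace G] (μ : Measure G) [IsProbabilityMeasure μ]

/-- resampling one coordinate of the product measure -/
theorem resample_map (i : I) :
    (μ.prod (infinitePi fun _ : I => μ)).map (fun p => Function.update p.2 i p.1) =
      infinitePi fun _ : I => μ := by
  refine eq_infinitePi _ fun s t ht => ?_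
  have hm : Measurable (fun p : G × (I → G) => Function.update p.2 i p.1) := by
    rw [measurable_pi_iff]
    intro j
    by_cases h : j = i
    · subst h; simpa using measurable_fst
    · simp only [Function.update_of_ne h]
      exact (measurable_pi_apply j).comp measurable_snd
  rw [map_apply hm (.pi s.countable_toSet fun _ _ => ht _)]
  have hpre : (fun p : G × (I → G) => Function.update p.2 i p.1) ⁻¹' ((s : Set I).pi t) =
      (if i ∈ s then t i else Set.univ) ×ˢ (((s.erase i : Finset I) : Set I).pi t) := by
    ext p
    simp only [Set.mem_preimage, Set.mem_pi, Finset.mem_coe, Set.mem_prod, Finset.mem_erase]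
    constructor
    · intro h
      refine ⟨?_, ?_⟩
      · split_ifs with hi
        · simpa using h i hi
        · trivial
      · rintro j ⟨hj, hjs⟩
        simpa [Function.update_of_ne hj] using h j hjs
    · rintro ⟨h1, h2⟩ j hj
      by_cases hji : j = i
      · subst hji
        rw [if_pos hj] at h1
        simpa using h1
      · rw [Function.update_of_ne hji]
        exact h2 j ⟨hji, hj⟩
  rw [hpre, prod_prod, infinitePi_pi _ (fun j _ => ht j)]
  by_cases hi : i ∈ s
  · rw [if_pos hi, Finset.mul_prod_erase s (fun j => μ (t j)) hi]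
  · rw [if_neg hi, measure_univ, one_mul, Finset.erase_eq_of_notMem hi]

theorem measurable_upd (i : I) :
    Measurable (fun p : G × (I → G) => Function.update p.2 i p.1) := by
  rw [measurable_pi_iff]
  intro j
  by_cases h : j = i
  · subst h; simpa using measurable_fst
  · simp only [Function.update_of_ne h]
    exact (measurable_pi_apply j).comp measurable_snd

theorem integral_resample (i : I) (f : (I → G) → ℝ) (hf : Measurable f)
    {C : ℝ} (hC : ∀ ω, |f ω| ≤ C) :
    ∫ ω, f ω ∂(infinitePi fun _ : I => μ) =
      ∫ ω, ∫ x, f (Function.update ω i x) ∂μ ∂(infinitePi fun _ : I => μ) := by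
  conv_lhs => rw [← resample_map μ i]
  rw [integral_map (measurable_upd i).aemeasurable hf.aestronglyMeasurable]
  have hint : Integrable (fun p : G × (I → G) => f (Function.update p.2 i p.1))
      (μ.prod (infinitePi fun _ : I => μ)) :=
    Integrable.of_bound (hf.comp (measurable_upd i)).aestronglyMeasurable C
      (Filter.Eventually.of_forall fun p => by simpa using hC _)
  rw [integral_prod_symm _ hint]

/-- integrating out one coordinate -/
theorem elim1 (i : I) (f g : (I → G) → ℝ) (hf : Measurable f) (hg : Measurable g)
    {C D : ℝ} (hC : ∀ ω, |f ω| ≤ C) (hD : ∀ ω, |g ω| ≤ D)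
    (hfi : ∀ ω x, f (Function.update ω i x) = f ω) (c : ℝ)
    (hgc : ∀ ω, ∫ x, g (Function.update ω i x) ∂μ = c) :
    ∫ ω, f ω * g ω ∂(infinitePi fun _ : I => μ) =
      c * ∫ ω, f ω ∂(infinitePi fun _ : I => μ) := by
  have hCD : ∀ ω, |f ω * g ω| ≤ C * D := fun ω => by
    rw [abs_mul]
    exact mul_le_mul (hC ω) (hD ω) (abs_nonneg _) ((abs_nonneg _).trans (hC ω))
  rw [integral_resample μ i (fun ω => f ω * g ω) (hf.mul hg) hCD]
  rw [← integral_const_mul]
  congr 1
  funext ω
  simp only [hfi]
  rw [integral_const_mul, hgc, mul_comm]

end Resample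

section Copies

variable {L G : Type} [MeasurableSpace G] (μ : Measure G) [IsProbabilityMeasure μ]

/-- one of the two copies -/
def cp (b : Bool) (ω : Bool × L → G) : L → G := fun e => ω (b, e)

omit [MeasurableSpace G] in
@[simp] lemma cp_apply (b : Bool) (ω : Bool × L → G) (e : L) : cp b ω e = ω (b, e) := rfl

lemma measurable_cp (b : Bool) : Measurable (cp b : (Bool × L → G) → L → G) := by
  rw [measurable_pi_iff]
  intro e
  exact measurable_pi_apply _

/-- the copies are independent -/
theorem integral_copies (f g : (L → G) → ℝ) (hf : Measurable f) (hg : Measurable g) :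
    ∫ ω, f (cp false ω) * g (cp true ω) ∂(infinitePi fun _ : Bool × L => μ) =
      (∫ U, f U ∂(infinitePi fun _ : L => μ)) * ∫ U, g U ∂(infinitePi fun _ : L => μ) := by
  have h1 := infinitePi_map_curry (fun (_ : Bool) (_ : L) => μ)
  have hmc : Measurable (MeasurableEquiv.curry Bool L G) := MeasurableEquiv.measurable _
  have h2 : ∫ ω, f (cp false ω) * g (cp true ω) ∂(infinitePi fun _ : Bool × L => μ) =
      ∫ η : Bool → L → G, f (η false) * g (η true)
        ∂(infinitePi fun _ : Bool => infinitePi fun _ : L => μ) := by
    rw [← h1, integral_map hmc.aemeasurable]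
    · rfl
    · refine Measurable.aestronglyMeasurable ?_
      exact (hf.comp (measurable_pi_apply false)).mul (hg.comp (measurable_pi_apply true))
  rw [h2, infinitePi_eq_pi]
  have h3 := integral_fintype_prod_eq_prod (ι := Bool) (𝕜 := ℝ) (E := fun _ => L → G)
    (μ := fun _ => infinitePi fun _ : L => μ)
    (fun b => if b then g else f)
  simp only [Fintype.prod_bool] at h3
  simp only [if_true, Bool.false_eq_true, if_false] at h3
  rw [mul_comm (∫ U, f U ∂(infinitePi fun _ : L => μ)), ← h3]
  congr 1
  funext η
  rw [mul_comm]

open Classical in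
/-- exchange of the two copies on the set `S` -/
def swp (S : Set L) (ω : Bool × L → G) : Bool × L → G :=
  fun p => if p.2 ∈ S then ω (!p.1, p.2) else ω p

omit [MeasurableSpace G] in
lemma swp_mem (S : Set L) (ω : Bool × L → G) {e : L} (he : e ∈ S) (b : Bool) :
    swp S ω (b, e) = ω (!b, e) := by
  unfold swp; rw [if_pos he]

omit [MeasurableSpace G] in
lemma swp_notMem (S : Set L) (ω : Bool × L → G) {e : L} (he : e ∉ S) (b : Bool) :
    swp S ω (b, e) = ω (b, e) := by
  unfold swp; rw [if_neg he]

lemma measurable_swp (S : Set L) : Measurable (swp S : (Bool × L → G) → Bool × L → G) := by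
  rw [measurable_pi_iff]
  rintro ⟨b, e⟩
  by_cases h : e ∈ S
  · simp only [swp_mem S _ h]
    exact measurable_pi_apply _
  · simp only [swp_notMem S _ h]
    exact measurable_pi_apply _

open Classical in
/-- the exchange is a permutation of the coordinates -/
def swpPerm (S : Set L) : Bool × L ≃ Bool × L where
  toFun p := if p.2 ∈ S then (!p.1, p.2) else p
  invFun p := if p.2 ∈ S then (!p.1, p.2) else p
  left_inv p := by
    by_cases h : p.2 ∈ S
    · simp [h]
    · simp [h]
  right_inv p := by
    by_cases h : p.2 ∈ S
    · simp [h]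
    · simp [h]

open Classical in
theorem map_swp (S : Set L) :
    (infinitePi fun _ : Bool × L => μ).map (swp S) = infinitePi fun _ : Bool × L => μ := by
  have h := infinitePi_map_piCongrLeft (fun _ : Bool × L => μ) (swpPerm S)
  have he : (swp S : (Bool × L → G) → Bool × L → G) =
      (MeasurableEquiv.piCongrLeft (fun _ : Bool × L => G) (swpPerm S)) := by
    funext ω p
    have h1 : (MeasurableEquiv.piCongrLeft (fun _ : Bool × L => G) (swpPerm S)) ω p =
        ω ((swpPerm S).symm p) := by
      have := Equiv.piCongrLeft_apply_apply (fun _ : Bool × L => G) (swpPerm S) ω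
        ((swpPerm S).symm p)
      rw [Equiv.apply_symm_apply] at this
      exact this
    rw [h1]
    unfold swp swpPerm
    simp only [Equiv.symm]
    show _ = ω (if p.2 ∈ S then (!p.1, p.2) else p)
    split_ifs <;> rfl
  rw [he]
  exact h

theorem integral_swp (S : Set L) (f : (Bool × L → G) → ℝ) (hf : Measurable f) :
    ∫ ω, f (swp S ω) ∂(infinitePi fun _ : Bool × L => μ) =
      ∫ ω, f ω ∂(infinitePi fun _ : Bool × L => μ) := by
  conv_rhs => rw [← map_swp μ S]
  rw [integral_map (measurable_swp S).aemeasurable hf.aestronglyMeasurable]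

end Copies

end Pool.Agent.V11262.OP
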