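import Pool.Agent.V11262.OP.Count

/-!
# Mass gap with two strong orthogonal planes: lattice gauge theory
-/

set_option autoImplicit false
set_option linter.unusedSectionVars false

noncomputable section

namespace Pool.Agent.V11262.OP

open MeasureTheory Measure

/-- the plaquettes of `ℤ⁴` -/
abbrev Plaq : Type := {p : Site × Fin 4 × Fin 4 // p.2.1 < p.2.2}

/-- the plaquette variable -/
def hol {G : Type} [Group G] (U : Link → G) (p : Plaq) : G :=
  U (p.1.1, p.1.2.1) * U (p.1.1 + Pi.single p.1.2.1 1, p.1.2.2) *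
    (U (p.1.1 + Pi.single p.1.2.2 1, p.1.2.1))⁻¹ * (U (p.1.1, p.1.2.2))⁻¹

/-- strong plaquettes as plaquettes -/
def spq (s : SP) : Plaq := ⟨(s.1, mu s.2, nu s.2), by
  obtain ⟨x, b⟩ := s
  cases b <;> simp [mu, nu]⟩

/-- weak plaquettes as plaquettes -/
def wpq (q : WP) : Plaq := ⟨(q.1, wi q.2.1, wj q.2.2), by
  obtain ⟨x, b, b'⟩ := q
  cases b <;> cases b' <;> simp [wi, wj]⟩

lemma spq_inj : Function.Injective spq := by
  rintro ⟨x, b⟩ ⟨y, b'⟩ h
  have h1 := congrArg Subtype.val h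
  simp only [spq, Prod.mk.injEq] at h1
  rw [h1.1, mu_inj h1.2.1]

lemma wpq_inj : Function.Injective wpq := by
  rintro ⟨x, b, c⟩ ⟨y, b', c'⟩ h
  have h1 := congrArg Subtype.val h
  simp only [wpq, Prod.mk.injEq] at h1
  have h2 : b = b' := by
    have := h1.2.1
    revert this
    cases b <;> cases b' <;> simp [wi]
  have h3 : c = c' := by
    have := h1.2.2
    revert this
    cases c <;> cases c' <;> simp [wj]
  rw [h1.1, h2, h3]

/-- strong planes -/
def isStrong (p : Plaq) : Prop := (p.1.2.1 = 0 ∧ p.1.2.2 = 1) ∨ (p.1.2.1 = 2 ∧ p.1.2.2 = 3)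

lemma isStrong_iff (p : Plaq) : isStrong p ↔ ∃ s, spq s = p := by
  constructor
  · rintro (h | h)
    · exact ⟨(p.1.1, false), Subtype.ext (by
        simp only [spq, mu, nu]
        exact Prod.ext rfl (Prod.ext h.1.symm h.2.symm))⟩
    · exact ⟨(p.1.1, true), Subtype.ext (by
        simp only [spq, mu, nu]
        exact Prod.ext rfl (Prod.ext h.1.symm h.2.symm))⟩
  · rintro ⟨⟨x, b⟩, rfl⟩
    cases b
    · left; exact ⟨rfl, rfl⟩
    · right; exact ⟨rfl, rfl⟩

lemma not_isStrong_iff (p : Plaq) : ¬ isStrong p ↔ ∃ q, wpq q = p := by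
  obtain ⟨⟨x, i, j⟩, hij⟩ := p
  constructor
  · intro h
    simp only [isStrong] at h
    have key : ∀ i j : Fin 4, i < j → ¬ ((i = 0 ∧ j = 1) ∨ (i = 2 ∧ j = 3)) →
        ∃ b b' : Bool, wi b = i ∧ wj b' = j := by
      decide
    obtain ⟨b, b', h1, h2⟩ := key i j hij h
    exact ⟨(x, b, b'), Subtype.ext (by simp only [wpq, h1, h2])⟩
  · rintro ⟨⟨y, b, b'⟩, h⟩ hs
    have h1 := congrArg Subtype.val h
    simp only [wpq, Prod.mk.injEq] at h1
    simp only [isStrong] at hs
    rw [← h1.2.1, ← h1.2.2] at hs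
    revert hs
    cases b <;> cases b' <;> simp [wi, wj]

open Classical in
lemma prod_split (Λ : Finset Plaq) (SS : Finset SP) (WW : Finset WP)
    (hS : ∀ s, spq s ∈ Λ → s ∈ SS) (hW : ∀ q, wpq q ∈ Λ → q ∈ WW) (f : Plaq → ℝ) :
    ∏ p ∈ Λ, f p = (∏ s ∈ SS, if spq s ∈ Λ then f (spq s) else 1) *
      ∏ q ∈ WW, if wpq q ∈ Λ then f (wpq q) else 1 := by
  rw [← Finset.prod_filter_mul_prod_filter_not Λ isStrong]
  congr 1
  · rw [← Finset.prod_filter]
    symm
    refine Finset.prod_nbij spq ?_ ?_ ?_ ?_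
    · intro s hs
      rw [Finset.mem_filter] at hs ⊢
      exact ⟨hs.2, (isStrong_iff _).2 ⟨s, rfl⟩⟩
    · intro a _ b _ h
      exact spq_inj h
    · intro p hp
      rw [Finset.mem_coe, Finset.mem_filter] at hp
      obtain ⟨s, hs⟩ := (isStrong_iff p).1 hp.2
      refine ⟨s, ?_, hs⟩
      rw [Finset.mem_coe, Finset.mem_filter]
      rw [hs]
      exact ⟨hS s (hs ▸ hp.1), hp.1⟩
    · intro s _
      rfl
  · rw [← Finset.prod_filter]
    symm
    refine Finset.prod_nbij wpq ?_ ?_ ?_ ?_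
    · intro s hs
      rw [Finset.mem_filter] at hs ⊢
      exact ⟨hs.2, (not_isStrong_iff _).2 ⟨s, rfl⟩⟩
    · intro a _ b _ h
      exact wpq_inj h
    · intro p hp
      rw [Finset.mem_coe, Finset.mem_filter] at hp
      obtain ⟨s, hs⟩ := (not_isStrong_iff p).1 hp.2
      refine ⟨s, ?_, hs⟩
      rw [Finset.mem_coe, Finset.mem_filter]
      rw [hs]
      exact ⟨hW s (hs ▸ hp.1), hp.1⟩
    · intro s _
      rfl

lemma exists_R (Λ : Finset Plaq) : ∃ R : ℤ, ∀ p ∈ Λ, ∀ κ, -R ≤ p.1.1 κ ∧ p.1.1 κ < R := by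
  refine ⟨1 + ∑ p ∈ Λ, ∑ κ, |p.1.1 κ|, fun p hp κ => ?_⟩
  have h1 : |p.1.1 κ| ≤ ∑ κ, |p.1.1 κ| :=
    Finset.single_le_sum (f := fun κ => |p.1.1 κ|) (fun _ _ => abs_nonneg _) (Finset.mem_univ κ)
  have h2 : ∑ κ, |p.1.1 κ| ≤ ∑ p ∈ Λ, ∑ κ, |p.1.1 κ| :=
    Finset.single_le_sum (f := fun p : Plaq => ∑ κ, |p.1.1 κ|)
      (fun _ _ => Finset.sum_nonneg fun _ _ => abs_nonneg _) hp
  have h3 := neg_abs_le (p.1.1 κ)
  have h4 := le_abs_self (p.1.1 κ)
  omega

section Haar

variable {G : Type} [Group G] [TopologicalSpace G] [IsTopologicalGroup G] [CompactSpace G]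
  [MeasurableSpace G] [BorelSpace G] (σ : Measure G) [IsProbabilityMeasure σ] [σ.IsHaarMeasure]

lemma haar_right : σ.IsMulRightInvariant := by
  refine ⟨fun g => ?_⟩
  have hp : IsProbabilityMeasure (Measure.map (· * g) σ) :=
    Measure.isProbabilityMeasure_map (measurable_mul_const g).aemeasurable
  exact Measure.isHaarMeasure_eq_of_isProbabilityMeasure _ _

lemma haar_inv : σ.IsInvInvariant := by
  have hr := haar_right σ
  have hp : IsProbabilityMeasure σ.inv := by
    unfold Measure.inv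
    exact Measure.isProbabilityMeasure_map measurable_inv.aemeasurable
  refine ⟨?_⟩
  have h1 := Measure.isMulInvariant_eq_smul_of_compactSpace σ.inv σ
  have h2 := congrArg (fun ν : Measure G => ν Set.univ) h1
  simp only [Measure.smul_apply, measure_univ] at h2
  rw [ENNReal.smul_def, smul_eq_mul, mul_one] at h2
  have h3 : Measure.haarScalarFactor σ.inv σ = 1 := by exact_mod_cast h2.symm
  rw [h1, h3, one_smul]

lemma haar_int (f : G → ℝ) (a b : G) : ∫ x, f (a * x * b) ∂σ = ∫ x, f x ∂σ := by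
  have hr := haar_right σ
  have h1 := integral_mul_left_eq_self (μ := σ) (fun x => f (x * b)) a
  rw [h1]
  exact integral_mul_right_eq_self (μ := σ) f b

lemma haar_int_inv (f : G → ℝ) (a b : G) : ∫ x, f (a * x⁻¹ * b) ∂σ = ∫ x, f x ∂σ := by
  have hi := haar_inv σ
  have h1 := integral_inv_eq_self (μ := σ) (fun x => f (a * x * b))
  rw [h1]
  exact haar_int σ f a b

lemma add_uv_ne (x : Site) (κ : Fin 4) : x + uv κ ≠ x := by
  intro h
  have h1 := congrFun h κ
  simp [uv] at h1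

open Classical in
lemma hol_int (f : G → ℝ) (p : Plaq) (U : Link → G) {e : Link}
    (he : e ∈ ped p.1.1 p.1.2.1 p.1.2.2) :
    ∫ x, f (hol (Function.update U e x) p) ∂σ = ∫ x, f x ∂σ := by
  obtain ⟨⟨y, i, j⟩, hij⟩ := p
  simp only at he hij
  have hne : i ≠ j := ne_of_lt hij
  have d12 : ((y, i) : Link) ≠ (y + uv i, j) := fun h => hne (Prod.ext_iff.1 h).2
  have d13 : ((y, i) : Link) ≠ (y + uv j, i) := fun h => add_uv_ne y j (Prod.ext_iff.1 h).1.symm
  have d14 : ((y, i) : Link) ≠ (y, j) := fun h => hne (Prod.ext_iff.1 h).2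
  have d23 : ((y + uv i, j) : Link) ≠ (y + uv j, i) := fun h => hne (Prod.ext_iff.1 h).2.symm
  have d24 : ((y + uv i, j) : Link) ≠ (y, j) := fun h => add_uv_ne y i (Prod.ext_iff.1 h).1
  have d34 : ((y + uv j, i) : Link) ≠ (y, j) := fun h => hne (Prod.ext_iff.1 h).2
  have hh : ∀ V : Link → G, hol V ⟨(y, i, j), hij⟩ =
      V (y, i) * V (y + uv i, j) * (V (y + uv j, i))⁻¹ * (V (y, j))⁻¹ := fun V => rfl
  simp only [hh]
  rcases mem_ped.1 he with rfl | rfl | rfl | rfl
  · simp only [Function.update_self, Function.update_of_ne d12.symm,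
      Function.update_of_ne d13.symm, Function.update_of_ne d14.symm]
    have := haar_int σ f 1 (U (y + uv i, j) * (U (y + uv j, i))⁻¹ * (U (y, j))⁻¹)
    rw [← this]
    congr 1
    funext x
    congr 1
    group
  · simp only [Function.update_self, Function.update_of_ne d12,
      Function.update_of_ne d23.symm, Function.update_of_ne d24.symm]
    have := haar_int σ f (U (y, i)) ((U (y + uv j, i))⁻¹ * (U (y, j))⁻¹)
    rw [← this]
    congr 1
    funext x
    congr 1
    group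
  · simp only [Function.update_self, Function.update_of_ne d13,
      Function.update_of_ne d23, Function.update_of_ne d34.symm]
    have := haar_int_inv σ f (U (y, i) * U (y + uv i, j)) ((U (y, j))⁻¹)
    rw [← this]
  · simp only [Function.update_self, Function.update_of_ne d14,
      Function.update_of_ne d24, Function.update_of_ne d34]
    have := haar_int_inv σ f (U (y, i) * U (y + uv i, j) * (U (y + uv j, i))⁻¹) 1
    rw [← this]
    congr 1
    funext x
    congr 1
    group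

end Haar

lemma hol_dep {G : Type} [Group G] (f : G → ℝ) (p : Plaq) :
    Dep (ped p.1.1 p.1.2.1 p.1.2.2 : Set Link) fun U => f (hol U p) := by
  intro U V h
  have h1 := h (p.1.1, p.1.2.1) (by simp [ped])
  have h2 := h (p.1.1 + uv p.1.2.1, p.1.2.2) (by simp [ped])
  have h3 := h (p.1.1 + uv p.1.2.2, p.1.2.1) (by simp [ped])
  have h4 := h (p.1.1, p.1.2.2) (by simp [ped])
  simp only [hol]
  unfold uv at h2 h3
  rw [h1, h2, h3, h4]

section Main

variable {G : Type} [Group G] [TopologicalSpace G] [IsTopologicalGroup G] [CompactSpace G]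
  [SecondCountableTopology G] [MeasurableSpace G] [BorelSpace G] (σ : Measure G)
  [IsProbabilityMeasure σ] [σ.IsHaarMeasure]

lemma hol_meas (p : Plaq) : Measurable fun U : Link → G => hol U p := by
  have h : ∀ e : Link, Measurable fun U : Link → G => U e := fun e => measurable_pi_apply e
  unfold hol
  exact (((h _).mul (h _)).mul (h _).inv).mul (h _).inv

open Classical in
/-- strong weights of a copy -/
def rr (w : Plaq → G → ℝ) (Λ : Bool → Finset Plaq) (b : Bool) (s : SP) (U : Link → G) : ℝ :=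
  if spq s ∈ Λ b then w (spq s) (hol U (spq s)) else 1

open Classical in
/-- weak weights of a copy, normalised -/
def ww (ε : ℝ) (w : Plaq → G → ℝ) (Λ : Bool → Finset Plaq) (b : Bool) (q : WP) (U : Link → G) :
    ℝ :=
  if wpq q ∈ Λ b then w (wpq q) (hol U (wpq q)) / (w (wpq q) 1 / (1 + ε)) else 1

open Classical in
/-- the integrals of the strong weights -/
def cc (w : Plaq → G → ℝ) (Λ : Bool → Finset Plaq) (b : Bool) (s : SP) : ℝ :=
  if spq s ∈ Λ b then ∫ x, w (spq s) x ∂σ else 1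

variable {w : Plaq → G → ℝ}

lemma rr_meas (hwm : ∀ p, Measurable (w p)) (Λ : Bool → Finset Plaq) (b : Bool) (s : SP) :
    Measurable (rr w Λ b s) := by
  by_cases h : spq s ∈ Λ b
  · have : rr w Λ b s = fun U => w (spq s) (hol U (spq s)) := by
      funext U; unfold rr; rw [if_pos h]
    rw [this]
    exact (hwm _).comp (hol_meas _)
  · have : rr w Λ b s = fun _ => 1 := by
      funext U; unfold rr; rw [if_neg h]
    rw [this]
    exact measurable_const

lemma rr_bd (hwb : ∀ p, Bd (w p)) (Λ : Bool → Finset Plaq) (b : Bool) (s : SP) :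
    Bd (rr w Λ b s) := by
  by_cases h : spq s ∈ Λ b
  · have : rr w Λ b s = fun U => w (spq s) (hol U (spq s)) := by
      funext U; unfold rr; rw [if_pos h]
    rw [this]
    exact (hwb _).comp _
  · have : rr w Λ b s = fun _ => 1 := by
      funext U; unfold rr; rw [if_neg h]
    rw [this]
    exact Bd.const 1

lemma rr_dep (Λ : Bool → Finset Plaq) (b : Bool) (s : SP) :
    Dep (sed s : Set Link) (rr w Λ b s) := by
  intro U V hUV
  unfold rr
  split_ifs
  · exact hol_dep (w (spq s)) (spq s) U V hUV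
  · rfl

lemma rr_nonneg (hw0 : ∀ p g, 0 ≤ w p g) (Λ : Bool → Finset Plaq) (b : Bool) (s : SP)
    (U : Link → G) : 0 ≤ rr w Λ b s U := by
  unfold rr
  split_ifs
  · exact hw0 _ _
  · exact zero_le_one

lemma rr_int (Λ : Bool → Finset Plaq) (b : Bool) (s : SP) (e : Link) (he : e ∈ sed s)
    (U : Link → G) : ∫ x, rr w Λ b s (Function.update U e x) ∂σ = cc σ w Λ b s := by
  classical
  unfold rr cc
  split_ifs with h
  · have := hol_int σ (w (spq s)) (spq s) U he
    convert this using 5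
  · simp

variable {ε : ℝ}

lemma ww_meas (hwm : ∀ p, Measurable (w p)) (Λ : Bool → Finset Plaq) (b : Bool) (q : WP) :
    Measurable (ww ε w Λ b q) := by
  by_cases h : wpq q ∈ Λ b
  · have : ww ε w Λ b q = fun U => w (wpq q) (hol U (wpq q)) / (w (wpq q) 1 / (1 + ε)) := by
      funext U; unfold ww; rw [if_pos h]
    rw [this]
    exact ((hwm _).comp (hol_meas _)).div_const _
  · have : ww ε w Λ b q = fun _ => 1 := by
      funext U; unfold ww; rw [if_neg h]
    rw [this]
    exact measurable_const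

lemma ww_dep (Λ : Bool → Finset Plaq) (b : Bool) (q : WP) :
    Dep (wed q : Set Link) (ww ε w Λ b q) := by
  intro U V hUV
  unfold ww
  split_ifs
  · have := hol_dep (w (wpq q)) (wpq q) U V hUV
    simp only at this
    rw [this]
  · rfl

lemma ww_bounds (hε : 0 < ε)
    (hw : ∀ p, ¬ isStrong p → ∀ g h, 0 < w p g ∧ w p g ≤ (1 + ε) * w p h)
    (Λ : Bool → Finset Plaq) (b : Bool) (q : WP) (U : Link → G) :
    1 ≤ ww ε w Λ b q U ∧ ww ε w Λ b q U ≤ (1 + ε) ^ 2 := by
  have hns : ¬ isStrong (wpq q) := (not_isStrong_iff _).2 ⟨q, rfl⟩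
  unfold ww
  split_ifs
  · have h1 := hw _ hns (hol U (wpq q)) 1
    have h2 := hw _ hns 1 (hol U (wpq q))
    have h3 : 0 < w (wpq q) 1 / (1 + ε) := div_pos h2.1 (by linarith)
    constructor
    · rw [le_div_iff₀ h3, one_mul, div_le_iff₀ (by linarith)]
      linarith [h2.2]
    · rw [div_le_iff₀ h3]
      have h4 : (1 + ε) ^ 2 * (w (wpq q) 1 / (1 + ε)) = (1 + ε) * w (wpq q) 1 := by
        field_simp
      rw [h4]
      exact h1.2
  · constructor
    · exact le_refl _
    · nlinarith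

lemma ww_bd (hε : 0 < ε)
    (hw : ∀ p, ¬ isStrong p → ∀ g h, 0 < w p g ∧ w p g ≤ (1 + ε) * w p h)
    (Λ : Bool → Finset Plaq) (b : Bool) (q : WP) : Bd (ww ε w Λ b q) := by
  refine ⟨(1 + ε) ^ 2, fun U => ?_⟩
  have h := ww_bounds hε hw Λ b q U
  rw [abs_of_nonneg (by linarith)]
  exact h.2

/-- the weight of a region -/
def wt (w : Plaq → G → ℝ) (Λ : Finset Plaq) (U : Link → G) : ℝ := ∏ p ∈ Λ, w p (hol U p)

open Classical in
/-- the normalisation -/
def nrm (ε : ℝ) (w : Plaq → G → ℝ) (Λ : Finset Plaq) (WW : Finset WP) : ℝ :=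
  ∏ q ∈ WW, if wpq q ∈ Λ then w (wpq q) 1 / (1 + ε) else 1

lemma nrm_pos (hε : 0 < ε)
    (hw : ∀ p, ¬ isStrong p → ∀ g h, 0 < w p g ∧ w p g ≤ (1 + ε) * w p h)
    (Λ : Finset Plaq) (WW : Finset WP) : 0 < nrm ε w Λ WW := by
  unfold nrm
  refine Finset.prod_pos fun q _ => ?_
  split_ifs
  · exact div_pos (hw _ ((not_isStrong_iff _).2 ⟨q, rfl⟩) 1 1).1 (by linarith)
  · exact one_pos

lemma wt_eq (hε : 0 < ε)
    (hw : ∀ p, ¬ isStrong p → ∀ g h, 0 < w p g ∧ w p g ≤ (1 + ε) * w p h)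
    (Λ : Bool → Finset Plaq) (b : Bool) (SS : Finset SP) (WW : Finset WP)
    (hS : ∀ s, spq s ∈ Λ b → s ∈ SS) (hW : ∀ q, wpq q ∈ Λ b → q ∈ WW) (U : Link → G) :
    wt w (Λ b) U = nrm ε w (Λ b) WW *
      ((∏ s ∈ SS, rr w Λ b s U) * ∏ q ∈ WW, ww ε w Λ b q U) := by
  classical
  unfold wt
  rw [prod_split (Λ b) SS WW hS hW fun p => w p (hol U p)]
  unfold nrm
  rw [mul_left_comm]
  refine congrArg₂ (· * ·) ?_ ?_
  · refine Finset.prod_congr rfl fun s _ => ?_
    unfold rr
    rfl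
  · rw [← Finset.prod_mul_distrib]
    refine Finset.prod_congr rfl fun q _ => ?_
    unfold ww
    split_ifs
    · have h3 : 0 < w (wpq q) 1 / (1 + ε) :=
        div_pos (hw _ ((not_isStrong_iff _).2 ⟨q, rfl⟩) 1 1).1 (by linarith)
      rw [mul_div_cancel₀ _ h3.ne']
    · rw [one_mul]

lemma core_empty (R : ℤ) : core sed (SB R) ∅ = ∅ := by
  rw [Finset.eq_empty_iff_forall_notMem]
  intro s hs
  obtain ⟨c, ⟨e, he, _⟩, _⟩ := exists_fil hs
  exact absurd he (Finset.notMem_empty e)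

end Main

end Pool.Agent.V11262.OP
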