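import Pool.Agent.V11262.OP.Final

/-!
# Mass gap with two strong orthogonal planes: the estimates
-/

set_option autoImplicit false
set_option linter.unusedSectionVars false

noncomputable section

namespace Pool.Agent.V11262.OP

open MeasureTheory Measure Filter Topology

variable {G : Type} [Group G] [TopologicalSpace G] [IsTopologicalGroup G] [CompactSpace G]
  [SecondCountableTopology G] [MeasurableSpace G] [BorelSpace G] (σ : Measure G)
  [IsProbabilityMeasure σ] [σ.IsHaarMeasure] {w : Plaq → G → ℝ} {ε : ℝ}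

/-- the product of Haar measures on the links -/
def PP : Measure (Link → G) := infinitePi fun _ : Link => σ

instance : IsProbabilityMeasure (PP σ) := by unfold PP; infer_instance

lemma wt_meas (hwm : ∀ p, Measurable (w p)) (Λ : Finset Plaq) : Measurable (wt w Λ) := by
  unfold wt
  exact Finset.measurable_prod _ fun p _ => (hwm p).comp (hol_meas p)

lemma wt_bd (hwb : ∀ p, Bd (w p)) (Λ : Finset Plaq) : Bd (wt w Λ) :=
  Bd.prod _ fun p _ => (hwb p).comp _

lemma wt_nonneg (hw0 : ∀ p g, 0 ≤ w p g) (Λ : Finset Plaq) (U : Link → G) : 0 ≤ wt w Λ U :=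
  Finset.prod_nonneg fun p _ => hw0 _ _

/-- the weak plaquettes of a finite set -/
def WWof (Λ : Finset Plaq) : Finset WP := Λ.preimage wpq wpq_inj.injOn

lemma mem_WWof {Λ : Finset Plaq} {q : WP} : q ∈ WWof Λ ↔ wpq q ∈ Λ := by
  simp [WWof]

theorem two_copy (hwm : ∀ p, Measurable (w p)) (hwb : ∀ p, Bd (w p)) (hw0 : ∀ p g, 0 ≤ w p g)
    (hε : 0 < ε) (hw : ∀ p, ¬ isStrong p → ∀ g h, 0 < w p g ∧ w p g ≤ (1 + ε) * w p h)
    {q : ℝ} (hq : 0 < q) (hq1 : q ≤ 1) (hεq : (1 + ε) ^ 4 - 1 ≤ (q / 2048) ^ 44)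
    (Λ : Bool → Finset Plaq) {E1 E2 : Finset Link} {D : ℕ}
    (hE : ∀ e ∈ E1, ∀ f ∈ E2, D ≤ dst e.1 f.1)
    (hΛ : ∀ e ∈ E1, ∀ p : Plaq, ¬ (p ∈ Λ false ↔ p ∈ Λ true) → D ≤ dst e.1 p.1.1)
    (F : (Link → G) → ℝ) (hFm : Measurable F) (hFd : Dep (E1 : Set Link) F)
    {KF : ℝ} (hF : ∀ U, |F U| ≤ KF)
    (K : (Bool × Link → G) → ℝ) (hKm : Measurable K) {KK : ℝ} (hK : ∀ ω, |K ω| ≤ KK)
    (hKd : ∀ ω ω' : Bool × Link → G, (∀ b, ∀ e ∈ E2, ω (b, e) = ω' (b, e)) → K ω = K ω') :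
    |∫ ω, (F (cp false ω) - F (cp true ω)) * K ω *
      (wt w (Λ false) (cp false ω) * wt w (Λ true) (cp true ω))
        ∂(infinitePi fun _ : Bool × Link => σ)| ≤
    2 * KF * KK * (E1.card * ((q / 2048) ^ (11 * (E1.card + E2.card)))⁻¹ * q ^ D) *
      ((∫ U, wt w (Λ false) U ∂(PP σ)) * ∫ U, wt w (Λ true) U ∂(PP σ)) := by
  classical
  obtain ⟨R, hR⟩ := exists_R (Λ false ∪ Λ true)
  set WW := WWof (Λ false ∪ Λ true) with hWW
  have hS : ∀ b, ∀ s, spq s ∈ Λ b → s ∈ SB R := by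
    intro b s hs
    rw [mem_SB]
    refine hR (spq s) ?_
    cases b
    · exact Finset.mem_union_left _ hs
    · exact Finset.mem_union_right _ hs
  have hW : ∀ b, ∀ q, wpq q ∈ Λ b → q ∈ WW := by
    intro b q hq
    rw [hWW, mem_WWof]
    cases b
    · exact Finset.mem_union_left _ hq
    · exact Finset.mem_union_right _ hq
  have e1 := fun b U => wt_eq hε hw Λ b (SB R) WW (hS b) (hW b) U
  have hn := fun b => nrm_pos hε hw (Λ b) WW
  set n0 := nrm ε w (Λ false) WW with hn0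
  set n1 := nrm ε w (Λ true) WW with hn1
  have hη : 0 ≤ (q / 2048) ^ 44 := by positivity
  have hV : ∀ p ω, 0 ≤ VV (ww ε w Λ) p ω ∧ VV (ww ε w Λ) p ω ≤ (q / 2048) ^ 44 := by
    intro p ω
    have h1 := ww_bounds hε hw Λ false p (cp false ω)
    have h2 := ww_bounds hε hw Λ true p (cp true ω)
    unfold VV
    constructor
    · nlinarith [h1.1, h2.1]
    · have h3 : ww ε w Λ false p (cp false ω) * ww ε w Λ true p (cp true ω) ≤
          (1 + ε) ^ 2 * (1 + ε) ^ 2 := mul_le_mul h1.2 h2.2 (by linarith [h2.1]) (by positivity)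
      calc _ ≤ (1 + ε) ^ 2 * (1 + ε) ^ 2 - 1 := by linarith
        _ = (1 + ε) ^ 4 - 1 := by ring
        _ ≤ _ := hεq
  have key := main_abs σ (sed := sed) (wed := wed) (r := rr w Λ) (w := ww ε w Λ)
    (fun b s => rr_meas hwm Λ b s) (fun b s => rr_bd hwb Λ b s) (fun b s => rr_dep Λ b s)
    (fun b p => ww_meas hwm Λ b p) (fun b p => ww_bd hε hw Λ b p) (fun b p => ww_dep Λ b p)
    (SB R) (cc σ w Λ) (fun b s _ e he U => by
      have := rr_int σ (w := w) Λ b s e he U
      convert this using 4) (fun b s U => rr_nonneg hw0 Λ b s U) hη hV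
    (DS := {s | ¬ (spq s ∈ Λ false ↔ spq s ∈ Λ true)})
    (DW := {p | ¬ (wpq p ∈ Λ false ↔ wpq p ∈ Λ true)})
    (by
      intro s hs
      rw [Set.mem_ofPred_eq, not_not] at hs
      funext U
      unfold rr
      by_cases h : spq s ∈ Λ false
      · rw [if_pos h, if_pos (hs.1 h)]
      · rw [if_neg h, if_neg fun h' => h (hs.2 h')])
    (by
      intro s hs
      rw [Set.mem_ofPred_eq, not_not] at hs
      funext U
      unfold ww
      by_cases h : wpq s ∈ Λ false
      · rw [if_pos h, if_pos (hs.1 h)]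
      · rw [if_neg h, if_neg fun h' => h (hs.2 h')])
    F hFm hFd hF K hKm hK hKd WW (fam WW E1 (E1.card + E2.card) D)
    (fun O hO hns => fam_mem hE (fun e he p hp => hΛ e he (wpq p) hp)
      (fun e he s hs => hΛ e he (spq s) hs) hO hns)
  have hsum := fam_sum WW E1 (E1.card + E2.card) D hq hq1
  -- rewriting of the integrands
  have e2 : ∀ ω : Bool × Link → G, (∏ p ∈ WW, (1 + VV (ww ε w Λ) p ω)) *
      ∏ s ∈ SB R, RR (rr w Λ) s ω =
      n0⁻¹ * n1⁻¹ * (wt w (Λ false) (cp false ω) * wt w (Λ true) (cp true ω)) := by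
    intro ω
    rw [e1 false, e1 true]
    have h1 : ∏ p ∈ WW, (1 + VV (ww ε w Λ) p ω) =
        (∏ p ∈ WW, ww ε w Λ false p (cp false ω)) * ∏ p ∈ WW, ww ε w Λ true p (cp true ω) := by
      rw [← Finset.prod_mul_distrib]
      refine Finset.prod_congr rfl fun p _ => ?_
      unfold VV
      ring
    have h2 : ∏ s ∈ SB R, RR (rr w Λ) s ω =
        (∏ s ∈ SB R, rr w Λ false s (cp false ω)) * ∏ s ∈ SB R, rr w Λ true s (cp true ω) := by
      rw [← Finset.prod_mul_distrib]
      rfl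
    rw [h1, h2]
    have h3 : n0 ≠ 0 := (hn false).ne'
    have h4 : n1 ≠ 0 := (hn true).ne'
    rw [← hn0, ← hn1]
    field_simp
  have e3 : ∀ ω : Bool × Link → G, ((F (cp false ω) - F (cp true ω)) * K ω *
      ∏ p ∈ WW, (1 + VV (ww ε w Λ) p ω)) * ∏ s ∈ SB R, RR (rr w Λ) s ω =
      n0⁻¹ * n1⁻¹ * ((F (cp false ω) - F (cp true ω)) * K ω *
        (wt w (Λ false) (cp false ω) * wt w (Λ true) (cp true ω))) := by
    intro ω
    rw [mul_assoc, e2]
    ring
  simp only [e2, e3] at key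
  rw [integral_const_mul, integral_const_mul,
    integral_copies σ _ _ (wt_meas hwm (Λ false)) (wt_meas hwm (Λ true)), abs_mul,
    abs_of_pos (mul_pos (inv_pos.2 (hn false)) (inv_pos.2 (hn true)))] at key
  have hpos : 0 < n0⁻¹ * n1⁻¹ := mul_pos (inv_pos.2 (hn false)) (inv_pos.2 (hn true))
  set A := |∫ ω, (F (cp false ω) - F (cp true ω)) * K ω *
      (wt w (Λ false) (cp false ω) * wt w (Λ true) (cp true ω))
        ∂(infinitePi fun _ : Bool × Link => σ)| with hA
  set Z := (∫ U, wt w (Λ false) U ∂(PP σ)) * ∫ U, wt w (Λ true) U ∂(PP σ) with hZ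
  have hZ' : (∫ U, wt w (Λ false) U ∂(infinitePi fun _ : Link => σ)) *
      ∫ U, wt w (Λ true) U ∂(infinitePi fun _ : Link => σ) = Z := rfl
  rw [hZ'] at key
  have hZ0 : 0 ≤ Z := mul_nonneg (integral_nonneg fun U => wt_nonneg hw0 _ U)
    (integral_nonneg fun U => wt_nonneg hw0 _ U)
  have hKF : 0 ≤ KF := (abs_nonneg _).trans (hF fun _ => 1)
  have hKK : 0 ≤ KK := (abs_nonneg _).trans (hK fun _ => 1)
  have key2 : n0⁻¹ * n1⁻¹ * A ≤ n0⁻¹ * n1⁻¹ * (2 * KF * KK * (E1.card *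
      ((q / 2048) ^ (11 * (E1.card + E2.card)))⁻¹ * q ^ D) * Z) := by
    refine key.trans ?_
    calc _ = (n0⁻¹ * n1⁻¹) * ((2 * KF * KK * Z) *
          ∑ O₀ ∈ fam WW E1 (E1.card + E2.card) D, ((q / 2048) ^ 44) ^ O₀.card) := by ring
      _ ≤ (n0⁻¹ * n1⁻¹) * ((2 * KF * KK * Z) *
          (E1.card * ((q / 2048) ^ (11 * (E1.card + E2.card)))⁻¹ * q ^ D)) := by
          refine mul_le_mul_of_nonneg_left ?_ hpos.le
          exact mul_le_mul_of_nonneg_left hsum (by positivity)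
      _ = _ := by ring
  exact le_of_mul_le_mul_left key2 hpos

/-- the partition function is positive -/
theorem Z_pos (hwm : ∀ p, Measurable (w p)) (hwb : ∀ p, Bd (w p)) (hw0 : ∀ p g, 0 ≤ w p g)
    (hε : 0 < ε) (hw : ∀ p, ¬ isStrong p → ∀ g h, 0 < w p g ∧ w p g ≤ (1 + ε) * w p h)
    (hwp : ∀ p, isStrong p → 0 < ∫ g, w p g ∂σ) (Λ : Finset Plaq) :
    0 < ∫ U, wt w Λ U ∂(PP σ) := by
  classical
  obtain ⟨R, hR⟩ := exists_R Λ
  set WW := WWof Λ with hWW
  set L : Bool → Finset Plaq := fun _ => Λ with hL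
  have hS : ∀ b, ∀ s, spq s ∈ L b → s ∈ SB R := by
    intro b s hs
    rw [mem_SB]
    exact hR (spq s) hs
  have hW : ∀ b, ∀ q, wpq q ∈ L b → q ∈ WW := by
    intro b q hq
    rw [hWW, mem_WWof]
    exact hq
  have e1 := fun b U => wt_eq hε hw L b (SB R) WW (hS b) (hW b) U
  have hn := nrm_pos hε hw Λ WW
  have h1 := elim_core σ (sed := sed) (r := rr w L)
    (fun b s => rr_meas hwm L b s) (fun b s => rr_bd hwb L b s) (fun b s => rr_dep L b s)
    (SB R) (cc σ w L) (fun b s _ e he U => by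
      have := rr_int σ (w := w) L b s e he U
      convert this using 4) ∅ (fun _ => (1 : ℝ)) measurable_const (Bd.const 1)
    (fun _ _ _ _ _ => rfl)
  rw [core_empty] at h1
  simp only [Finset.sdiff_empty, Finset.prod_empty, mul_one, one_mul, integral_const,
    probReal_univ, smul_eq_mul] at h1
  have hcc : ∀ b s, 0 < cc σ w L b s := by
    intro b s
    unfold cc
    split_ifs
    · exact hwp _ ((isStrong_iff _).2 ⟨s, rfl⟩)
    · exact one_pos
  have h2 : 0 < ∫ ω, ∏ s ∈ SB R, RR (rr w L) s ω ∂(infinitePi fun _ : Bool × Link => σ) := by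
    rw [h1]
    exact Finset.prod_pos fun s _ => mul_pos (hcc _ _) (hcc _ _)
  have h3 := integral_copies σ _ _ (wt_meas hwm Λ) (wt_meas hwm Λ)
  have h4 : (nrm ε w Λ WW * nrm ε w Λ WW) *
      ∫ ω, ∏ s ∈ SB R, RR (rr w L) s ω ∂(infinitePi fun _ : Bool × Link => σ) ≤
      ∫ ω, wt w Λ (cp false ω) * wt w Λ (cp true ω)
        ∂(infinitePi fun _ : Bool × Link => σ) := by
    rw [← integral_const_mul]
    refine integral_mono ?_ ?_ fun ω => ?_
    · refine Integrable.const_mul ?_ _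
      exact (Bd.prod _ fun s _ => ((rr_bd hwb L false s).comp _).mul
        ((rr_bd hwb L true s).comp _)).integrable
        (Finset.measurable_prod _ fun s _ =>
          ((rr_meas hwm L false s).comp (measurable_cp false)).mul
            ((rr_meas hwm L true s).comp (measurable_cp true)))
    · exact (((wt_bd hwb Λ).comp _).mul ((wt_bd hwb Λ).comp _)).integrable
        (((wt_meas hwm Λ).comp (measurable_cp false)).mul
          ((wt_meas hwm Λ).comp (measurable_cp true)))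
    · have g1 := e1 false (cp false ω)
      have g2 := e1 true (cp true ω)
      simp only [hL] at g1 g2
      simp only []
      rw [g1, g2]
      have g3 : ∀ b (U : Link → G), 1 ≤ ∏ q ∈ WW, ww ε w L b q U := by
        intro b U
        calc (1 : ℝ) = ∏ _q ∈ WW, (1 : ℝ) := by simp
          _ ≤ _ := Finset.prod_le_prod (fun _ _ => zero_le_one) fun q _ =>
            (ww_bounds hε hw L b q U).1
      have g4 : ∀ b (U : Link → G), 0 ≤ ∏ s ∈ SB R, rr w L b s U := fun b U =>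
        Finset.prod_nonneg fun s _ => rr_nonneg hw0 L b s U
      have g5 : ∏ s ∈ SB R, RR (rr w L) s ω =
          (∏ s ∈ SB R, rr w L false s (cp false ω)) *
            ∏ s ∈ SB R, rr w L true s (cp true ω) := by
        rw [← Finset.prod_mul_distrib]
        rfl
      rw [g5]
      have g6 : (∏ s ∈ SB R, rr w L false s (cp false ω)) ≤
          (∏ s ∈ SB R, rr w L false s (cp false ω)) *
            ∏ q ∈ WW, ww ε w L false q (cp false ω) :=
        le_mul_of_one_le_right (g4 _ _) (g3 _ _)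
      have g7 : (∏ s ∈ SB R, rr w L true s (cp true ω)) ≤
          (∏ s ∈ SB R, rr w L true s (cp true ω)) *
            ∏ q ∈ WW, ww ε w L true q (cp true ω) :=
        le_mul_of_one_le_right (g4 _ _) (g3 _ _)
      have g8 := mul_le_mul g6 g7 (g4 _ _) ((g4 false (cp false ω)).trans g6)
      calc _ ≤ nrm ε w Λ WW * nrm ε w Λ WW * _ :=
            mul_le_mul_of_nonneg_left g8 (mul_nonneg hn.le hn.le)
        _ = _ := by ring
  rw [h3] at h4
  have h5 : 0 < (∫ U, wt w Λ U ∂(PP σ)) * ∫ U, wt w Λ U ∂(PP σ) :=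
    (mul_pos (mul_pos hn hn) h2).trans_le h4
  have h6 : 0 ≤ ∫ U, wt w Λ U ∂(PP σ) := integral_nonneg fun U => wt_nonneg hw0 _ U
  rcases h6.eq_or_lt with h7 | h7
  · rw [← h7] at h5
    simp at h5
  · exact h7

/-- expectations in a finite region -/
def expc (w : Plaq → G → ℝ) (Λ : Finset Plaq) (F : (Link → G) → ℝ) : ℝ :=
  (∫ U, F U * wt w Λ U ∂(PP σ)) / ∫ U, wt w Λ U ∂(PP σ)

theorem boundary (hwm : ∀ p, Measurable (w p)) (hwb : ∀ p, Bd (w p)) (hw0 : ∀ p g, 0 ≤ w p g)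
    (hε : 0 < ε) (hw : ∀ p, ¬ isStrong p → ∀ g h, 0 < w p g ∧ w p g ≤ (1 + ε) * w p h)
    (hwp : ∀ p, isStrong p → 0 < ∫ g, w p g ∂σ)
    {q : ℝ} (hq : 0 < q) (hq1 : q ≤ 1) (hεq : (1 + ε) ^ 4 - 1 ≤ (q / 2048) ^ 44)
    (Λ Λ' : Finset Plaq) {A : Finset Link} {D : ℕ}
    (hΛ : ∀ e ∈ A, ∀ p : Plaq, ¬ (p ∈ Λ ↔ p ∈ Λ') → D ≤ dst e.1 p.1.1)
    (F : (Link → G) → ℝ) (hFm : Measurable F) (hFd : Dep (A : Set Link) F)
    {KF : ℝ} (hF : ∀ U, |F U| ≤ KF) :
    |expc σ w Λ F - expc σ w Λ' F| ≤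
      2 * KF * (A.card * ((q / 2048) ^ (11 * A.card))⁻¹ * q ^ D) := by
  have key := two_copy σ hwm hwb hw0 hε hw hq hq1 hεq (fun b => if b then Λ' else Λ)
    (E1 := A) (E2 := ∅) (D := D) (by simp) (by simpa using hΛ) F hFm hFd hF (fun _ => (1 : ℝ))
    measurable_const (KK := 1) (by simp) (fun _ _ _ => rfl)
  simp only [Bool.false_eq_true, if_false, if_true, mul_one, Finset.card_empty, add_zero] at key
  have h1 := Z_pos σ hwm hwb hw0 hε hw hwp Λ
  have h2 := Z_pos σ hwm hwb hw0 hε hw hwp Λ'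
  have hFb : Bd F := ⟨KF, hF⟩
  have e1 : ∫ ω, (F (cp false ω) - F (cp true ω)) * (wt w Λ (cp false ω) * wt w Λ' (cp true ω))
        ∂(infinitePi fun _ : Bool × Link => σ) =
      (∫ U, F U * wt w Λ U ∂(PP σ)) * (∫ U, wt w Λ' U ∂(PP σ)) -
        (∫ U, wt w Λ U ∂(PP σ)) * ∫ U, F U * wt w Λ' U ∂(PP σ) := by
    have g1 := integral_copies σ (fun U => F U * wt w Λ U) (wt w Λ')
      (hFm.mul (wt_meas hwm Λ)) (wt_meas hwm Λ')
    have g2 := integral_copies σ (wt w Λ) (fun U => F U * wt w Λ' U)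
      (wt_meas hwm Λ) (hFm.mul (wt_meas hwm Λ'))
    unfold PP
    rw [← g1, ← g2, ← integral_sub]
    · congr 1
      funext ω
      ring
    · exact (((hFb.mul (wt_bd hwb Λ)).comp _).mul ((wt_bd hwb Λ').comp _)).integrable
        (((hFm.mul (wt_meas hwm Λ)).comp (measurable_cp false)).mul
          ((wt_meas hwm Λ').comp (measurable_cp true)))
    · exact (((wt_bd hwb Λ).comp _).mul ((hFb.mul (wt_bd hwb Λ')).comp _)).integrable
        (((wt_meas hwm Λ).comp (measurable_cp false)).mul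
          ((hFm.mul (wt_meas hwm Λ')).comp (measurable_cp true)))
  rw [e1] at key
  have e2 : expc σ w Λ F - expc σ w Λ' F =
      ((∫ U, F U * wt w Λ U ∂(PP σ)) * (∫ U, wt w Λ' U ∂(PP σ)) -
        (∫ U, wt w Λ U ∂(PP σ)) * ∫ U, F U * wt w Λ' U ∂(PP σ)) /
      ((∫ U, wt w Λ U ∂(PP σ)) * ∫ U, wt w Λ' U ∂(PP σ)) := by
    unfold expc
    rw [div_sub_div _ _ h1.ne' h2.ne']
  rw [e2, abs_div, abs_of_pos (mul_pos h1 h2), div_le_iff₀ (mul_pos h1 h2)]
  exact key

theorem cluster (hwm : ∀ p, Measurable (w p)) (hwb : ∀ p, Bd (w p)) (hw0 : ∀ p g, 0 ≤ w p g)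
    (hε : 0 < ε) (hw : ∀ p, ¬ isStrong p → ∀ g h, 0 < w p g ∧ w p g ≤ (1 + ε) * w p h)
    (hwp : ∀ p, isStrong p → 0 < ∫ g, w p g ∂σ)
    {q : ℝ} (hq : 0 < q) (hq1 : q ≤ 1) (hεq : (1 + ε) ^ 4 - 1 ≤ (q / 2048) ^ 44)
    (Λ : Finset Plaq) {A B : Finset Link} {D : ℕ}
    (hAB : ∀ e ∈ A, ∀ f ∈ B, D ≤ dst e.1 f.1)
    (F : (Link → G) → ℝ) (hFm : Measurable F) (hFd : Dep (A : Set Link) F)
    {KF : ℝ} (hF : ∀ U, |F U| ≤ KF)
    (H : (Link → G) → ℝ) (hHm : Measurable H) (hHd : Dep (B : Set Link) H)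
    {KH : ℝ} (hH : ∀ U, |H U| ≤ KH) :
    |expc σ w Λ (fun U => F U * H U) - expc σ w Λ F * expc σ w Λ H| ≤
      2 * KF * KH * (A.card * ((q / 2048) ^ (11 * (A.card + B.card)))⁻¹ * q ^ D) := by
  have hKm : Measurable fun ω : Bool × Link → G => H (cp false ω) - H (cp true ω) :=
    (hHm.comp (measurable_cp false)).sub (hHm.comp (measurable_cp true))
  have key := two_copy σ hwm hwb hw0 hε hw hq hq1 hεq (fun _ => Λ)
    (E1 := A) (E2 := B) (D := D) hAB (by simp) F hFm hFd hF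
    (fun ω => H (cp false ω) - H (cp true ω)) hKm (KK := 2 * KH)
    (by
      intro ω
      have := (abs_sub (H (cp false ω)) (H (cp true ω))).trans (add_le_add (hH _) (hH _))
      linarith)
    (by
      intro ω ω' h
      have h1 : ∀ b, H (cp b ω) = H (cp b ω') := fun b =>
        hHd _ _ fun e he => h b e (by simpa using he)
      rw [h1, h1])
  have h1 := Z_pos σ hwm hwb hw0 hε hw hwp Λ
  have hFb : Bd F := ⟨KF, hF⟩
  have hHb : Bd H := ⟨KH, hH⟩
  set Z := ∫ U, wt w Λ U ∂(PP σ) with hZ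
  set NF := ∫ U, F U * wt w Λ U ∂(PP σ) with hNF
  set NH := ∫ U, H U * wt w Λ U ∂(PP σ) with hNH
  set NFH := ∫ U, (F U * H U) * wt w Λ U ∂(PP σ) with hNFH
  have hwtm := wt_meas hwm Λ
  have hwtb := wt_bd hwb Λ
  have e1 : ∫ ω, (F (cp false ω) - F (cp true ω)) * (H (cp false ω) - H (cp true ω)) *
      (wt w Λ (cp false ω) * wt w Λ (cp true ω)) ∂(infinitePi fun _ : Bool × Link => σ) =
      2 * (NFH * Z - NF * NH) := by
    have g1 := integral_copies σ (fun U => (F U * H U) * wt w Λ U) (wt w Λ)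
      ((hFm.mul hHm).mul hwtm) hwtm
    have g2 := integral_copies σ (wt w Λ) (fun U => (F U * H U) * wt w Λ U)
      hwtm ((hFm.mul hHm).mul hwtm)
    have g3 := integral_copies σ (fun U => F U * wt w Λ U) (fun U => H U * wt w Λ U)
      (hFm.mul hwtm) (hHm.mul hwtm)
    have g4 := integral_copies σ (fun U => H U * wt w Λ U) (fun U => F U * wt w Λ U)
      (hHm.mul hwtm) (hFm.mul hwtm)
    have i1 : Integrable (fun ω : Bool × Link → G =>
        ((F (cp false ω) * H (cp false ω)) * wt w Λ (cp false ω)) * wt w Λ (cp true ω))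
        (infinitePi fun _ : Bool × Link => σ) :=
      ((((hFb.mul hHb).mul hwtb).comp _).mul (hwtb.comp _)).integrable
        ((((hFm.mul hHm).mul hwtm).comp (measurable_cp false)).mul
          (hwtm.comp (measurable_cp true)))
    have i2 : Integrable (fun ω : Bool × Link → G =>
        wt w Λ (cp false ω) * ((F (cp true ω) * H (cp true ω)) * wt w Λ (cp true ω)))
        (infinitePi fun _ : Bool × Link => σ) :=
      ((hwtb.comp _).mul (((hFb.mul hHb).mul hwtb).comp _)).integrable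
        ((hwtm.comp (measurable_cp false)).mul
          (((hFm.mul hHm).mul hwtm).comp (measurable_cp true)))
    have i3 : Integrable (fun ω : Bool × Link → G =>
        (F (cp false ω) * wt w Λ (cp false ω)) * (H (cp true ω) * wt w Λ (cp true ω)))
        (infinitePi fun _ : Bool × Link => σ) :=
      (((hFb.mul hwtb).comp _).mul ((hHb.mul hwtb).comp _)).integrable
        (((hFm.mul hwtm).comp (measurable_cp false)).mul
          ((hHm.mul hwtm).comp (measurable_cp true)))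
    have i4 : Integrable (fun ω : Bool × Link → G =>
        (H (cp false ω) * wt w Λ (cp false ω)) * (F (cp true ω) * wt w Λ (cp true ω)))
        (infinitePi fun _ : Bool × Link => σ) :=
      (((hHb.mul hwtb).comp _).mul ((hFb.mul hwtb).comp _)).integrable
        (((hHm.mul hwtm).comp (measurable_cp false)).mul
          ((hFm.mul hwtm).comp (measurable_cp true)))
    have e0 : ∀ ω : Bool × Link → G,
        (F (cp false ω) - F (cp true ω)) * (H (cp false ω) - H (cp true ω)) *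
        (wt w Λ (cp false ω) * wt w Λ (cp true ω)) =
        (((F (cp false ω) * H (cp false ω)) * wt w Λ (cp false ω)) * wt w Λ (cp true ω) +
          wt w Λ (cp false ω) * ((F (cp true ω) * H (cp true ω)) * wt w Λ (cp true ω))) -
        ((F (cp false ω) * wt w Λ (cp false ω)) * (H (cp true ω) * wt w Λ (cp true ω)) +
          (H (cp false ω) * wt w Λ (cp false ω)) * (F (cp true ω) * wt w Λ (cp true ω))) := by
      intro ω; ring
    simp only [e0]
    have j1 := integral_sub (i1.add i2) (i3.add i4)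
    have j2 := integral_add i1 i2
    have j3 := integral_add i3 i4
    simp only [Pi.add_apply] at j1 j2 j3
    rw [j1, j2, j3, g1, g2, g3, g4]
    simp only [hZ, hNF, hNH, hNFH, PP]
    ring
  rw [e1] at key
  have e2 : expc σ w Λ (fun U => F U * H U) - expc σ w Λ F * expc σ w Λ H =
      (NFH * Z - NF * NH) / (Z * Z) := by
    unfold expc
    rw [← hZ, ← hNF, ← hNH, ← hNFH]
    have := h1.ne'
    field_simp
  rw [e2, abs_div, abs_of_pos (mul_pos h1 h1), div_le_iff₀ (mul_pos h1 h1)]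
  rw [abs_mul, abs_of_pos (show (0 : ℝ) < 2 by norm_num)] at key
  linarith [key]

end Pool.Agent.V11262.OP
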