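import Pool.Agent.V11262.OP.Final2

/-!
# Mass gap with two strong orthogonal planes: the infinite-volume state
-/

set_option autoImplicit false
set_option linter.unusedSectionVars false

noncomputable section

namespace Pool.Agent.V11262.OP

open MeasureTheory Measure Filter Topology

/-- the plaquettes with base point in a box -/
def LB (n : ℕ) : Finset Plaq :=
  Finset.subtype (fun p : Site × Fin 4 × Fin 4 => p.2.1 < p.2.2)
    ((Fintype.piFinset fun _ => Finset.Ico (-(n : ℤ)) n) ×ˢ Finset.univ)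

lemma mem_LB {n : ℕ} {p : Plaq} : p ∈ LB n ↔ ∀ κ, -(n : ℤ) ≤ p.1.1 κ ∧ p.1.1 κ < n := by
  simp [LB, Finset.mem_subtype, Fintype.mem_piFinset, Finset.mem_Ico]

lemma far_LB (A : Finset Link) : ∃ M : ℕ, ∀ n : ℕ, ∀ p, p ∉ LB n → ∀ e ∈ A,
    n - M ≤ dst e.1 p.1.1 := by
  refine ⟨∑ e ∈ A, ∑ κ, (e.1 κ).natAbs, fun n p hp e he => ?_⟩
  rw [mem_LB] at hp
  push Not at hp
  obtain ⟨κ, hκ⟩ := hp
  have h1 : (e.1 κ).natAbs ≤ ∑ κ, (e.1 κ).natAbs :=
    Finset.single_le_sum (f := fun κ => (e.1 κ).natAbs) (fun _ _ => Nat.zero_le _)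
      (Finset.mem_univ κ)
  have h2 : ∑ κ, (e.1 κ).natAbs ≤ ∑ e ∈ A, ∑ κ, (e.1 κ).natAbs :=
    Finset.single_le_sum (f := fun e : Link => ∑ κ, (e.1 κ).natAbs)
      (fun _ _ => Nat.zero_le _) he
  have h3 : (e.1 κ - p.1.1 κ).natAbs ≤ dst e.1 p.1.1 := by
    unfold dst
    exact Finset.single_le_sum (f := fun κ => (e.1 κ - p.1.1 κ).natAbs)
      (fun _ _ => Nat.zero_le _) (Finset.mem_univ κ)
  omega

lemma two_mul_le (n : ℕ) : (2 : ℝ) * n ≤ 4 ^ n := by
  have h : 2 * n ≤ 4 ^ n := by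
    induction n with
    | zero => simp
    | succ n ih =>
      rw [pow_succ]
      have : 1 ≤ 4 ^ n := Nat.one_le_pow _ _ (by norm_num)
      omega
  exact_mod_cast h

theorem main (m : ℝ) (hm : 0 < m) : ∃ ε C : ℝ, 0 < ε ∧ 0 < C ∧
    ∀ (G : Type) [Group G] [TopologicalSpace G] [IsTopologicalGroup G] [CompactSpace G]
      [SecondCountableTopology G] [MeasurableSpace G] [BorelSpace G]
      (σ : Measure G) [IsProbabilityMeasure σ] [σ.IsHaarMeasure] (w : Plaq → G → ℝ),
      (∀ p, Measurable (w p)) → (∀ p, ∃ K, ∀ g, 0 ≤ w p g ∧ w p g ≤ K) →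
      (∀ p, 0 < ∫ g, w p g ∂σ) → (∀ p, ¬ isStrong p → ∀ g h, w p g ≤ (1 + ε) * w p h) →
      ∃ state : ((Link → G) → ℝ) → ℝ,
        (∀ (A : Finset Link) (K : ℝ) (F : (Link → G) → ℝ), Measurable F → (∀ U, |F U| ≤ K) →
          Dep (A : Set Link) F → ∀ (Λ : Finset Plaq) (D : ℕ),
          (∀ p, p ∉ Λ → ∀ e ∈ A, D ≤ dst e.1 p.1.1) →
          |expc σ w Λ F - state F| ≤ K * C ^ A.card * Real.exp (-(m * D))) ∧
        ∀ (A B : Finset Link) (K K' : ℝ) (F H : (Link → G) → ℝ) (D : ℕ), Measurable F →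
          (∀ U, |F U| ≤ K) → Dep (A : Set Link) F → Measurable H → (∀ U, |H U| ≤ K') →
          Dep (B : Set Link) H → (∀ e ∈ A, ∀ f ∈ B, D ≤ dst e.1 f.1) →
          |state (fun U => F U * H U) - state F * state H| ≤
            K * K' * C ^ (A.card + B.card) * Real.exp (-(m * D)) ∧
          ∀ Λ : Finset Plaq, |expc σ w Λ (fun U => F U * H U) - expc σ w Λ F * expc σ w Λ H| ≤
            K * K' * C ^ (A.card + B.card) * Real.exp (-(m * D)) := by
  set q : ℝ := Real.exp (-m) with hq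
  have hq0 : 0 < q := Real.exp_pos _
  have hq1 : q ≤ 1 := Real.exp_le_one_iff.2 (by linarith)
  set r : ℝ := q / 2048 with hr
  have hr0 : 0 < r := by positivity
  have hr1 : r ≤ 1 := by rw [hr]; linarith
  set ε : ℝ := r ^ 44 / 15 with hε
  have hε0 : 0 < ε := by positivity
  have hr44 : r ^ 44 ≤ 1 := pow_le_one₀ hr0.le hr1
  have hε1 : ε ≤ 1 := by rw [hε]; linarith
  have hεq : (1 + ε) ^ 4 - 1 ≤ r ^ 44 := by
    have h1 : r ^ 44 = 15 * ε := by rw [hε]; ring
    rw [h1]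
    have h2 : 0 ≤ ε * (1 - ε) := mul_nonneg hε0.le (by linarith)
    have h3 : 0 ≤ ε * (1 - ε ^ 2) := mul_nonneg hε0.le (by nlinarith)
    have h4 : 0 ≤ ε * (1 - ε ^ 3) :=
      mul_nonneg hε0.le (by have := pow_le_one₀ (n := 3) hε0.le hε1; linarith)
    nlinarith
  set C : ℝ := 4 * (r ^ 11)⁻¹ with hC
  have hC0 : 0 < C := by positivity
  refine ⟨ε, C, hε0, hC0, ?_⟩
  intro G _ _ _ _ _ _ _ σ _ _ w hwm hwK hwp hww
  have hwb : ∀ p, Bd (w p) := by
    intro p
    obtain ⟨K, hK⟩ := hwK p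
    exact ⟨K, fun g => by rw [abs_of_nonneg (hK g).1]; exact (hK g).2⟩
  have hw0 : ∀ p g, 0 ≤ w p g := fun p g => ((hwK p).choose_spec g).1
  have hw : ∀ p, ¬ isStrong p → ∀ g h, 0 < w p g ∧ w p g ≤ (1 + ε) * w p h := by
    intro p hp g h
    refine ⟨?_, hww p hp g h⟩
    rcases (hw0 p g).eq_or_lt with h0 | h0
    · exfalso
      have h1 : ∀ x, w p x = 0 := fun x => by
        have := hww p hp x g
        rw [← h0, mul_zero] at this
        exact le_antisymm this (hw0 p x)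
      have h2 := hwp p
      simp only [h1, integral_zero] at h2
      exact lt_irrefl _ h2
    · exact h0
  have hqD : ∀ D : ℕ, q ^ D = Real.exp (-(m * D)) := by
    intro D
    rw [hq, ← Real.exp_nat_mul]
    congr 1
    ring
  -- bound of the constants
  have hcst : ∀ (n k : ℕ) (K : ℝ) (D : ℕ), 0 ≤ K → n ≤ k →
      2 * K * (n * (r ^ (11 * k))⁻¹ * q ^ D) ≤ K * C ^ k * Real.exp (-(m * D)) := by
    intro n k K D hK hnk
    rw [← hqD, hC, mul_pow, inv_pow, ← pow_mul]
    have h1 : (2 : ℝ) * n ≤ 4 ^ k := (two_mul_le n).trans (pow_le_pow_right₀ (by norm_num) hnk)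
    calc 2 * K * (n * (r ^ (11 * k))⁻¹ * q ^ D) =
        (2 * n) * (K * (r ^ (11 * k))⁻¹ * q ^ D) := by ring
      _ ≤ 4 ^ k * (K * (r ^ (11 * k))⁻¹ * q ^ D) :=
        mul_le_mul_of_nonneg_right h1 (by positivity)
      _ = _ := by ring
  have hbd : ∀ (A : Finset Link) (K : ℝ) (F : (Link → G) → ℝ), Measurable F →
      (∀ U, |F U| ≤ K) → Dep (A : Set Link) F → ∀ (Λ Λ' : Finset Plaq) (D : ℕ),
      (∀ p, p ∉ Λ → ∀ e ∈ A, D ≤ dst e.1 p.1.1) →
      (∀ p, p ∉ Λ' → ∀ e ∈ A, D ≤ dst e.1 p.1.1) →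
      |expc σ w Λ F - expc σ w Λ' F| ≤ K * C ^ A.card * Real.exp (-(m * D)) := by
    intro A K F hFm hF hFd Λ Λ' D h1 h2
    have hK : 0 ≤ K := (abs_nonneg _).trans (hF fun _ => 1)
    refine (boundary σ hwm hwb hw0 hε0 hw (fun p _ => hwp p) hq0 hq1 hεq Λ Λ' ?_ F hFm hFd
      hF).trans (hcst A.card A.card K D hK le_rfl)
    intro e he p hp
    by_cases h3 : p ∈ Λ
    · exact h2 p (fun h4 => hp ⟨fun _ => h4, fun _ => h3⟩) e he
    · exact h1 p h3 e he
  have hlim : ∀ (A : Finset Link) (K : ℝ) (F : (Link → G) → ℝ), Measurable F →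
      (∀ U, |F U| ≤ K) → Dep (A : Set Link) F →
      Tendsto (fun n => expc σ w (LB n) F) atTop
        (𝓝 (limUnder atTop fun n => expc σ w (LB n) F)) := by
    intro A K F hFm hF hFd
    obtain ⟨M, hM⟩ := far_LB A
    refine CauchySeq.tendsto_limUnder ?_
    refine cauchySeq_of_le_tendsto_0 (fun n => K * C ^ A.card * Real.exp (-(m * (n - M : ℕ)))) ?_
      ?_
    · intro n n' N hn hn'
      rw [Real.dist_eq]
      exact hbd A K F hFm hF hFd _ _ (N - M)
        (fun p hp e he => le_trans (by omega) (hM n p hp e he))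
        (fun p hp e he => le_trans (by omega) (hM n' p hp e he))
    · have h1 : Tendsto (fun n : ℕ => Real.exp (-(m * (n - M : ℕ)))) atTop (𝓝 0) := by
        refine Real.tendsto_exp_atBot.comp ?_
        have h2 : Tendsto (fun n : ℕ => ((n - M : ℕ) : ℝ)) atTop atTop :=
          tendsto_natCast_atTop_atTop.comp (tendsto_sub_atTop_nat M)
        exact tendsto_neg_atTop_atBot.comp (h2.const_mul_atTop hm)
      have h2 := h1.const_mul (K * C ^ A.card)
      rwa [mul_zero] at h2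
  refine ⟨fun F => limUnder atTop fun n => expc σ w (LB n) F, ?_, ?_⟩
  · intro A K F hFm hF hFd Λ D hΛ
    obtain ⟨M, hM⟩ := far_LB A
    have h1 := hlim A K F hFm hF hFd
    have h2 : Tendsto (fun n => |expc σ w Λ F - expc σ w (LB n) F|) atTop
        (𝓝 |expc σ w Λ F - limUnder atTop fun n => expc σ w (LB n) F|) :=
      (tendsto_const_nhds.sub h1).abs
    refine le_of_tendsto h2 ?_
    filter_upwards [eventually_ge_atTop (D + M)] with n hn
    exact hbd A K F hFm hF hFd _ _ D hΛ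
      (fun p hp e he => le_trans (by omega) (hM n p hp e he))
  · intro A B K K' F H D hFm hF hFd hHm hH hHd hAB
    have hK : 0 ≤ K := (abs_nonneg _).trans (hF fun _ => 1)
    have hK' : 0 ≤ K' := (abs_nonneg _).trans (hH fun _ => 1)
    have hcl : ∀ Λ : Finset Plaq,
        |expc σ w Λ (fun U => F U * H U) - expc σ w Λ F * expc σ w Λ H| ≤
          K * K' * C ^ (A.card + B.card) * Real.exp (-(m * D)) := by
      intro Λ
      have h1 := cluster σ hwm hwb hw0 hε0 hw (fun p _ => hwp p) hq0 hq1 hεq Λ hAB F hFm hFd hF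
        H hHm hHd hH
      refine h1.trans ?_
      have h2 := hcst A.card (A.card + B.card) (K * K') D (mul_nonneg hK hK') (by omega)
      calc _ = 2 * (K * K') * (A.card * (r ^ (11 * (A.card + B.card)))⁻¹ * q ^ D) := by ring
        _ ≤ _ := h2
    refine ⟨?_, hcl⟩
    have h1 := hlim A K F hFm hF hFd
    have h2 := hlim B K' H hHm hH hHd
    have h3 := hlim (A ∪ B) (K * K') (fun U => F U * H U) (hFm.mul hHm)
      (fun U => by
        rw [abs_mul]
        exact mul_le_mul (hF U) (hH U) (abs_nonneg _) hK)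
      (by
        intro U V hUV
        simp only [Finset.coe_union, Set.mem_union, Finset.mem_coe] at hUV
        show F U * H U = F V * H V
        rw [hFd U V fun e he => hUV e (Or.inl (by simpa using he)),
          hHd U V fun e he => hUV e (Or.inr (by simpa using he))])
    exact le_of_tendsto ((h3.sub (h1.mul h2)).abs) (Eventually.of_forall fun n => hcl (LB n))

end Pool.Agent.V11262.OP
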