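import Mathlib

/-!
# Mass gap with two strong orthogonal planes: circuits in the plane, modulo two
-/

set_option autoImplicit false

noncomputable section

namespace Pool.Agent.V11262.OP

/-- the boundary value on the vertical edge between the faces `(i - 1, j)` and `(i, j)` -/
def bv (k : ℤ → ℤ → ZMod 2) (i j : ℤ) : ZMod 2 := k (i - 1) j + k i j

/-- the boundary value on the horizontal edge between the faces `(i, j - 1)` and `(i, j)` -/
def bh (k : ℤ → ℤ → ZMod 2) (i j : ℤ) : ZMod 2 := k i (j - 1) + k i j

open Classical in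
/-- the set of faces whose boundary is the part of the boundary of `k` in `V` -/
def fill (N : ℤ) (k : ℤ → ℤ → ZMod 2) (V : ℤ → ℤ → Prop) (i j : ℤ) : ZMod 2 :=
  ∑ i' ∈ Finset.Ioc i N, if V i' j then bv k i' j else 0

lemma two_add (x : ZMod 2) : x + x = 0 := CharTwo.add_self_eq_zero x

variable {A N : ℤ} {k : ℤ → ℤ → ZMod 2}

lemma fill_of_le {V : ℤ → ℤ → Prop} {i j : ℤ} (h : N ≤ i) : fill N k V i j = 0 := by
  unfold fill
  rw [Finset.Ioc_eq_empty (by omega)]
  rfl

open Classical in
lemma fill_pred {V : ℤ → ℤ → Prop} {i j : ℤ} (h : i ≤ N) :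
    fill N k V (i - 1) j = (if V i j then bv k i j else 0) + fill N k V i j := by
  unfold fill
  have h1 : Finset.Ioc (i - 1) N = insert i (Finset.Ioc i N) := by
    ext x
    simp only [Finset.mem_Ioc, Finset.mem_insert]
    omega
  rw [h1, Finset.sum_insert (by simp)]

open Classical in
theorem fill_bv (hk : ∀ i j, k i j ≠ 0 → (A ≤ i ∧ i < N) ∧ (A ≤ j ∧ j < N))
    (V : ℤ → ℤ → Prop) (i j : ℤ) :
    bv (fill N k V) i j = if V i j then bv k i j else 0 := by
  unfold bv
  rcases le_or_gt i N with h | h
  · rw [fill_pred h, add_assoc, two_add, add_zero]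
    rfl
  · rw [fill_of_le (show N ≤ i - 1 by omega), fill_of_le (show N ≤ i by omega)]
    have h1 : k (i - 1) j = 0 := by
      by_contra h1
      have := hk _ _ h1
      omega
    have h2 : k i j = 0 := by
      by_contra h1
      have := hk _ _ h1
      omega
    rw [h1, h2]
    simp

open Classical in
theorem fill_bh (hk : ∀ i j, k i j ≠ 0 → (A ≤ i ∧ i < N) ∧ (A ≤ j ∧ j < N))
    (V H : ℤ → ℤ → Prop)
    (hc : ∀ i j, ∃ P : Prop, (bv k i j ≠ 0 → (V i j ↔ P)) ∧
      (bv k i (j - 1) ≠ 0 → (V i (j - 1) ↔ P)) ∧ (bh k i j ≠ 0 → (H i j ↔ P)) ∧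
      (bh k (i - 1) j ≠ 0 → (H (i - 1) j ↔ P))) (i j : ℤ) :
    bh (fill N k V) i j = if H i j then bh k i j else 0 := by
  have hz : ∀ i j, N ≤ i → bh k i j = 0 := by
    intro i j h
    unfold bh
    have h1 : k i (j - 1) = 0 := by
      by_contra h1
      have := hk _ _ h1
      omega
    have h2 : k i j = 0 := by
      by_contra h1
      have := hk _ _ h1
      omega
    rw [h1, h2, add_zero]
  have hvert : ∀ i j, (if V i (j - 1) then bv k i (j - 1) else 0) +
      (if V i j then bv k i j else 0) =
      (if H (i - 1) j then bh k (i - 1) j else 0) + (if H i j then bh k i j else 0) := by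
    intro i j
    obtain ⟨P, h1, h2, h3, h4⟩ := hc i j
    by_cases hP : P
    · have g1 : (if V i j then bv k i j else 0) = bv k i j := by
        by_cases h0 : bv k i j = 0
        · rw [h0]; simp
        · rw [if_pos ((h1 h0).2 hP)]
      have g2 : (if V i (j - 1) then bv k i (j - 1) else 0) = bv k i (j - 1) := by
        by_cases h0 : bv k i (j - 1) = 0
        · rw [h0]; simp
        · rw [if_pos ((h2 h0).2 hP)]
      have g3 : (if H i j then bh k i j else 0) = bh k i j := by
        by_cases h0 : bh k i j = 0
        · rw [h0]; simp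
        · rw [if_pos ((h3 h0).2 hP)]
      have g4 : (if H (i - 1) j then bh k (i - 1) j else 0) = bh k (i - 1) j := by
        by_cases h0 : bh k (i - 1) j = 0
        · rw [h0]; simp
        · rw [if_pos ((h4 h0).2 hP)]
      rw [g1, g2, g3, g4]
      unfold bv bh
      ring
    · have g1 : (if V i j then bv k i j else 0) = 0 := by
        by_cases h0 : bv k i j = 0
        · rw [h0]; simp
        · rw [if_neg fun h => hP ((h1 h0).1 h)]
      have g2 : (if V i (j - 1) then bv k i (j - 1) else 0) = 0 := by
        by_cases h0 : bv k i (j - 1) = 0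
        · rw [h0]; simp
        · rw [if_neg fun h => hP ((h2 h0).1 h)]
      have g3 : (if H i j then bh k i j else 0) = 0 := by
        by_cases h0 : bh k i j = 0
        · rw [h0]; simp
        · rw [if_neg fun h => hP ((h3 h0).1 h)]
      have g4 : (if H (i - 1) j then bh k (i - 1) j else 0) = 0 := by
        by_cases h0 : bh k (i - 1) j = 0
        · rw [h0]; simp
        · rw [if_neg fun h => hP ((h4 h0).1 h)]
      rw [g1, g2, g3, g4]
  rcases le_or_gt N i with h | h
  · unfold bh
    rw [fill_of_le h, fill_of_le h]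
    have := hz i j h
    unfold bh at this
    rw [this]
    simp
  · obtain ⟨n, hn⟩ : ∃ n : ℕ, i = N - n := ⟨(N - i).toNat, by omega⟩
    clear h
    induction n generalizing i with
    | zero =>
      have h : N ≤ i := by omega
      unfold bh
      rw [fill_of_le h, fill_of_le h]
      have := hz i j h
      unfold bh at this
      rw [this]
      simp
    | succ n ih =>
      have h1 := ih (i + 1) (by push_cast at hn; omega)
      have h2 := hvert (i + 1) j
      have h3 : fill N k V i (j - 1) =
          (if V (i + 1) (j - 1) then bv k (i + 1) (j - 1) else 0) + fill N k V (i + 1) (j - 1) := by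
        have := fill_pred (k := k) (V := V) (i := i + 1) (j := j - 1) (N := N)
          (by push_cast at hn; omega)
        rwa [add_sub_cancel_right] at this
      have h4 : fill N k V i j =
          (if V (i + 1) j then bv k (i + 1) j else 0) + fill N k V (i + 1) j := by
        have := fill_pred (k := k) (V := V) (i := i + 1) (j := j) (N := N)
          (by push_cast at hn; omega)
        rwa [add_sub_cancel_right] at this
      rw [add_sub_cancel_right] at h2
      unfold bh at h1 ⊢
      rw [h3, h4]
      calc _ = ((if V (i + 1) (j - 1) then bv k (i + 1) (j - 1) else 0) +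
            (if V (i + 1) j then bv k (i + 1) j else 0)) +
            (fill N k V (i + 1) (j - 1) + fill N k V (i + 1) j) := by ring
        _ = (if H i j then bh k i j else 0) +
            ((if H (i + 1) j then bh k (i + 1) j else 0) +
            (if H (i + 1) j then k (i + 1) (j - 1) + k (i + 1) j else 0)) := by
            rw [h1, h2]; ring
        _ = _ := by
            have : (if H (i + 1) j then bh k (i + 1) j else 0) =
              (if H (i + 1) j then k (i + 1) (j - 1) + k (i + 1) j else 0) := rfl
            rw [this, two_add, add_zero]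
            rfl

theorem fill_supp (hk : ∀ i j, k i j ≠ 0 → (A ≤ i ∧ i < N) ∧ (A ≤ j ∧ j < N))
    (V H : ℤ → ℤ → Prop)
    (hc : ∀ i j, ∃ P : Prop, (bv k i j ≠ 0 → (V i j ↔ P)) ∧
      (bv k i (j - 1) ≠ 0 → (V i (j - 1) ↔ P)) ∧ (bh k i j ≠ 0 → (H i j ↔ P)) ∧
      (bh k (i - 1) j ≠ 0 → (H (i - 1) j ↔ P))) (i j : ℤ) (h : fill N k V i j ≠ 0) :
    (A ≤ i ∧ i < N) ∧ (A ≤ j ∧ j < N) := by
  classical
  have hj : ∀ i j, (j < A ∨ N ≤ j) → fill N k V i j = 0 := by
    intro i j hj
    unfold fill
    refine Finset.sum_eq_zero fun i' _ => ?_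
    have h1 : k (i' - 1) j = 0 := by
      by_contra h1
      have := hk _ _ h1
      omega
    have h2 : k i' j = 0 := by
      by_contra h1
      have := hk _ _ h1
      omega
    unfold bv
    rw [h1, h2]
    simp
  have hi : ∀ i, i < A → ∀ j, fill N k V i j = 0 := by
    intro i hi j
    rcases lt_or_ge j A with h1 | h1
    · exact hj i j (Or.inl h1)
    · have key : ∀ n : ℕ, fill N k V i (A - 1 + n) = 0 := by
        intro n
        induction n with
        | zero => exact hj _ _ (Or.inl (by simp))
        | succ n ih =>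
          have h2 := fill_bh hk V H hc i (A - 1 + (n + 1 : ℕ))
          have h3 : bh k i (A - 1 + (n + 1 : ℕ)) = 0 := by
            unfold bh
            have h1 : k i (A - 1 + (n + 1 : ℕ) - 1) = 0 := by
              by_contra h1
              have := hk _ _ h1
              omega
            have h2 : k i (A - 1 + (n + 1 : ℕ)) = 0 := by
              by_contra h1
              have := hk _ _ h1
              omega
            rw [h1, h2, add_zero]
          rw [h3] at h2
          unfold bh at h2
          have h4 : A - 1 + ((n + 1 : ℕ) : ℤ) - 1 = A - 1 + n := by push_cast; ring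
          rw [h4, ih, zero_add] at h2
          rw [h2]
          simp
      have := key (j - (A - 1)).toNat
      rwa [show A - 1 + (((j - (A - 1)).toNat : ℕ) : ℤ) = j by omega] at this
  refine ⟨⟨?_, ?_⟩, ?_⟩
  · by_contra h1
    exact h (hi i (by omega) j)
  · by_contra h1
    exact h (fill_of_le (by omega))
  · by_contra h1
    exact h (hj i j (by omega))

/-- a finite set of faces has an end on the right of each of its faces -/
theorem exists_right (hk : ∀ i j, k i j ≠ 0 → (A ≤ i ∧ i < N) ∧ (A ≤ j ∧ j < N))
    {i j : ℤ} (h : k i j ≠ 0) :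
    ∃ t : ℕ, (∀ t' ≤ t, k (i + t') j ≠ 0) ∧ k (i + (t + 1 : ℕ)) j = 0 := by
  by_contra hcon
  push Not at hcon
  have key : ∀ t : ℕ, k (i + t) j ≠ 0 := by
    intro t
    induction t using Nat.strong_induction_on with
    | _ t ih =>
      rcases t with _ | t
      · simpa using h
      · exact hcon t fun t' ht' => ih t' (by omega)
  have h1 := hk _ _ (key (N - i).toNat)
  have h2 := (hk _ _ h).1
  omega

theorem exists_top (hk : ∀ i j, k i j ≠ 0 → (A ≤ i ∧ i < N) ∧ (A ≤ j ∧ j < N))
    {i j : ℤ} (h : k i j ≠ 0) :
    ∃ t : ℕ, k i (j + t) ≠ 0 ∧ k i (j + (t + 1 : ℕ)) = 0 := by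
  obtain ⟨t, h1, h2⟩ := exists_right (k := fun i j => k j i) (A := A) (N := N)
    (fun i j h => (hk j i h).symm) h
  exact ⟨t, h1 t le_rfl, h2⟩

end Pool.Agent.V11262.OP
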