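import Pool.Agent.V11262.OP.Abs
import Pool.Agent.V11262.OP.Planar

/-!
# Mass gap with two strong orthogonal planes: clusters of touched links
-/

set_option autoImplicit false
set_option linter.unusedSectionVars false

noncomputable section

namespace Pool.Agent.V11262.OP

/-- sites -/
abbrev Site : Type := Fin 4 → ℤ

/-- links: `(x, i)` joins `x` and `x + e_i` -/
abbrev Link : Type := Site × Fin 4

/-- unit vectors -/
def uv (κ : Fin 4) : Site := Pi.single κ 1

/-- the links of the plaquette at `x` in the plane `(i, j)` -/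
def ped (x : Site) (i j : Fin 4) : Finset Link :=
  {(x, i), (x + uv i, j), (x + uv j, i), (x, j)}

/-- strong plaquettes -/
abbrev SP : Type := Site × Bool

/-- first direction of the strong planes -/
def mu (b : Bool) : Fin 4 := if b then 2 else 0

/-- second direction of the strong planes -/
def nu (b : Bool) : Fin 4 := if b then 3 else 1

/-- the links of a strong plaquette -/
def sed (s : SP) : Finset Link := ped s.1 (mu s.2) (nu s.2)

/-- weak plaquettes -/
abbrev WP : Type := Site × Bool × Bool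

/-- first direction of the weak planes -/
def wi (b : Bool) : Fin 4 := if b then 1 else 0

/-- second direction of the weak planes -/
def wj (b : Bool) : Fin 4 := if b then 3 else 2

/-- the links of a weak plaquette -/
def wed (p : WP) : Finset Link := ped p.1 (wi p.2.1) (wj p.2.2)

lemma mem_ped {x : Site} {i j : Fin 4} {e : Link} : e ∈ ped x i j ↔
    e = (x, i) ∨ e = (x + uv i, j) ∨ e = (x + uv j, i) ∨ e = (x, j) := by
  simp [ped]

lemma mu_ne_nu (b : Bool) : mu b ≠ nu b := by cases b <;> decide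

lemma mu_inj {b b' : Bool} (h : mu b = mu b') : b = b' := by
  revert h; cases b <;> cases b' <;> decide

lemma nu_inj {b b' : Bool} (h : nu b = nu b') : b = b' := by
  revert h; cases b <;> cases b' <;> decide

lemma mu_ne_nu' (b b' : Bool) : mu b ≠ nu b' := by cases b <;> cases b' <;> decide

lemma mem_sed_mu {y : Site} {b : Bool} {s : SP} (h : (y, mu b) ∈ sed s) :
    s = (y, b) ∨ s = (y - uv (nu b), b) := by
  obtain ⟨z, b'⟩ := s
  rw [sed, mem_ped] at h
  rcases h with h | h | h | h
  · have h1 := (Prod.ext_iff.1 h).1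
    have h2 := mu_inj (Prod.ext_iff.1 h).2
    simp only at h1 h2
    subst h2; subst h1
    exact Or.inl rfl
  · exact absurd (Prod.ext_iff.1 h).2 (mu_ne_nu' _ _)
  · have h1 := (Prod.ext_iff.1 h).1
    have h2 := mu_inj (Prod.ext_iff.1 h).2
    simp only at h1 h2
    subst h2; subst h1
    right
    rw [add_sub_cancel_right]
  · exact absurd (Prod.ext_iff.1 h).2 (mu_ne_nu' _ _)

lemma mem_sed_nu {y : Site} {b : Bool} {s : SP} (h : (y, nu b) ∈ sed s) :
    s = (y, b) ∨ s = (y - uv (mu b), b) := by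
  obtain ⟨z, b'⟩ := s
  rw [sed, mem_ped] at h
  rcases h with h | h | h | h
  · exact absurd (Prod.ext_iff.1 h).2.symm (mu_ne_nu' _ _)
  · have h1 := (Prod.ext_iff.1 h).1
    have h2 := nu_inj (Prod.ext_iff.1 h).2
    simp only at h1 h2
    subst h2; subst h1
    right
    rw [add_sub_cancel_right]
  · exact absurd (Prod.ext_iff.1 h).2.symm (mu_ne_nu' _ _)
  · have h1 := (Prod.ext_iff.1 h).1
    have h2 := nu_inj (Prod.ext_iff.1 h).2
    simp only at h1 h2
    subst h2; subst h1
    exact Or.inl rfl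

/-- the point with coordinates `(i, j)` in the plane `b` through `x` -/
def pt (x : Site) (b : Bool) (i j : ℤ) : Site :=
  Function.update (Function.update x (mu b) i) (nu b) j

lemma pt_self (x : Site) (b : Bool) : pt x b (x (mu b)) (x (nu b)) = x := by
  unfold pt
  rw [Function.update_eq_self, Function.update_eq_self]

lemma pt_mu (x : Site) (b : Bool) (i j : ℤ) : pt x b i j (mu b) = i := by
  unfold pt
  rw [Function.update_of_ne (mu_ne_nu b), Function.update_self]

lemma pt_nu (x : Site) (b : Bool) (i j : ℤ) : pt x b i j (nu b) = j := by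
  unfold pt
  rw [Function.update_self]

lemma pt_add_mu (x : Site) (b : Bool) (i j t : ℤ) :
    pt x b i j + t • uv (mu b) = pt x b (i + t) j := by
  funext κ
  by_cases h1 : κ = nu b
  · subst h1
    rw [Pi.add_apply, pt_nu, pt_nu, Pi.smul_apply, uv, Pi.single_eq_of_ne (mu_ne_nu b).symm]
    simp
  · by_cases h2 : κ = mu b
    · subst h2
      rw [Pi.add_apply, pt_mu, pt_mu, Pi.smul_apply, uv, Pi.single_eq_same]
      simp
    · rw [Pi.add_apply, Pi.smul_apply, uv, Pi.single_eq_of_ne h2]
      unfold pt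
      simp [Function.update_of_ne h1, Function.update_of_ne h2]

lemma pt_add_nu (x : Site) (b : Bool) (i j t : ℤ) :
    pt x b i j + t • uv (nu b) = pt x b i (j + t) := by
  funext κ
  by_cases h1 : κ = nu b
  · subst h1
    rw [Pi.add_apply, pt_nu, pt_nu, Pi.smul_apply, uv, Pi.single_eq_same]
    simp
  · by_cases h2 : κ = mu b
    · subst h2
      rw [Pi.add_apply, pt_mu, pt_mu, Pi.smul_apply, uv, Pi.single_eq_of_ne (mu_ne_nu b)]
      simp
    · rw [Pi.add_apply, Pi.smul_apply, uv, Pi.single_eq_of_ne h1]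
      unfold pt
      simp [Function.update_of_ne h1, Function.update_of_ne h2]

lemma pt_mu1 (x : Site) (b : Bool) (i j : ℤ) :
    pt x b i j + uv (mu b) = pt x b (i + 1) j := by
  have := pt_add_mu x b i j 1
  rwa [one_smul] at this

lemma pt_nu1 (x : Site) (b : Bool) (i j : ℤ) :
    pt x b i j + uv (nu b) = pt x b i (j + 1) := by
  have := pt_add_nu x b i j 1
  rwa [one_smul] at this

lemma pt_mu1' (x : Site) (b : Bool) (i j : ℤ) :
    pt x b i j - uv (mu b) = pt x b (i - 1) j := by
  rw [sub_eq_iff_eq_add, pt_mu1, sub_add_cancel]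

lemma pt_nu1' (x : Site) (b : Bool) (i j : ℤ) :
    pt x b i j - uv (nu b) = pt x b i (j - 1) := by
  rw [sub_eq_iff_eq_add, pt_nu1, sub_add_cancel]

lemma pt_inj {x : Site} {b : Bool} {i j i' j' : ℤ} (h : pt x b i j = pt x b i' j') :
    i = i' ∧ j = j' := by
  constructor
  · have := congrFun h (mu b)
    rwa [pt_mu, pt_mu] at this
  · have := congrFun h (nu b)
    rwa [pt_nu, pt_nu] at this

/-- the strong plaquettes of a box -/
def SB (R : ℤ) : Finset SP := (Fintype.piFinset fun _ => Finset.Ico (-R) R) ×ˢ Finset.univ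

lemma mem_SB {R : ℤ} {s : SP} : s ∈ SB R ↔ ∀ κ, -R ≤ s.1 κ ∧ s.1 κ < R := by
  simp [SB, Fintype.mem_piFinset, Finset.mem_Ico]

open Classical in
/-- the indicator function of a set of strong plaquettes in a plane -/
def ind (K : Finset SP) (x : Site) (b : Bool) (i j : ℤ) : ZMod 2 :=
  if (pt x b i j, b) ∈ K then 1 else 0

lemma ind_ne_zero {K : Finset SP} {x : Site} {b : Bool} {i j : ℤ} :
    ind K x b i j ≠ 0 ↔ (pt x b i j, b) ∈ K := by
  unfold ind
  split_ifs with h
  · simp [h]
  · simp [h]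

lemma ind_supp {R : ℤ} {K : Finset SP} (hK : K ⊆ SB R) {x : Site} {b : Bool} (i j : ℤ)
    (h : ind K x b i j ≠ 0) : (-R ≤ i ∧ i < R) ∧ (-R ≤ j ∧ j < R) := by
  have h1 := mem_SB.1 (hK (ind_ne_zero.1 h))
  have h2 := h1 (mu b)
  have h3 := h1 (nu b)
  simp only [pt_mu, pt_nu] at h2 h3
  exact ⟨h2, h3⟩

lemma two_cases (a : ZMod 2) : a = 0 ∨ a = 1 := by
  revert a; decide

lemma add_ne_zero_cases {a b : ZMod 2} (h : a + b ≠ 0) : (a ≠ 0 ∧ b = 0) ∨ (a = 0 ∧ b ≠ 0) := by
  revert h a b; decide

lemma eq_of_add_eq_zero {a b : ZMod 2} (h : a + b = 0) : a = b := by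
  revert h a b; decide

/-- links with a nonzero boundary value are in `T` -/
lemma mem_of_bv {K : Finset SP} {T : Finset Link} (hBD : BD sed T K) {x : Site} {b : Bool}
    {i j : ℤ} (h : bv (ind K x b) i j ≠ 0) : (pt x b i j, nu b) ∈ T := by
  by_contra hT
  unfold bv at h
  rcases add_ne_zero_cases h with ⟨h1, h2⟩ | ⟨h1, h2⟩
  · rw [ind_ne_zero] at h1
    have h2' : (pt x b i j, b) ∉ K := fun h' => (ind_ne_zero.2 h') h2
    obtain ⟨s', hs', hne, he⟩ := hBD _ h1 (pt x b i j, nu b) (by
      rw [sed, mem_ped]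
      right; left
      rw [pt_mu1, sub_add_cancel]) hT
    rcases mem_sed_nu he with h3 | h3
    · exact h2' (h3 ▸ hs')
    · rw [pt_mu1'] at h3
      exact hne h3
  · rw [ind_ne_zero] at h2
    have h1' : (pt x b (i - 1) j, b) ∉ K := fun h' => (ind_ne_zero.2 h') h1
    obtain ⟨s', hs', hne, he⟩ := hBD _ h2 (pt x b i j, nu b) (by
      rw [sed, mem_ped]
      right; right; right; rfl) hT
    rcases mem_sed_nu he with h3 | h3
    · exact hne h3
    · rw [pt_mu1'] at h3
      exact h1' (h3 ▸ hs')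

lemma mem_of_bh {K : Finset SP} {T : Finset Link} (hBD : BD sed T K) {x : Site} {b : Bool}
    {i j : ℤ} (h : bh (ind K x b) i j ≠ 0) : (pt x b i j, mu b) ∈ T := by
  by_contra hT
  unfold bh at h
  rcases add_ne_zero_cases h with ⟨h1, h2⟩ | ⟨h1, h2⟩
  · rw [ind_ne_zero] at h1
    have h2' : (pt x b i j, b) ∉ K := fun h' => (ind_ne_zero.2 h') h2
    obtain ⟨s', hs', hne, he⟩ := hBD _ h1 (pt x b i j, mu b) (by
      rw [sed, mem_ped]
      right; right; left
      rw [pt_nu1, sub_add_cancel]) hT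
    rcases mem_sed_mu he with h3 | h3
    · exact h2' (h3 ▸ hs')
    · rw [pt_nu1'] at h3
      exact hne h3
  · rw [ind_ne_zero] at h2
    have h1' : (pt x b i (j - 1), b) ∉ K := fun h' => (ind_ne_zero.2 h') h1
    obtain ⟨s', hs', hne, he⟩ := hBD _ h2 (pt x b i j, mu b) (by
      rw [sed, mem_ped]
      left; rfl) hT
    rcases mem_sed_mu he with h3 | h3
    · exact hne h3
    · rw [pt_nu1'] at h3
      exact h1' (h3 ▸ hs')

/-- the ends of a link -/
def ends (e : Link) : Finset Site := {e.1, e.1 + uv e.2}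

lemma mem_ends {e : Link} {v : Site} : v ∈ ends e ↔ v = e.1 ∨ v = e.1 + uv e.2 := by
  simp [ends]

/-- two links have a common end -/
def tch (e f : Link) : Prop := ∃ v, v ∈ ends e ∧ v ∈ ends f

/-- one step in `T` -/
def stp (T : Finset Link) (e f : Link) : Prop := e ∈ T ∧ f ∈ T ∧ tch e f

open Classical in
/-- the cluster of a link -/
def clu (T : Finset Link) (e : Link) : Finset Link :=
  T.filter fun f => Relation.ReflTransGen (stp T) e f

lemma mem_clu {T : Finset Link} {e f : Link} :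
    f ∈ clu T e ↔ f ∈ T ∧ Relation.ReflTransGen (stp T) e f := by
  simp only [clu, Finset.mem_filter]

lemma stp_symm {T : Finset Link} {e f : Link} (h : stp T e f) : stp T f e :=
  ⟨h.2.1, h.1, h.2.2.choose, h.2.2.choose_spec.2, h.2.2.choose_spec.1⟩

lemma rtg_symm {T : Finset Link} {e f : Link} (h : Relation.ReflTransGen (stp T) e f) :
    Relation.ReflTransGen (stp T) f e := by
  induction h with
  | refl => exact .refl
  | tail _ h ih => exact Relation.ReflTransGen.head (stp_symm h) ih

lemma self_clu {T : Finset Link} {e : Link} (he : e ∈ T) : e ∈ clu T e :=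
  mem_clu.2 ⟨he, .refl⟩

lemma clu_eq {T : Finset Link} {e f : Link} (h : f ∈ clu T e) : clu T f = clu T e := by
  rw [mem_clu] at h
  ext g
  rw [mem_clu, mem_clu]
  constructor
  · rintro ⟨h1, h2⟩
    exact ⟨h1, h.2.trans h2⟩
  · rintro ⟨h1, h2⟩
    exact ⟨h1, (rtg_symm h.2).trans h2⟩

/-- clusters -/
def IsClu (T c : Finset Link) : Prop := ∃ e ∈ T, c = clu T e

lemma IsClu.eq {T c : Finset Link} (hc : IsClu T c) {f : Link} (hf : f ∈ c) : c = clu T f := by
  obtain ⟨e, he, rfl⟩ := hc
  exact (clu_eq hf).symm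

lemma IsClu.sub {T c : Finset Link} (hc : IsClu T c) : c ⊆ T := by
  obtain ⟨e, he, rfl⟩ := hc
  exact fun f hf => (mem_clu.1 hf).1

lemma IsClu.tch {T c : Finset Link} (hc : IsClu T c) {f g : Link} (hf : f ∈ c) (hg : g ∈ T)
    (h : tch f g) : g ∈ c := by
  rw [hc.eq hf, mem_clu]
  exact ⟨hg, .single ⟨hc.sub hf, hg, h⟩⟩

lemma IsClu.pos {T c : Finset Link} (hc : IsClu T c) : 1 ≤ c.card := by
  obtain ⟨e, he, rfl⟩ := hc
  exact Finset.card_pos.2 ⟨e, self_clu he⟩

lemma IsClu.disj {T c c' : Finset Link} (hc : IsClu T c) (hc' : IsClu T c') (h : c ≠ c') :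
    Disjoint c c' := by
  rw [Finset.disjoint_left]
  intro f hf hf'
  exact h ((hc.eq hf).trans (hc'.eq hf').symm)

/-- `K` is filled by the cluster `c` -/
def Fil (R : ℤ) (c : Finset Link) (s : SP) : Prop := ∃ K ⊆ SB R, s ∈ K ∧ BD sed c K

lemma fill_top {A N : ℤ} {k : ℤ → ℤ → ZMod 2}
    (hk : ∀ i j, k i j ≠ 0 → (A ≤ i ∧ i < N) ∧ (A ≤ j ∧ j < N)) (i j : ℤ) :
    fill N k (fun _ _ => True) i j = k i j := by
  rcases le_or_gt N i with h | h
  · rw [fill_of_le h]
    by_contra h1
    have := hk i j (Ne.symm h1)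
    omega
  · obtain ⟨n, hn⟩ : ∃ n : ℕ, i = N - n := ⟨(N - i).toNat, by omega⟩
    clear h
    induction n generalizing i with
    | zero =>
      have h : N ≤ i := by omega
      rw [fill_of_le h]
      by_contra h1
      have := hk i j (Ne.symm h1)
      omega
    | succ n ih =>
      have h1 := ih (i + 1) (by push_cast at hn; omega)
      have := fill_pred (k := k) (V := fun _ _ => True) (i := i + 1) (j := j) (N := N)
        (by push_cast at hn; omega)
      rw [add_sub_cancel_right, h1] at this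
      rw [this, if_pos trivial]
      unfold bv
      rw [add_sub_cancel_right, add_assoc, two_add, add_zero]

/-- every plaquette of the core is filled by a cluster -/
theorem exists_fil {R : ℤ} {T : Finset Link} {s : SP} (hs : s ∈ core sed (SB R) T) :
    ∃ c, IsClu T c ∧ Fil R c s := by
  classical
  obtain ⟨x, b⟩ := s
  set J := core sed (SB R) T with hJ
  have hJS : J ⊆ SB R := core_sub _ _ _
  have hBD : BD sed T J := BD_core _ _ _
  set k := ind J x b with hk
  have hsupp : ∀ i j, k i j ≠ 0 → (-R ≤ i ∧ i < R) ∧ (-R ≤ j ∧ j < R) :=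
    fun i j h => ind_supp hJS i j h
  set i0 := x (mu b) with hi0
  set j0 := x (nu b) with hj0
  have hk0 : k i0 j0 ≠ 0 := by
    rw [hk, ind_ne_zero, hi0, hj0, pt_self]
    exact hs
  -- some cluster fills `s`
  have h1 : ∃ c ∈ T.image (clu T), fill R k (fun i j => (pt x b i j, nu b) ∈ c) i0 j0 ≠ 0 := by
    by_contra hcon
    push Not at hcon
    have h2 : ∑ c ∈ T.image (clu T), fill R k (fun i j => (pt x b i j, nu b) ∈ c) i0 j0 = 0 :=
      Finset.sum_eq_zero hcon
    unfold fill at h2
    rw [Finset.sum_comm] at h2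
    have h3 : ∀ i' ∈ Finset.Ioc i0 R, (∑ c ∈ T.image (clu T),
        @ite (ZMod 2) ((pt x b i' j0, nu b) ∈ c) (Classical.propDecidable _) (bv k i' j0) 0) =
        @ite (ZMod 2) True (Classical.propDecidable _) (bv k i' j0) 0 := by
      intro i' _
      rw [if_pos trivial]
      by_cases h4 : bv k i' j0 = 0
      · rw [h4]
        simp
      · have h5 := mem_of_bv hBD h4
        rw [Finset.sum_eq_single (clu T (pt x b i' j0, nu b))]
        · rw [if_pos (self_clu h5)]
        · intro c hc hne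
          rw [Finset.mem_image] at hc
          obtain ⟨e, he, rfl⟩ := hc
          rw [if_neg]
          intro hmem
          exact hne (clu_eq hmem).symm
        · intro h6
          exact absurd (Finset.mem_image_of_mem _ h5) h6
    have h2' := (Finset.sum_congr rfl h3).symm.trans h2
    have h4 := fill_top hsupp i0 j0
    unfold fill at h4
    exact hk0 (h4.symm.trans h2')
  obtain ⟨c, hc, hfc⟩ := h1
  rw [Finset.mem_image] at hc
  obtain ⟨e, he, rfl⟩ := hc
  have hclu : IsClu T (clu T e) := ⟨e, he, rfl⟩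
  refine ⟨clu T e, hclu, ?_⟩
  set V : ℤ → ℤ → Prop := fun i j => (pt x b i j, nu b) ∈ clu T e with hV
  set H : ℤ → ℤ → Prop := fun i j => (pt x b i j, mu b) ∈ clu T e with hH
  have hcond : ∀ i j, ∃ P : Prop, (bv k i j ≠ 0 → (V i j ↔ P)) ∧
      (bv k i (j - 1) ≠ 0 → (V i (j - 1) ↔ P)) ∧ (bh k i j ≠ 0 → (H i j ↔ P)) ∧
      (bh k (i - 1) j ≠ 0 → (H (i - 1) j ↔ P)) := by
    intro i j
    refine ⟨∃ g ∈ clu T e, pt x b i j ∈ ends g, ?_, ?_, ?_, ?_⟩
    · intro h
      have hT := mem_of_bv hBD h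
      have hend : pt x b i j ∈ ends (pt x b i j, nu b) := mem_ends.2 (Or.inl rfl)
      exact ⟨fun h' => ⟨_, h', hend⟩, fun ⟨g, hg, hg'⟩ => hclu.tch hg hT ⟨_, hg', hend⟩⟩
    · intro h
      have hT := mem_of_bv hBD h
      have hend : pt x b i j ∈ ends (pt x b i (j - 1), nu b) :=
        mem_ends.2 (Or.inr (by rw [pt_nu1, sub_add_cancel]))
      exact ⟨fun h' => ⟨_, h', hend⟩, fun ⟨g, hg, hg'⟩ => hclu.tch hg hT ⟨_, hg', hend⟩⟩
    · intro h
      have hT := mem_of_bh hBD h
      have hend : pt x b i j ∈ ends (pt x b i j, mu b) := mem_ends.2 (Or.inl rfl)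
      exact ⟨fun h' => ⟨_, h', hend⟩, fun ⟨g, hg, hg'⟩ => hclu.tch hg hT ⟨_, hg', hend⟩⟩
    · intro h
      have hT := mem_of_bh hBD h
      have hend : pt x b i j ∈ ends (pt x b (i - 1) j, mu b) :=
        mem_ends.2 (Or.inr (by rw [pt_mu1, sub_add_cancel]))
      exact ⟨fun h' => ⟨_, h', hend⟩, fun ⟨g, hg, hg'⟩ => hclu.tch hg hT ⟨_, hg', hend⟩⟩
  have f1 := fill_bv hsupp V
  have f2 := fill_bh hsupp V H hcond
  have f3 := fill_supp hsupp V H hcond
  set k' := fill R k V with hk'
  set K : Finset SP := ((Finset.Ico (-R) R ×ˢ Finset.Ico (-R) R).filter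
    fun q : ℤ × ℤ => k' q.1 q.2 ≠ 0).image fun q => (pt x b q.1 q.2, b) with hKdef
  have hmemK : ∀ i j, (pt x b i j, b) ∈ K ↔ k' i j ≠ 0 := by
    intro i j
    rw [hKdef, Finset.mem_image]
    constructor
    · rintro ⟨⟨i', j'⟩, h1, h2⟩
      rw [Finset.mem_filter] at h1
      obtain ⟨h3, h4⟩ := pt_inj (Prod.ext_iff.1 h2).1
      simp only at h3 h4
      rw [← h3, ← h4]
      exact h1.2
    · intro h
      refine ⟨(i, j), ?_, rfl⟩
      rw [Finset.mem_filter, Finset.mem_product, Finset.mem_Ico, Finset.mem_Ico]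
      exact ⟨f3 i j h, h⟩
  have hxR : ∀ κ, -R ≤ x κ ∧ x κ < R := mem_SB.1 (hJS hs)
  refine ⟨K, ?_, ?_, ?_⟩
  · intro s' hs'
    rw [hKdef, Finset.mem_image] at hs'
    obtain ⟨⟨i, j⟩, h1, rfl⟩ := hs'
    rw [Finset.mem_filter, Finset.mem_product, Finset.mem_Ico, Finset.mem_Ico] at h1
    rw [mem_SB]
    intro κ
    simp only
    by_cases h2 : κ = nu b
    · subst h2
      rw [pt_nu]
      exact h1.1.2
    · by_cases h3 : κ = mu b
      · subst h3
        rw [pt_mu]
        exact h1.1.1
      · unfold pt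
        rw [Function.update_of_ne h2, Function.update_of_ne h3]
        exact hxR κ
  · have := (hmemK i0 j0).2 hfc
    rwa [hi0, hj0, pt_self] at this
  · intro s' hs' g hg hgc
    rw [hKdef, Finset.mem_image] at hs'
    obtain ⟨⟨i, j⟩, h1, rfl⟩ := hs'
    rw [Finset.mem_filter] at h1
    have hij : k' i j ≠ 0 := h1.2
    simp only [sed, mem_ped] at hg
    rcases hg with rfl | rfl | rfl | rfl
    · -- bottom
      have h2 := f2 i j
      rw [if_neg (show ¬ H i j from hgc)] at h2
      unfold bh at h2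
      have h3 : k' i (j - 1) ≠ 0 := by rw [eq_of_add_eq_zero h2]; exact hij
      refine ⟨(pt x b i (j - 1), b), (hmemK _ _).2 h3, ?_, ?_⟩
      · intro h4
        have := (pt_inj (Prod.ext_iff.1 h4).1).2
        omega
      · simp only [sed, mem_ped]
        right; right; left
        rw [pt_nu1, sub_add_cancel]
    · -- right
      rw [pt_mu1] at hgc
      have h2 := f1 (i + 1) j
      rw [if_neg (show ¬ V (i + 1) j from hgc)] at h2
      unfold bv at h2
      rw [add_sub_cancel_right] at h2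
      have h3 : k' (i + 1) j ≠ 0 := by rw [← eq_of_add_eq_zero h2]; exact hij
      refine ⟨(pt x b (i + 1) j, b), (hmemK _ _).2 h3, ?_, ?_⟩
      · intro h4
        have := (pt_inj (Prod.ext_iff.1 h4).1).1
        omega
      · simp only [sed, mem_ped]
        right; right; right
        rw [pt_mu1]
    · -- top
      rw [pt_nu1] at hgc
      have h2 := f2 i (j + 1)
      rw [if_neg (show ¬ H i (j + 1) from hgc)] at h2
      unfold bh at h2
      rw [add_sub_cancel_right] at h2
      have h3 : k' i (j + 1) ≠ 0 := by rw [← eq_of_add_eq_zero h2]; exact hij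
      refine ⟨(pt x b i (j + 1), b), (hmemK _ _).2 h3, ?_, ?_⟩
      · intro h4
        have := (pt_inj (Prod.ext_iff.1 h4).1).2
        omega
      · simp only [sed, mem_ped]
        left
        rw [pt_nu1]
    · -- left
      have h2 := f1 i j
      rw [if_neg (show ¬ V i j from hgc)] at h2
      unfold bv at h2
      have h3 : k' (i - 1) j ≠ 0 := by rw [eq_of_add_eq_zero h2]; exact hij
      refine ⟨(pt x b (i - 1) j, b), (hmemK _ _).2 h3, ?_, ?_⟩
      · intro h4
        have := (pt_inj (Prod.ext_iff.1 h4).1).1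
        omega
      · simp only [sed, mem_ped]
        right; left
        rw [pt_mu1, sub_add_cancel]

/-- from a filled plaquette one reaches the cluster along a short straight line -/
theorem fil_reach {R : ℤ} {c : Finset Link} {x : Site} {b : Bool} (h : Fil R c (x, b)) :
    ∃ t : ℕ, t + 1 ≤ c.card ∧ (x + ((t + 1 : ℕ) : ℤ) • uv (mu b), nu b) ∈ c := by
  classical
  obtain ⟨K, hK, hs, hBD⟩ := h
  set k := ind K x b with hk
  have hsupp : ∀ i j, k i j ≠ 0 → (-R ≤ i ∧ i < R) ∧ (-R ≤ j ∧ j < R) :=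
    fun i j h => ind_supp hK i j h
  set i0 := x (mu b) with hi0
  set j0 := x (nu b) with hj0
  have hk0 : k i0 j0 ≠ 0 := by
    rw [hk, ind_ne_zero, hi0, hj0, pt_self]
    exact hs
  obtain ⟨t, ht1, ht2⟩ := exists_right hsupp hk0
  refine ⟨t, ?_, ?_⟩
  · have hr : ∀ t' : ℕ, ∃ r : ℕ, t' ≤ t →
        (pt x b (i0 + t') (j0 + (r + 1 : ℕ)), mu b) ∈ c := by
      intro t'
      by_cases htt : t' ≤ t
      · obtain ⟨r, h1, h2⟩ := exists_top hsupp (ht1 t' htt)
        refine ⟨r, fun _ => mem_of_bh hBD ?_⟩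
        unfold bh
        rw [show (ind K x b) = k from rfl, h2, add_zero,
          show j0 + ((r + 1 : ℕ) : ℤ) - 1 = j0 + r by push_cast; ring]
        exact h1
      · exact ⟨0, fun h => absurd h htt⟩
    choose r hr using hr
    have := Finset.card_le_card_of_injOn (s := Finset.range (t + 1)) (t := c)
      (fun t' : ℕ => (pt x b (i0 + t') (j0 + (r t' + 1 : ℕ)), mu b))
      (by
        intro t' ht'
        exact hr t' (by simpa [Nat.lt_succ_iff] using ht'))
      (by
        intro a _ b' _ hab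
        have := (pt_inj (Prod.ext_iff.1 hab).1).1
        omega)
    simpa using this
  · have h3 : bv (ind K x b) (i0 + (t + 1 : ℕ)) j0 ≠ 0 := by
      unfold bv
      rw [show (ind K x b) = k from rfl, ht2, add_zero,
        show i0 + ((t + 1 : ℕ) : ℤ) - 1 = i0 + t by push_cast; ring]
      exact ht1 t le_rfl
    have h4 := mem_of_bv hBD h3
    have h5 : x + ((t + 1 : ℕ) : ℤ) • uv (mu b) = pt x b (i0 + (t + 1 : ℕ)) j0 := by
      rw [← pt_add_mu, hi0, hj0, pt_self]
    rw [h5]
    exact h4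

end Pool.Agent.V11262.OP
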